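import Mathlib

set_option autoImplicit false

/-!
Finitely generated groups on which doubling is bijective.
-/

namespace Run7.h615.EP

theorem fin_odd {A : Type} [AddCommGroup A] [hfg : AddGroup.FG A] (h : ∀ P : A, ∃! Q, Q + Q = P) :
    Finite A ∧ Odd (Nat.card A) := by
  have hM : Module.Finite ℤ A := Module.Finite.iff_addGroup_fg.2 hfg
  obtain ⟨r, hr1, hr2⟩ := Submodule.exists_sub_one_mem_and_smul_eq_zero_of_fg_of_le_smul
    (Ideal.span {(2 : ℤ)}) (⊤ : Submodule ℤ A) hM.1 (by
      intro x _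
      obtain ⟨y, hy, -⟩ := h x
      rw [← hy, ← two_zsmul]
      exact Submodule.smul_mem_smul (Ideal.mem_span_singleton_self _) trivial)
  have hr0 : r ≠ 0 := by
    rintro rfl
    rw [zero_sub, Ideal.mem_span_singleton] at hr1
    norm_num at hr1
  have htor : Module.IsTorsion ℤ A := fun x =>
    ⟨⟨r, mem_nonZeroDivisors_of_ne_zero hr0⟩, hr2 x trivial⟩
  have hfin : Finite A := Module.finite_of_fg_torsion A htor
  refine ⟨hfin, ?_⟩
  by_contra hodd
  rw [Nat.not_odd_iff_even, even_iff_two_dvd] at hodd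
  have : Fact (Nat.Prime 2) := ⟨Nat.prime_two⟩
  obtain ⟨x, hx⟩ := exists_prime_addOrderOf_dvd_card' (G := A) 2 hodd
  have h1 : x + x = 0 := by
    rw [← two_nsmul, ← hx]
    exact addOrderOf_nsmul_eq_zero x
  have h2 := (h 0).unique h1 (add_zero 0)
  rw [h2, addOrderOf_zero] at hx
  norm_num at hx

end Run7.h615.EP
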