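import Pool.Agent.Run7.h615.EP.Defe

set_option autoImplicit false

/-!
Places with one place above over the field of rational numbers.
-/

namespace Run7.h615.EP

open Polynomial

theorem oneAbove_of_irr {k : Type} [Field k] {f : k[X]} {m : k} (h : Irreducible (f - C m)) :
    OneAbove f (X - C m) :=
  ⟨1, f - C m, 1, one_ne_zero, h, by rw [sub_comp, X_comp, C_comp, pow_one, C_1, one_mul]⟩

theorem oneAbove_cub {k : Type} [Field k] {a b c m : k}
    (h : ∀ x : k, x ^ 3 + a * x ^ 2 + b * x + c ≠ m) : OneAbove (cub a b c) (X - C m) := by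
  apply oneAbove_of_irr
  have hdeg : (cub a b c - C m).natDegree = 3 := by
    rw [natDegree_sub_C, cub]; compute_degree!
  have hmon : (cub a b c - C m).Monic := by
    rw [cub]
    monicity!
  rw [hmon.irreducible_iff_roots_eq_zero_of_degree_le_three (by rw [hdeg]; norm_num)
    (by rw [hdeg])]
  rw [Multiset.eq_zero_iff_forall_notMem]
  intro x hx
  have h1 := (mem_roots'.1 hx).2
  rw [IsRoot, cub, eval_sub, eval_add, eval_add, eval_add, eval_mul, eval_mul, eval_pow, eval_pow,
    eval_X, eval_C, eval_C, eval_C, eval_C] at h1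
  exact h x (sub_eq_zero.1 h1)

theorem oneAbove_int {a b c m : ℤ} (h : ∀ x : ℤ, x ^ 3 + a * x ^ 2 + b * x + c ≠ m) :
    OneAbove (cub (a : ℚ) b c) (X - C (m : ℚ)) := by
  apply oneAbove_cub
  intro x hx
  have hmon : (X ^ 3 + C a * X ^ 2 + C b * X + C (c - m) : ℤ[X]).Monic := by monicity!
  have hr : aeval x (X ^ 3 + C a * X ^ 2 + C b * X + C (c - m) : ℤ[X]) = 0 := by
    rw [map_add, map_add, map_add, map_mul, map_mul, map_pow, map_pow, aeval_X, aeval_C, aeval_C,
      aeval_C]
    have e : ∀ n : ℤ, algebraMap ℤ ℚ n = (n : ℚ) := fun _ => rfl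
    rw [e, e, e]
    push_cast
    linear_combination hx
  obtain ⟨n, hn⟩ := isInteger_of_is_root_of_monic hmon hr
  rw [algebraMap_int_eq, eq_intCast] at hn
  rw [← hn] at hx
  apply h n
  exact_mod_cast hx

end Run7.h615.EP
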