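import Pool.Agent.Run7.h615.EP.Defs

set_option autoImplicit false

/-!
Definitions: the Galois modules, their classes, and the vanishing of the Selmer group.

`M` is an abelian group with an action of the Galois group of `Ω` over `K = k(t)`, in the applications
the group `A(Ω)` of the points of an abelian variety `A` over `K`, and `lam` is an endomorphism.
-/

namespace Run7.h615.EP

open Polynomial

section

variable {k K Ω : Type} [Field k] [Field K] [Algebra k[X] K] [Field Ω] [Algebra K Ω]
  {M : Type} [AddCommGroup M] [DistribMulAction (Ω ≃ₐ[K] Ω) M]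

/-- The map `e` is an isomorphism, compatible with the Galois group, of the kernel of `lam` with the
group of the functions with values in `ZMod ℓ` and sum zero on the set of the roots of `f(x) = t`. -/
structure IsKerIso (f : k[X]) (ℓ : ℕ) (lam : M →+ M)
    (e : M → {x : Ω // IsRt K f x} → ZMod ℓ) : Prop where
  add : ∀ a b : M, lam a = 0 → lam b = 0 → e (a + b) = e a + e b
  inj : ∀ a : M, lam a = 0 → e a = 0 → a = 0
  range : ∀ u : {x : Ω // IsRt K f x} → ZMod ℓ, (∃ a : M, lam a = 0 ∧ e a = u) ↔ ∑ᶠ β, u β = 0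
  act : ∀ (σ : Ω ≃ₐ[K] Ω) (a : M), lam a = 0 → ∀ β β' : {x : Ω // IsRt K f x},
    σ β = β' → e (σ • a) β' = e a β

variable (K) in
/-- Each element fixed by the inertia group of `w` is the image under `lam` of such an element. -/
def DivAt (w : ValuationSubring Ω) (lam : M →+ M) : Prop :=
  ∀ m : M, (∀ σ : Ω ≃ₐ[K] Ω, InIne w σ → σ • m = m) →
    ∃ m' : M, (∀ σ : Ω ≃ₐ[K] Ω, InIne w σ → σ • m' = m') ∧ lam m' = m

/-- The Galois module `M` with its endomorphism `lam`: it is discrete, `lam` is surjective, its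
kernel is as in `IsKerIso`, and `DivAt` holds at all the finite places with more than one place above
them in `k(x)`, `t = f(x)`. -/
structure IsMod (f : k[X]) (ℓ : ℕ) (lam : M →+ M) : Prop where
  disc : ∀ m : M, ∃ S : Set Ω, S.Finite ∧
    ∀ σ : Ω ≃ₐ[K] Ω, (∀ x ∈ S, σ x = x) → σ • m = m
  equiv : ∀ (σ : Ω ≃ₐ[K] Ω) (m : M), lam (σ • m) = σ • lam m
  surj : Function.Surjective lam
  ker : ∃ e : M → {x : Ω // IsRt K f x} → ZMod ℓ, IsKerIso f ℓ lam e
  div : ∀ (w : ValuationSubring Ω) (π : k[X]), IsPlace K w π → ¬ OneAbove f π → DivAt K w lam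

/-- The action of the Galois group of `Ω` over `L`. -/
def actL {L : IntermediateField K Ω} (σ : Ω ≃ₐ[L] Ω) (m : M) : M := (σ.restrictScalars K) • m

/-- `m` is fixed by the Galois group of `L`: an element of `M(L)`. -/
def FixedBy (L : IntermediateField K Ω) (m : M) : Prop := ∀ σ : Ω ≃ₐ[L] Ω, actL σ m = m

/-- `c` is a continuous cocycle of the Galois group of `L` with values in `M`. -/
structure IsCocycle {L : IntermediateField K Ω} (c : (Ω ≃ₐ[L] Ω) → M) : Prop where
  mul : ∀ σ τ : Ω ≃ₐ[L] Ω, c (σ * τ) = c σ + actL σ (c τ)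
  cont : ∃ S : Set Ω, S.Finite ∧ ∀ σ : Ω ≃ₐ[L] Ω, (∀ x ∈ S, σ x = x) → c σ = 0

/-- The restriction of `c` to the set of the `σ` with the property `P` is a coboundary. -/
def IsBdOn {L : IntermediateField K Ω} (P : (Ω ≃ₐ[L] Ω) → Prop) (c : (Ω ≃ₐ[L] Ω) → M) : Prop :=
  ∃ m : M, ∀ σ : Ω ≃ₐ[L] Ω, P σ → c σ = actL σ m - m

/-- The class of `c` is trivial on the inertia groups of the finite places which have more than one
place above them in `k(x)`, `t = f(x)`. All the classes in `H¹(L, M)` which are locally trivial are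
among these. -/
def IsLocTriv (f : k[X]) {L : IntermediateField K Ω} (c : (Ω ≃ₐ[L] Ω) → M) : Prop :=
  ∀ (w : ValuationSubring Ω) (π : k[X]), IsPlace K w π → ¬ OneAbove f π →
    IsBdOn (fun σ : Ω ≃ₐ[L] Ω => InIne w (σ.restrictScalars K)) c

variable (k) in
/-- `σ` is in the Galois group of `k' L`, where `k'` is the algebraic closure of `k` in `Ω`: it fixes
`L` and the constants. -/
def InGeo (L : IntermediateField K Ω) (σ : Ω ≃ₐ[K] Ω) : Prop :=
  (∀ x ∈ L, σ x = x) ∧ ∀ x : Ω, IsConst k K x → σ x = x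

/-- `m` is killed by a power of `lam`. -/
def IsTors (lam : M →+ M) (m : M) : Prop := ∃ n : ℕ, lam^[n] m = 0

/-- The restriction of `c` to the Galois group of `k' L` is a continuous cocycle with values in the
group of the elements of `M` killed by a power of `lam`, its class is fixed by the Galois group of `L`,
and it is trivial in `H¹` with values in `M` of the inertia groups of the finite places which have more
than one place above them in `k(x)`, `t = f(x)`. All the elements fixed by the Galois group of `L` of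
the `lam`-primary Selmer group of `M` over `k' L` are classes of such cocycles. -/
structure IsInvSel (f : k[X]) (lam : M →+ M) (L : IntermediateField K Ω)
    (c : (Ω ≃ₐ[K] Ω) → M) : Prop where
  mul : ∀ σ τ : Ω ≃ₐ[K] Ω, InGeo k L σ → InGeo k L τ → c (σ * τ) = c σ + σ • c τ
  cont : ∃ S : Set Ω, S.Finite ∧ ∀ σ : Ω ≃ₐ[K] Ω, InGeo k L σ → (∀ x ∈ S, σ x = x) → c σ = 0
  tors : ∃ n : ℕ, ∀ σ : Ω ≃ₐ[K] Ω, InGeo k L σ → lam^[n] (c σ) = 0
  inv : ∀ τ : Ω ≃ₐ[K] Ω, (∀ x ∈ L, τ x = x) → ∃ m : M, IsTors lam m ∧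
    ∀ σ : Ω ≃ₐ[K] Ω, InGeo k L σ → τ • c (τ⁻¹ * σ * τ) - c σ = σ • m - m
  loc : ∀ (w : ValuationSubring Ω) (π : k[X]), IsPlace K w π → ¬ OneAbove f π →
    ∃ m : M, ∀ σ : Ω ≃ₐ[K] Ω, InGeo k L σ → InIne w σ → c σ = σ • m - m

/-- The map `lam` is bijective on `M(L)`; each class in `H¹(L, M)` which is killed by `lam` and trivial
on the inertia groups of the finite places with more than one place above them in `k(x)` is trivial;
and the classes in the `lam`-primary Selmer group of `M` over `k' L`, `k'` the algebraic closure of `k`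
in `Ω`, which are fixed by the Galois group of `L` are trivial. -/
structure Vanishes (f : k[X]) (lam : M →+ M) (L : IntermediateField K Ω) : Prop where
  div : ∀ m : M, FixedBy L m → ∃ m' : M, FixedBy L m' ∧ lam m' = m
  tors : ∀ m : M, FixedBy L m → lam m = 0 → m = 0
  sha : ∀ c : (Ω ≃ₐ[L] Ω) → M, IsCocycle c → IsBdOn (fun _ => True) (fun σ => lam (c σ)) →
    IsLocTriv f c → IsBdOn (fun _ => True) c
  sel : ∀ c : (Ω ≃ₐ[K] Ω) → M, IsInvSel f lam L c →
    ∃ m : M, IsTors lam m ∧ ∀ σ : Ω ≃ₐ[K] Ω, InGeo k L σ → c σ = σ • m - m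

end

end Run7.h615.EP
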