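import Pool.Agent.Run7.h615.EP.Lc
import Pool.Agent.Run7.h615.EP.Defm

set_option autoImplicit false

/-!
Kummer extensions of exponent `ℓ` which are unramified where needed.
-/

namespace Run7.h615.EP

open Polynomial

section

variable {k K Ω : Type} [Field k] [Field K] [Algebra k[X] K] [Field Ω] [Algebra K Ω]

theorem ku [IsFractionRing k[X] K] {ℓ : ℕ} (hℓ : ℓ.Prime) {ζ : k} (hζ : IsPrimitiveRoot ζ ℓ) {s : Ω}
    {d : k[X]} (hd : d ≠ 0) (hs : s ^ ℓ = pol K Ω d) (σ : Ω ≃ₐ[K] Ω) :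
    ∃ i, σ s = con k K Ω (ζ ^ i) * s := by
  have hs0 : s ≠ 0 := by
    rintro rfl
    rw [zero_pow hℓ.ne_zero] at hs
    exact pol_ne hd hs.symm
  have h1 : (σ s / s) ^ ℓ = 1 := by
    rw [div_pow, ← map_pow, hs]
    have : σ (pol K Ω d) = pol K Ω d := σ.commutes _
    rw [this]
    exact div_self (pol_ne hd)
  have hne : NeZero ℓ := ⟨hℓ.ne_zero⟩
  obtain ⟨i, -, hi⟩ := (hζ.map_of_injective (con k K Ω).injective).eq_pow_of_pow_eq_one h1
  refine ⟨i, ?_⟩
  rw [map_pow, hi, div_mul_cancel₀ _ hs0]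

theorem ku_pow {ζ : k} {i : ℕ} {s : Ω} {σ : Ω ≃ₐ[K] Ω} (h : σ s = con k K Ω (ζ ^ i) * s) (j : ℕ) :
    (σ ^ j) s = con k K Ω (ζ ^ i) ^ j * s := by
  induction j with
  | zero => rw [pow_zero, pow_zero, one_mul]; rfl
  | succ j ih =>
    rw [pow_succ']
    show σ ((σ ^ j) s) = _
    rw [ih, map_mul, map_pow, h]
    have : σ (con k K Ω (ζ ^ i)) = con k K Ω (ζ ^ i) := σ.commutes _
    rw [this, pow_succ]
    ring

theorem fix_adjoin {S : Set Ω} {τ : Ω ≃ₐ[K] Ω} (h : ∀ s ∈ S, τ s = s) {x : Ω}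
    (hx : x ∈ IntermediateField.adjoin K S) : τ x = x := by
  induction hx using IntermediateField.adjoin_induction with
  | mem x hx => exact h x hx
  | algebraMap x => exact τ.commutes x
  | add x y _ _ hx hy => rw [map_add, hx, hy]
  | inv x _ hx => rw [map_inv₀, hx]
  | mul x y _ _ hx hy => rw [map_mul, hx, hy]

theorem kummer_ext [IsFractionRing k[X] K] [IsSepClosure K Ω] {ℓ : ℕ} (hℓ : ℓ.Prime) {ζ : k}
    (hζ : IsPrimitiveRoot ζ ℓ) (f : k[X]) {S : Set Ω} (hS : S.Finite)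
    (hd : ∀ s ∈ S, ∃ d : k[X], d ≠ 0 ∧ s ^ ℓ = pol K Ω d ∧
      ∀ π : k[X], Irreducible π → π ∣ d → OneAbove f π) :
    FiniteDimensional K (IntermediateField.adjoin K S) ∧ IsGalois K (IntermediateField.adjoin K S) ∧
      (∃ j, Module.finrank K (IntermediateField.adjoin K S) = ℓ ^ j) ∧
      IsUnram f (IntermediateField.adjoin K S) := by
  have hgal : IsGalois K Ω := IsSepClosure.isGalois
  have hSf : Finite S := hS
  have hfin : FiniteDimensional K (IntermediateField.adjoin K S) :=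
    IntermediateField.finiteDimensional_adjoin fun x _ => Algebra.IsIntegral.isIntegral x
  have hn : Normal K (IntermediateField.adjoin K S) := by
    rw [IntermediateField.normal_iff_forall_map_le']
    intro σ
    rw [IntermediateField.adjoin_map, IntermediateField.adjoin_le_iff]
    rintro _ ⟨s, hs, rfl⟩
    obtain ⟨d, hd0, hsd, -⟩ := hd s hs
    obtain ⟨i, hi⟩ := ku hℓ hζ hd0 hsd σ
    show σ s ∈ IntermediateField.adjoin K S
    rw [hi]
    exact mul_mem (IntermediateField.algebraMap_mem _ (algebraMap k[X] K (C (ζ ^ i))))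
      (IntermediateField.subset_adjoin K S hs)
  have hsep : Algebra.IsSeparable K (IntermediateField.adjoin K S) := inferInstance
  have hg : IsGalois K (IntermediateField.adjoin K S) := ⟨⟩
  refine ⟨hfin, hg, ?_, ?_⟩
  · have : Fact ℓ.Prime := ⟨hℓ⟩
    rw [← IsGalois.card_aut_eq_finrank]
    apply IsPGroup.iff_card.1
    intro g
    obtain ⟨σ, rfl⟩ := AlgEquiv.restrictNormalHom_surjective (F := K)
      (K₁ := IntermediateField.adjoin K S) Ω g
    refine ⟨1, ?_⟩
    rw [pow_one, ← map_pow]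
    ext x
    rw [AlgEquiv.one_apply, AlgEquiv.restrictNormalHom_apply]
    apply fix_adjoin (τ := σ ^ ℓ) (S := S) _ x.2
    intro s hs
    obtain ⟨d, hd0, hsd, -⟩ := hd s hs
    obtain ⟨i, hi⟩ := ku hℓ hζ hd0 hsd σ
    rw [ku_pow hi, ← map_pow, ← pow_mul, mul_comm i, pow_mul, hζ.pow_eq_one, one_pow, map_one,
      one_mul]
  · intro w π hw hπ σ hσ x hx
    apply fix_adjoin (τ := σ) (S := S) _ hx
    intro s hs
    obtain ⟨d, hd0, hsd, hdπ⟩ := hd s hs
    obtain ⟨i, hi⟩ := ku hℓ hζ hd0 hsd σ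
    have h1 : w.valuation (pol K Ω d) = 1 :=
      le_antisymm ((w.valuation_le_one_iff _).2 (hw.mem d))
        (not_lt.1 fun h => hπ (hdπ π hw.irr ((hw.center d).1 h)))
    have h2 : w.valuation s = 1 := by
      rw [← hsd, map_pow] at h1
      exact (pow_eq_one_iff_of_nonneg zero_le hℓ.ne_zero).1 h1
    have h3 := hσ.2 s ((w.valuation_le_one_iff _).1 h2.le)
    by_contra hne
    have h4 : ζ ^ i - 1 ≠ 0 := by
      intro h4
      apply hne
      rw [hi, sub_eq_zero.1 h4, map_one, one_mul]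
    have e : σ s - s = con k K Ω (ζ ^ i - 1) * s := by
      rw [hi, map_sub, map_one]; ring
    rw [e, map_mul, con_eq_one hw h4, h2, one_mul] at h3
    exact lt_irrefl _ h3

end

end Run7.h615.EP
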