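import Mathlib

set_option autoImplicit false

/-!
Definitions: places, inertia groups, the roots of `f(x) = t`, unramified extensions.

`K` is the field `k(t)`, the fraction field of `k[X]`, where `X` is written for `t`, and `Ω` is an
extension of `K`, in the theorem a separable closure.
-/

namespace Run7.h615.EP

open Polynomial

section

variable {k K Ω : Type} [Field k] [Field K] [Algebra k[X] K] [Field Ω] [Algebra K Ω]

variable (K Ω) in
/-- The polynomial `g(t)` as an element of `Ω ⊇ K = k(t)`. -/
noncomputable def pol (g : k[X]) : Ω := algebraMap K Ω (algebraMap k[X] K g)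

variable (k K Ω) in
/-- The map `pol` as a ring homomorphism. -/
noncomputable def polH : k[X] →+* Ω := (algebraMap K Ω).comp (algebraMap k[X] K)

variable (k K Ω) in
/-- The inclusion of the constants. -/
noncomputable def con : k →+* Ω := (polH k K Ω).comp (C : k →+* k[X])

variable (k K) in
/-- `x` is algebraic over the field `k` of constants. -/
def IsConst (x : Ω) : Prop := ∃ g : k[X], g ≠ 0 ∧ g.eval₂ (con k K Ω) x = 0

variable (K) in
/-- `f(x) = t` -/
def IsRt (f : k[X]) (x : Ω) : Prop := f.eval₂ (con k K Ω) x = pol K Ω (X : k[X])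

variable (K) in
/-- `w` is the valuation ring of a place of `Ω` above the place `π` of `k(t)`, where `π` is an
irreducible polynomial. -/
structure IsPlace (w : ValuationSubring Ω) (π : k[X]) : Prop where
  irr : Irreducible π
  mem : ∀ g : k[X], pol K Ω g ∈ w
  center : ∀ g : k[X], w.valuation (pol K Ω g) < 1 ↔ π ∣ g

/-- `σ` is in the decomposition group of the place `w`. -/
def InDec (w : ValuationSubring Ω) (σ : Ω ≃ₐ[K] Ω) : Prop := ∀ a, a ∈ w ↔ σ a ∈ w

/-- `σ` is in the inertia group of the place `w`: it fixes `w` and acts trivially on the residue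
field. -/
def InIne (w : ValuationSubring Ω) (σ : Ω ≃ₐ[K] Ω) : Prop :=
  (∀ a, a ∈ w ↔ σ a ∈ w) ∧ ∀ a ∈ w, w.valuation (σ a - a) < 1

/-- The place `π` of `k(t)` has only one place above it in `k(x)`, where `t = f(x)`: the polynomial
`π(f(x))` is a constant times a power of an irreducible polynomial. -/
def OneAbove (f π : k[X]) : Prop :=
  ∃ (c : k) (ρ : k[X]) (e : ℕ), c ≠ 0 ∧ Irreducible ρ ∧ π.comp f = C c * ρ ^ e

/-- `L` is unramified at the finite places of `K = k(t)` which have more than one place above them
in `k(x)`, `t = f(x)`: the inertia groups of these places act trivially on `L`. -/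
def IsUnram (f : k[X]) (L : IntermediateField K Ω) : Prop :=
  ∀ (w : ValuationSubring Ω) (π : k[X]), IsPlace K w π → ¬ OneAbove f π →
    ∀ σ : Ω ≃ₐ[K] Ω, InIne w σ → ∀ x ∈ L, σ x = x

end

end Run7.h615.EP
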