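import Mathlib

set_option autoImplicit false

/-!
Continuous homomorphisms from a Galois group to `ZMod ℓ` are given by roots.
-/

namespace Run7.h615.EP

open groupCohomology

theorem pow_val {M : Type} [Monoid M] {ζ : M} {n : ℕ} [NeZero n] (h : ζ ^ n = 1) (a b : ZMod n) :
    ζ ^ (a + b).val = ζ ^ a.val * ζ ^ b.val := by
  rw [ZMod.val_add, ← pow_add]
  conv_rhs => rw [← Nat.mod_add_div (a.val + b.val) n, pow_add, pow_mul, h, one_pow, mul_one]

theorem kummer {C Ω : Type} [Field C] [Field Ω] [Algebra C Ω] [IsGalois C Ω] {ℓ : ℕ}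
    [NeZero ℓ] (ζ : C) (hζ : ζ ^ ℓ = 1) (χ : (Ω ≃ₐ[C] Ω) → ZMod ℓ)
    (hχ : ∀ σ τ, χ (σ * τ) = χ σ + χ τ) (E : IntermediateField C Ω) [FiniteDimensional C E]
    (hE : ∀ σ : Ω ≃ₐ[C] Ω, (∀ x ∈ E, σ x = x) → χ σ = 0) :
    ∃ s : Ω, s ≠ 0 ∧ ∀ σ, σ s = algebraMap C Ω ζ ^ (χ σ).val * s := by
  let M : IntermediateField C Ω := IntermediateField.normalClosure C E Ω
  have hEM : E ≤ M := IntermediateField.le_normalClosure E
  have hfd : FiniteDimensional C M := normalClosure.is_finiteDimensional C E Ω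
  have hnm : Normal C M := normalClosure.normal C E Ω
  have h0 : ∀ σ : Ω ≃ₐ[C] Ω, (∀ x ∈ M, σ x = x) → χ σ = 0 := fun σ h =>
    hE σ fun x hx => h x (hEM hx)
  have hres := AlgEquiv.restrictNormalHom_surjective (F := C) (K₁ := M) Ω
  choose lf hlf using hres
  have hcomm : ∀ (γ : M ≃ₐ[C] M) (x : M), lf γ (x : Ω) = ((γ x : M) : Ω) := by
    intro γ x
    conv_rhs => rw [← hlf γ]
    exact (AlgEquiv.restrictNormal_commutes (lf γ) M x).symm
  have hχ1 : χ 1 = 0 := by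
    have := hχ 1 1
    rw [mul_one] at this
    simpa using this
  have hχi : ∀ σ, χ σ⁻¹ = - χ σ := by
    intro σ
    have := hχ σ σ⁻¹
    rw [mul_inv_cancel, hχ1] at this
    exact (neg_eq_of_add_eq_zero_right this.symm).symm
  have hind : ∀ σ τ : Ω ≃ₐ[C] Ω, (∀ x ∈ M, σ x = τ x) → χ σ = χ τ := by
    intro σ τ h
    have h1 : χ (τ⁻¹ * σ) = 0 := h0 _ fun x hx => by
      show τ⁻¹ (σ x) = x
      rw [h x hx]
      exact AlgEquiv.symm_apply_apply τ x
    rw [hχ, hχi] at h1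
    linear_combination h1
  have hζM : algebraMap C M ζ ^ ℓ = 1 := by rw [← map_pow, hζ, map_one]
  have hζ0 : algebraMap C M ζ ≠ 0 := by
    intro h
    rw [h, zero_pow (NeZero.ne ℓ)] at hζM
    exact zero_ne_one hζM
  let f : Gal(M/C) → Mˣ := fun γ => Units.mk0 (algebraMap C M ζ ^ (χ (lf γ)).val) (pow_ne_zero _ hζ0)
  have hf : IsMulCocycle₁ f := by
    intro γ δ
    have h1 : χ (lf (γ * δ)) = χ (lf δ) + χ (lf γ) := by
      rw [add_comm, ← hχ]
      apply hind
      intro x hx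
      rw [hcomm (γ * δ) ⟨x, hx⟩]
      show _ = lf γ (lf δ x)
      rw [hcomm δ ⟨x, hx⟩, hcomm γ]
      rfl
    apply Units.ext
    show algebraMap C M ζ ^ (χ (lf (γ * δ))).val = _
    rw [h1, pow_val hζM]
    show _ = ((γ • f δ : Mˣ) : M) * (f γ : M)
    congr 1
    show _ = γ ((f δ : Mˣ) : M)
    show _ = γ (algebraMap C M ζ ^ (χ (lf δ)).val)
    rw [map_pow, AlgEquiv.commutes]
  obtain ⟨β, hβ⟩ := isMulCoboundary₁_of_isMulCocycle₁_of_aut_to_units f hf
  refine ⟨((β : M) : Ω), ?_, ?_⟩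
  · rw [ne_eq, ZeroMemClass.coe_eq_zero]
    exact β.ne_zero
  · intro σ
    let γ := AlgEquiv.restrictNormalHom M σ
    have h1 : σ ((β : M) : Ω) = ((γ (β : M) : M) : Ω) :=
      (AlgEquiv.restrictNormal_commutes σ M β).symm
    have h2 : χ (lf γ) = χ σ := by
      apply hind
      intro x hx
      rw [hcomm γ ⟨x, hx⟩]
      exact AlgEquiv.restrictNormal_commutes σ M ⟨x, hx⟩
    have h3 : γ (β : M) = algebraMap C M ζ ^ (χ σ).val * β := by
      have h4 := congrArg (Units.val) (hβ γ)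
      rw [← h2]
      have h5 : γ (β : M) / (β : M) = algebraMap C M ζ ^ (χ (lf γ)).val := by
        have h6 : ((γ • β / β : Mˣ) : M) = γ (β : M) / (β : M) := by
          rw [Units.val_div_eq_div_val]; rfl
        rw [← h6]
        exact h4
      rw [div_eq_iff β.ne_zero] at h5
      exact h5
    rw [h1, h3]
    rfl

end Run7.h615.EP
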