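import Mathlib

set_option autoImplicit false

/-!
Polynomials in `x` whose prime factors with multiplicity prime to `ℓ` are the only ones above their
restriction to `k[t]`, `t = f(x)`, come from `k[t]` modulo `ℓ`-th powers.
-/

namespace Run7.h615.EP

open Polynomial

variable {k : Type} [Field k]

/-- `ρ` is, up to multiplicity and constants, the polynomial `π(f)` for an irreducible `π`. -/
def GoodR (f ρ : k[X]) : Prop :=
  ∃ (π : k[X]) (c : k) (e : ℕ), Irreducible π ∧ c ≠ 0 ∧ π.comp f = C c * ρ ^ e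

theorem good_dvd {f π ρ : k[X]} {c : k} {e : ℕ} (hπ : Irreducible π) (hρ : Irreducible ρ)
    (hc : c ≠ 0) (h : π.comp f = C c * ρ ^ e) (hf : f.natDegree ≠ 0) : e ∣ f.natDegree := by
  have hdeg : π.natDegree * f.natDegree = e * ρ.natDegree := by
    rw [← natDegree_comp, h, natDegree_C_mul hc, natDegree_pow]
  have hπ1 : 0 < π.natDegree := hπ.natDegree_pos
  have he : e ≠ 0 := by
    rintro rfl
    rw [zero_mul] at hdeg
    exact (Nat.mul_ne_zero hπ1.ne' hf) hdeg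
  have : Fact (Irreducible π) := ⟨hπ⟩
  have : Fact (Irreducible ρ) := ⟨hρ⟩
  have hroot : (π.comp f).eval₂ (algebraMap k (AdjoinRoot ρ)) (AdjoinRoot.root ρ) = 0 := by
    rw [h, eval₂_mul, eval₂_pow]
    have : ρ.eval₂ (algebraMap k (AdjoinRoot ρ)) (AdjoinRoot.root ρ) = 0 := AdjoinRoot.eval₂_root ρ
    rw [this, zero_pow he, mul_zero]
  let φ : AdjoinRoot π →ₐ[k] AdjoinRoot ρ := AdjoinRoot.liftAlgHom π (Algebra.ofId k _)
    (aeval (AdjoinRoot.root ρ) f) (by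
      have h1 : (aeval (aeval (AdjoinRoot.root ρ) f) π : AdjoinRoot ρ) = 0 := by
        rw [← aeval_comp]
        exact hroot
      exact h1)
  let _ : Algebra (AdjoinRoot π) (AdjoinRoot ρ) := φ.toRingHom.toAlgebra
  have ht : IsScalarTower k (AdjoinRoot π) (AdjoinRoot ρ) := .of_algebraMap_eq fun x =>
    (φ.commutes x).symm
  have h1 : Module.finrank k (AdjoinRoot π) = π.natDegree := by
    rw [(AdjoinRoot.powerBasis hπ.ne_zero).finrank, AdjoinRoot.powerBasis_dim]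
  have h2 : Module.finrank k (AdjoinRoot ρ) = ρ.natDegree := by
    rw [(AdjoinRoot.powerBasis hρ.ne_zero).finrank, AdjoinRoot.powerBasis_dim]
  have h3 := Module.finrank_mul_finrank k (AdjoinRoot π) (AdjoinRoot ρ)
  rw [h1, h2] at h3
  rw [← h3] at hdeg
  refine ⟨Module.finrank (AdjoinRoot π) (AdjoinRoot ρ), ?_⟩
  have h4 : π.natDegree * f.natDegree =
      π.natDegree * (e * Module.finrank (AdjoinRoot π) (AdjoinRoot ρ)) := by rw [hdeg]; ring
  exact Nat.eq_of_mul_eq_mul_left hπ1 h4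

variable {F : Type} [Field F] [Algebra k[X] F]

variable (F) in
/-- `g` is `a(f)` times an `ℓ`-th power -/
def Zm (f : k[X]) (ℓ : ℕ) (g : k[X]) : Prop :=
  ∃ (a : k[X]) (y : F), a ≠ 0 ∧ y ≠ 0 ∧
    algebraMap k[X] F g = algebraMap k[X] F (a.comp f) * y ^ ℓ

theorem zm_C (f : k[X]) (ℓ : ℕ) {c : k} (hc : c ≠ 0) : Zm F f ℓ (C c) :=
  ⟨C c, 1, C_ne_zero.2 hc, one_ne_zero, by rw [C_comp, one_pow, mul_one]⟩

theorem zm_mul {f : k[X]} {ℓ : ℕ} {g h : k[X]} (hg : Zm F f ℓ g) (hh : Zm F f ℓ h) :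
    Zm F f ℓ (g * h) := by
  obtain ⟨a, y, ha, hy, e1⟩ := hg
  obtain ⟨b, z, hb, hz, e2⟩ := hh
  refine ⟨a * b, y * z, mul_ne_zero ha hb, mul_ne_zero hy hz, ?_⟩
  rw [map_mul, e1, e2, mul_comp, map_mul]
  ring

theorem zm_pow {f : k[X]} {ℓ : ℕ} {g : k[X]} (hg : Zm F f ℓ g) (n : ℕ) : Zm F f ℓ (g ^ n) := by
  induction n with
  | zero => rw [pow_zero, ← C_1]; exact zm_C f ℓ one_ne_zero
  | succ n ih => rw [pow_succ]; exact zm_mul ih hg

variable [IsFractionRing k[X] F]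

theorem inj : Function.Injective (algebraMap k[X] F) := IsFractionRing.injective k[X] F

theorem ne_zero {g : k[X]} (hg : g ≠ 0) : algebraMap k[X] F g ≠ 0 := by
  rw [ne_eq, map_eq_zero_iff _ inj]; exact hg

theorem zm_lpow {f : k[X]} {ℓ : ℕ} {g : k[X]} (hg : g ≠ 0) (n : ℕ) : Zm F f ℓ (g ^ (ℓ * n)) :=
  ⟨1, algebraMap k[X] F (g ^ n), one_ne_zero, ne_zero (pow_ne_zero _ hg), by
    rw [one_comp, map_one, one_mul, ← map_pow, ← pow_mul, mul_comm n]⟩

theorem zm_good {f : k[X]} {ℓ : ℕ} [hℓ : Fact ℓ.Prime] (hd : ¬ ℓ ∣ f.natDegree) {ρ : k[X]}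
    (hρ : Irreducible ρ) (h : GoodR f ρ) : Zm F f ℓ ρ := by
  obtain ⟨π, c, e, hπ, hc, he⟩ := h
  have hf : f.natDegree ≠ 0 := by
    intro h0
    rw [h0] at hd
    exact hd (dvd_zero ℓ)
  have hcop : Nat.Coprime e ℓ := by
    rw [Nat.coprime_comm, hℓ.out.coprime_iff_not_dvd]
    exact fun h1 => hd (h1.trans (good_dvd hπ hρ hc he hf))
  obtain ⟨u, hu⟩ := Nat.exists_mul_mod_eq_one_of_coprime hcop hℓ.out.one_lt
  -- e * u = 1 + ℓ * m
  have hm : e * u = 1 + ℓ * (e * u / ℓ) := by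
    conv_lhs => rw [← Nat.mod_add_div (e * u) ℓ]
    rw [hu.2]
  set m := e * u / ℓ with hmdef
  have hρF : algebraMap k[X] F ρ ≠ 0 := ne_zero hρ.ne_zero
  refine ⟨C (c⁻¹ ^ u) * π ^ u, ((algebraMap k[X] F ρ) ^ m)⁻¹, ?_, inv_ne_zero (pow_ne_zero _ hρF), ?_⟩
  · exact mul_ne_zero (C_ne_zero.2 (pow_ne_zero _ (inv_ne_zero hc))) (pow_ne_zero _ hπ.ne_zero)
  · have h1 : (C (c⁻¹ ^ u) * π ^ u).comp f = ρ * ρ ^ (ℓ * m) := by
      rw [mul_comp, C_comp, pow_comp, he, mul_pow, ← C_pow, ← mul_assoc, ← C_mul, ← mul_pow,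
        inv_mul_cancel₀ hc, one_pow, C_1, one_mul, ← pow_mul, hm, pow_add, pow_one]
    rw [h1, map_mul, mul_assoc]
    have h2 : algebraMap k[X] F (ρ ^ (ℓ * m)) * ((algebraMap k[X] F ρ) ^ m)⁻¹ ^ ℓ = 1 := by
      rw [inv_pow, ← pow_mul, mul_comm m ℓ, map_pow]
      exact mul_inv_cancel₀ (pow_ne_zero _ hρF)
    rw [h2, mul_one]

theorem zm_all {f : k[X]} {ℓ : ℕ} [hℓ : Fact ℓ.Prime] (hd : ¬ ℓ ∣ f.natDegree) (g : k[X])
    (hg : g ≠ 0) (h : ∀ ρ : k[X], Irreducible ρ → ∀ (n : ℕ) (g' : k[X]), g = ρ ^ n * g' →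
      ¬ ρ ∣ g' → ¬ ℓ ∣ n → GoodR f ρ) : Zm F f ℓ g := by
  induction hn : g.natDegree using Nat.strong_induction_on generalizing g with
  | _ N ih =>
    by_cases hu : IsUnit g
    · obtain ⟨c, hc, rfl⟩ := Polynomial.isUnit_iff.1 hu
      exact zm_C f ℓ hc.ne_zero
    · obtain ⟨ρ, hρ, hρg⟩ := WfDvdMonoid.exists_irreducible_factor hu hg
      obtain ⟨g', hg1, hg2⟩ := (FiniteMultiplicity.of_not_isUnit hρ.not_isUnit hg).exists_eq_pow_mul_and_not_dvd
      set n := multiplicity ρ g with hndef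
      have hg'0 : g' ≠ 0 := by
        rintro rfl
        rw [mul_zero] at hg1
        exact hg hg1
      have hn0 : n ≠ 0 := by
        intro h0
        rw [h0, pow_zero, one_mul] at hg1
        rw [hg1] at hρg
        exact hg2 hρg
      have hlt : g'.natDegree < N := by
        rw [← hn, hg1, natDegree_mul (pow_ne_zero _ hρ.ne_zero) hg'0, natDegree_pow]
        have h1 := hρ.natDegree_pos
        have h2 : 0 < n * ρ.natDegree := Nat.mul_pos (Nat.pos_of_ne_zero hn0) h1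
        omega
      have h1 : Zm F f ℓ (ρ ^ n) := by
        by_cases hl : ℓ ∣ n
        · obtain ⟨m, hm⟩ := hl
          rw [hm]
          exact zm_lpow hρ.ne_zero m
        · exact zm_pow (zm_good hd hρ (h ρ hρ n g' hg1 hg2 hl)) n
      rw [hg1]
      refine zm_mul h1 (ih _ hlt g' hg'0 ?_ rfl)
      intro ρ' hρ' m g'' e1 e2 e3
      have hm0 : m ≠ 0 := by
        rintro rfl
        exact e3 (dvd_zero ℓ)
      have hρρ : ¬ ρ' ∣ ρ := by
        intro h3
        apply hg2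
        have h4 := hρ'.associated_of_dvd hρ h3
        rw [e1]
        exact (h4.symm.dvd.trans (dvd_pow_self ρ' hm0)).mul_right _
      refine h ρ' hρ' m (ρ ^ n * g'') (by rw [hg1, e1]; ring) ?_ e3
      intro h3
      rcases hρ'.prime.dvd_or_dvd h3 with h4 | h4
      · exact hρρ (hρ'.prime.dvd_of_dvd_pow h4)
      · exact e2 h4

end Run7.h615.EP
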