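import Pool.Agent.Run7.h615.EP.Ur
import Pool.Agent.Run7.h615.EP.Defs
import Pool.Agent.Run7.h615.EP.Km
import Pool.Agent.Run7.h615.EP.Zm
import Pool.Agent.H639R3.Z.Ext

set_option autoImplicit false

/-!
Characters of the Galois group of `k(x)` of order `ℓ` which are unramified outside the places which do
not split in `k(x) / k(f(x))` come from `k(f(x))`.
-/

namespace Run7.h615.EP

open Polynomial
open Pool.Agent.H639R3

theorem int_res {k : Type} [Field k] {ρ : k[X]} (hρ : ρ ≠ 0) :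
    Algebra.IsIntegral k (k[X] ⧸ Ideal.span {ρ}) := by
  have : Module.Finite k (AdjoinRoot ρ) := (AdjoinRoot.powerBasis hρ).finite
  exact inferInstanceAs (Algebra.IsIntegral k (AdjoinRoot ρ))

/-- every prime of `k[x]` is the center of a place of `Ω` -/
theorem exists_place {k F Ω : Type} [Field k] [Field F] [Algebra k[X] F] [IsFractionRing k[X] F]
    [Field Ω] [Algebra F Ω] {ρ : k[X]} (hρ : Irreducible ρ) : ∃ w : ValuationSubring Ω,
      (∀ g : k[X], algebraMap F Ω (algebraMap k[X] F g) ∈ w) ∧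
      ∀ g : k[X], w.valuation (algebraMap F Ω (algebraMap k[X] F g)) < 1 ↔ ρ ∣ g := by
  let v : IsDedekindDomain.HeightOneSpectrum k[X] := ⟨Ideal.span {ρ},
    (Ideal.span_singleton_prime hρ.ne_zero).2 hρ.prime, by
      rw [ne_eq, Ideal.span_singleton_eq_bot]; exact hρ.ne_zero⟩
  obtain ⟨O, hO, hO1, hO2⟩ := exists_of_height_one (F := F) v
  obtain ⟨w, hw⟩ := exists_extension (L := Ω) O
  refine ⟨w, fun g => ?_, fun g => ?_⟩
  · have := hO g
    rw [← hw] at this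
    exact this
  · rw [← comap_val_lt_one, hw, ← mem_cent O hO, hO2]
    exact Ideal.mem_span_singleton

theorem exists_ram {k F Ω : Type} [Field k] [PerfectField k] [Field F] [Algebra k[X] F]
    [IsFractionRing k[X] F] [Field Ω] [Algebra F Ω] [IsGalois F Ω] {ℓ : ℕ} [hℓ : Fact ℓ.Prime]
    {ρ : k[X]} (hρ : Irreducible ρ) (w : ValuationSubring Ω)
    (hw1 : ∀ g : k[X], algebraMap F Ω (algebraMap k[X] F g) ∈ w)
    (hw2 : ∀ g : k[X], w.valuation (algebraMap F Ω (algebraMap k[X] F g)) < 1 ↔ ρ ∣ g)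
    (s : Ω) (n : ℕ) (g' : k[X]) (hs : s ^ ℓ = algebraMap F Ω (algebraMap k[X] F (ρ ^ n * g')))
    (hg' : ¬ ρ ∣ g') (hn : ¬ ℓ ∣ n) : ∃ σ : Ω ≃ₐ[F] Ω, InIne w σ ∧ σ s ≠ s := by
  by_contra hcon
  push Not at hcon
  let _ : Algebra k[X] Ω := ((algebraMap F Ω).comp (algebraMap k[X] F)).toAlgebra
  have ht : IsScalarTower k[X] F Ω := .of_algebraMap_eq fun _ => rfl
  have hfin := int_res (k := k) hρ.ne_zero
  set e : k[X] → Ω := fun g => algebraMap F Ω (algebraMap k[X] F g) with he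
  have hmul : ∀ a b, e (a * b) = e a * e b := fun a b => by simp only [he, map_mul]
  have hpow : ∀ a (m : ℕ), e (a ^ m) = e a ^ m := fun a m => by simp only [he, map_pow]
  have hvρ : w.valuation (e ρ) < 1 := (hw2 ρ).2 dvd_rfl
  have hvρ0 : e ρ ≠ 0 := by
    simp only [he]
    rw [ne_eq, map_eq_zero]
    exact ne_zero hρ.ne_zero
  have hvg' : w.valuation (e g') = 1 :=
    le_antisymm ((w.valuation_le_one_iff _).2 (hw1 g')) (not_lt.1 fun h => hg' ((hw2 g').1 h))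
  have hcop : Nat.Coprime n ℓ := by
    rw [Nat.coprime_comm, hℓ.out.coprime_iff_not_dvd]
    exact hn
  obtain ⟨u, hu⟩ := Nat.exists_mul_mod_eq_one_of_coprime hcop hℓ.out.one_lt
  have hm : n * u = 1 + ℓ * (n * u / ℓ) := by
    conv_lhs => rw [← Nat.mod_add_div (n * u) ℓ]
    rw [hu.2]
  set m := n * u / ℓ with hmdef
  set y : Ω := s ^ u * (e ρ ^ m)⁻¹ with hy
  have hvs : w.valuation s ^ ℓ = w.valuation (e ρ) ^ n := by
    rw [← map_pow, hs]
    show w.valuation (e (ρ ^ n * g')) = _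
    rw [hmul, hpow, map_mul, map_pow, hvg', mul_one]
  have hvρ1 : w.valuation (e ρ) ≠ 0 := (_root_.map_ne_zero _).2 hvρ0
  have hvy : w.valuation y ^ ℓ = w.valuation (e ρ) := by
    rw [hy, map_mul, map_inv₀, map_pow, map_pow, mul_pow, inv_pow, ← pow_mul, ← pow_mul,
      mul_comm u ℓ, pow_mul, hvs, ← pow_mul, hm, mul_comm m ℓ, pow_add, pow_one, mul_assoc,
      mul_inv_cancel₀ (pow_ne_zero _ hvρ1), mul_one]
  have hy1 : w.valuation y < 1 := by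
    by_contra h
    rw [not_lt] at h
    have := one_le_pow₀ h (n := ℓ)
    rw [hvy] at this
    exact absurd hvρ (not_lt.2 this)
  have hfix : ∀ θ : Ω ≃ₐ[F] Ω, (∀ a, a ∈ w ↔ θ a ∈ w) →
      (∀ a ∈ w, w.valuation (θ a - a) < 1) → θ y = y := by
    intro θ h1 h2
    rw [hy, map_mul, map_inv₀, map_pow, map_pow, hcon θ ⟨h1, h2⟩]
    simp only [he, AlgEquiv.commutes]
  have h3 := unram k (K := F) (A := k[X]) w hw1 ρ hρ.ne_zero hw2 y hfix hy1
  have h4 : w.valuation (e ρ) ≤ w.valuation (e ρ) ^ 2 := by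
    calc w.valuation (e ρ) = w.valuation y ^ ℓ := hvy.symm
      _ ≤ w.valuation y ^ 2 := pow_le_pow_right_of_le_one' hy1.le hℓ.out.two_le
      _ ≤ w.valuation (e ρ) ^ 2 := pow_le_pow_left' h3 2
  have h5 : w.valuation (e ρ) ^ 2 < w.valuation (e ρ) := by
    rw [pow_two]
    exact mul_lt_of_lt_one_left (zero_lt_iff.2 hvρ1) hvρ
  exact absurd h4 (not_le.2 h5)

theorem al {k F Ω : Type} [Field k] [PerfectField k] [Field F] [Algebra k[X] F]
    [IsFractionRing k[X] F] [Field Ω] [Algebra F Ω] [IsGalois F Ω] (f : k[X]) {ℓ : ℕ}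
    [hℓ : Fact ℓ.Prime] (ζ : k) (hζ : ζ ^ ℓ = 1) (hd : ¬ ℓ ∣ f.natDegree)
    (χ : (Ω ≃ₐ[F] Ω) → ZMod ℓ) (hχ : ∀ σ τ, χ (σ * τ) = χ σ + χ τ)
    (E : IntermediateField F Ω) [FiniteDimensional F E]
    (hE : ∀ σ : Ω ≃ₐ[F] Ω, (∀ x ∈ E, σ x = x) → χ σ = 0)
    (hr : ∀ (w : ValuationSubring Ω) (ρ : k[X]), Irreducible ρ →
      (∀ g : k[X], algebraMap F Ω (algebraMap k[X] F g) ∈ w) →
      (∀ g : k[X], w.valuation (algebraMap F Ω (algebraMap k[X] F g)) < 1 ↔ ρ ∣ g) →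
      ¬ GoodR f ρ → ∀ σ : Ω ≃ₐ[F] Ω, InIne w σ → χ σ = 0) :
    ∃ (s : Ω) (a : k[X]), s ≠ 0 ∧ a ≠ 0 ∧
      s ^ ℓ = algebraMap F Ω (algebraMap k[X] F (a.comp f)) ∧
      ∀ σ, σ s = algebraMap F Ω (algebraMap k[X] F (C ζ)) ^ (χ σ).val * s := by
  obtain ⟨s1, hs10, hs1⟩ := kummer (algebraMap k[X] F (C ζ))
    (by rw [← map_pow, ← C_pow, hζ, C_1, map_one]) χ hχ E hE
  set z : Ω := algebraMap F Ω (algebraMap k[X] F (C ζ)) with hz
  have hzl : z ^ ℓ = 1 := by rw [hz, ← map_pow, ← map_pow, ← C_pow, hζ, C_1, map_one, map_one]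
  obtain ⟨z0, hz0⟩ := (InfiniteGalois.mem_range_algebraMap_iff_fixed (k := F) (K := Ω)
    (s1 ^ ℓ)).2 fun σ => by
      rw [map_pow, hs1, mul_pow, ← pow_mul, mul_comm _ ℓ, pow_mul, hzl, one_pow, one_mul]
  obtain ⟨a, b, hb, hab⟩ := IsFractionRing.div_surjective (A := k[X]) z0
  have hb0 : b ≠ 0 := nonZeroDivisors.ne_zero hb
  have hbF : algebraMap F Ω (algebraMap k[X] F b) ≠ 0 := by
    rw [ne_eq, map_eq_zero]; exact ne_zero hb0
  have hℓ1 : ℓ = (ℓ - 1) + 1 := (Nat.succ_pred_eq_of_pos hℓ.out.pos).symm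
  set s2 : Ω := s1 * algebraMap F Ω (algebraMap k[X] F b) with hs2
  have hs20 : s2 ≠ 0 := mul_ne_zero hs10 hbF
  have hs2l : s2 ^ ℓ = algebraMap F Ω (algebraMap k[X] F (a * b ^ (ℓ - 1))) := by
    rw [hs2, mul_pow, ← hz0, ← hab, map_div₀, map_mul, map_mul, map_pow, map_pow]
    conv_lhs => rw [hℓ1]
    rw [pow_succ]
    field_simp
  have hs2σ : ∀ σ : Ω ≃ₐ[F] Ω, σ s2 = z ^ (χ σ).val * s2 := by
    intro σ
    rw [hs2, map_mul, hs1, AlgEquiv.commutes]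
    ring
  have hg0 : a * b ^ (ℓ - 1) ≠ 0 := by
    intro h
    rw [h, map_zero, map_zero] at hs2l
    exact hs20 (pow_eq_zero_iff hℓ.out.ne_zero |>.1 hs2l)
  obtain ⟨a', y, ha', hy, hay⟩ := zm_all (F := F) hd (a * b ^ (ℓ - 1)) hg0 (by
    intro ρ hρ n g' h1 h2 h3
    by_contra hcon
    obtain ⟨w, hw1, hw2⟩ := exists_place (F := F) (Ω := Ω) hρ
    rw [h1] at hs2l
    obtain ⟨σ, hσ, hσs⟩ := exists_ram hρ w hw1 hw2 s2 n g' hs2l h2 h3
    apply hσs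
    rw [hs2σ, hr w ρ hρ hw1 hw2 hcon σ hσ, ZMod.val_zero, pow_zero, one_mul])
  have hyΩ : algebraMap F Ω y ≠ 0 := by rw [ne_eq, map_eq_zero]; exact hy
  refine ⟨s2 * (algebraMap F Ω y)⁻¹, a', mul_ne_zero hs20 (inv_ne_zero hyΩ), ha', ?_, ?_⟩
  · rw [mul_pow, hs2l, hay, map_mul, map_pow, inv_pow, mul_assoc,
      mul_inv_cancel₀ (pow_ne_zero _ hyΩ), mul_one]
  · intro σ
    rw [map_mul, hs2σ, map_inv₀, AlgEquiv.commutes]
    ring

end Run7.h615.EP
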