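import Pool.Agent.Run7.h615.EP.Fl
import Pool.Agent.Run7.h615.EP.Al

set_option autoImplicit false

/-!
Characters of the stabiliser of a root of `f(x) = t` extend if they are unramified outside the places
with one place above.
-/

namespace Run7.h615.EP

open Polynomial

section

variable {k K Ω : Type} [Field k] [Field K] [Algebra k[X] K] [Field Ω] [Algebra K Ω]

theorem mk_comp (ρ f g : k[X]) : AdjoinRoot.mk ρ (g.comp f) = aeval (AdjoinRoot.mk ρ f) g := by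
  rw [comp, hom_eval₂, aeval_def]
  rfl

theorem place_below [IsFractionRing k[X] K] {f ρ : k[X]} {α : Ω} (hα : IsRt K f α)
    (hρ : Irreducible ρ) (w : ValuationSubring Ω)
    (h1 : ∀ g : k[X], g.eval₂ (con k K Ω) α ∈ w)
    (h2 : ∀ g : k[X], w.valuation (g.eval₂ (con k K Ω) α) < 1 ↔ ρ ∣ g) (hG : ¬ GoodR f ρ) :
    ∃ π : k[X], IsPlace K w π ∧ ¬ OneAbove f π := by
  have : Fact (Irreducible ρ) := ⟨hρ⟩
  have hfd : Module.Finite k (AdjoinRoot ρ) := (AdjoinRoot.powerBasis hρ.ne_zero).finite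
  have hint : IsIntegral k (AdjoinRoot.mk ρ f) := Algebra.IsIntegral.isIntegral _
  have hdvd : ∀ g : k[X], minpoly k (AdjoinRoot.mk ρ f) ∣ g ↔ ρ ∣ g.comp f := by
    intro g
    rw [minpoly.dvd_iff, ← mk_comp, AdjoinRoot.mk_eq_zero]
  refine ⟨minpoly k (AdjoinRoot.mk ρ f), ⟨minpoly.irreducible hint, fun g => ?_, fun g => ?_⟩, ?_⟩
  · rw [← ev_comp hα]
    exact h1 _
  · rw [← ev_comp hα, h2, hdvd]
  · rintro ⟨c, ρ', e, hc, hρ', he⟩
    apply hG
    have h3 : ρ ∣ C c * ρ' ^ e := by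
      rw [← he, ← hdvd]
    have h4 : ρ ∣ ρ' := hρ.prime.dvd_of_dvd_pow
      (((isUnit_C.2 hc.isUnit).dvd_mul_left).1 h3)
    obtain ⟨u, hu⟩ := hρ.associated_of_dvd hρ' h4
    obtain ⟨c', hc', hu'⟩ := Polynomial.isUnit_iff.1 u.isUnit
    refine ⟨minpoly k (AdjoinRoot.mk ρ f), c * c' ^ e, e, minpoly.irreducible hint,
      mul_ne_zero hc (pow_ne_zero _ hc'.ne_zero), ?_⟩
    rw [he, ← hu, ← hu', mul_pow, C_mul, C_pow]
    ring

/-- an automorphism which fixes the root `α` is an automorphism over `k(α)` -/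
theorem fix_ph [IsFractionRing k[X] K] {f : k[X]} {α : Ω} (hα : IsRt K f α) (σ : Ω ≃ₐ[K] Ω)
    (hσ : σ α = α) (x : RatFunc k) : σ (ph hα x) = ph hα x := by
  have h : ((σ : Ω →+* Ω)).comp (ph hα) = ph hα := by
    apply IsLocalization.ringHom_ext (nonZeroDivisors k[X])
    apply Polynomial.ringHom_ext
    · intro a
      show σ (ph hα (algebraMap k[X] (RatFunc k) (C a))) = ph hα (algebraMap k[X] (RatFunc k) (C a))
      rw [ph_apply, eval₂_C]
      exact σ.commutes _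
    · show σ (ph hα (algebraMap k[X] (RatFunc k) X)) = ph hα (algebraMap k[X] (RatFunc k) X)
      rw [ph_apply, eval₂_X]
      exact hσ
  exact congrArg (fun g : RatFunc k →+* Ω => g x) h

theorem pow_val_inj {z : Ω} {ℓ : ℕ} [NeZero ℓ] (hz : IsPrimitiveRoot z ℓ) {a b : ZMod ℓ}
    (h : z ^ a.val = z ^ b.val) : a = b :=
  ZMod.val_injective ℓ (hz.pow_inj (ZMod.val_lt a) (ZMod.val_lt b) h)

theorem al_G [PerfectField k] [IsFractionRing k[X] K] [IsGalois K Ω] (f : k[X])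
    (hf : f.natDegree ≠ 0) {ℓ : ℕ} [hℓ : Fact ℓ.Prime] (ζ : k) (hζ : IsPrimitiveRoot ζ ℓ)
    (hd : ¬ ℓ ∣ f.natDegree) {α : Ω} (hα : IsRt K f α) (χ : (Ω ≃ₐ[K] Ω) → ZMod ℓ)
    (hχ : ∀ a b : Ω ≃ₐ[K] Ω, a α = α → b α = α → χ (a * b) = χ a + χ b) (S : Set Ω) [Finite S]
    (hS : ∀ σ : Ω ≃ₐ[K] Ω, (∀ x ∈ S, σ x = x) → σ α = α → χ σ = 0)
    (hr : ∀ (w : ValuationSubring Ω) (π : k[X]), IsPlace K w π → ¬ OneAbove f π →
      ∀ σ : Ω ≃ₐ[K] Ω, InIne w σ → σ α = α → χ σ = 0) :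
    ∃ ψ : (Ω ≃ₐ[K] Ω) → ZMod ℓ, (∀ a b, ψ (a * b) = ψ a + ψ b) ∧ ∀ a, a α = α → ψ a = χ a := by
  let _ : Algebra K (RatFunc k) := (kc K hf).toAlgebra
  let _ : Algebra (RatFunc k) Ω := (ph hα).toAlgebra
  have ht : IsScalarTower K (RatFunc k) Ω := .of_algebraMap_eq fun x =>
    (congrArg (fun h : K →+* Ω => h x) (ph_kc hf hα)).symm
  have hgal : IsGalois (RatFunc k) Ω := IsGalois.tower_top_of_isGalois K (RatFunc k) Ω
  have hα' : algebraMap (RatFunc k) Ω (algebraMap k[X] (RatFunc k) X) = α := by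
    show ph hα _ = α
    rw [ph_apply, eval₂_X]
  have hev : ∀ g : k[X], algebraMap (RatFunc k) Ω (algebraMap k[X] (RatFunc k) g) =
      g.eval₂ (con k K Ω) α := fun g => ph_apply hα g
  let rs : (Ω ≃ₐ[RatFunc k] Ω) → (Ω ≃ₐ[K] Ω) := fun σ => σ.restrictScalars K
  have hrsα : ∀ σ, rs σ α = α := by
    intro σ
    show σ α = α
    conv_lhs => rw [← hα']
    rw [σ.commutes, hα']
  let χ' : (Ω ≃ₐ[RatFunc k] Ω) → ZMod ℓ := fun σ => χ (rs σ)
  have hχ' : ∀ σ τ, χ' (σ * τ) = χ' σ + χ' τ := fun σ τ => hχ (rs σ) (rs τ) (hrsα σ) (hrsα τ)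
  let E := IntermediateField.adjoin (RatFunc k) S
  have hEfd : FiniteDimensional (RatFunc k) E :=
    IntermediateField.finiteDimensional_adjoin fun x _ => Algebra.IsIntegral.isIntegral x
  have hE : ∀ σ : Ω ≃ₐ[RatFunc k] Ω, (∀ x ∈ E, σ x = x) → χ' σ = 0 := fun σ hσ =>
    hS (rs σ) (fun x hx => hσ x (IntermediateField.subset_adjoin _ _ hx)) (hrsα σ)
  obtain ⟨s, a, hs0, ha0, hsl, hsσ⟩ := al f ζ hζ.pow_eq_one hd χ' hχ' E hE (by
    intro w ρ hρ h1 h2 h3 σ hσ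
    obtain ⟨π, hπ, hπ'⟩ := place_below hα hρ w (fun g => by rw [← hev]; exact h1 g)
      (fun g => by rw [← hev]; exact h2 g) h3
    exact hr w π hπ hπ' (rs σ) hσ (hrsα σ))
  rw [hev, ev_comp hα] at hsl
  have hz : algebraMap (RatFunc k) Ω (algebraMap k[X] (RatFunc k) (C ζ)) = con k K Ω ζ := by
    rw [hev, eval₂_C]
  rw [hz] at hsσ
  have hprim : IsPrimitiveRoot (con k K Ω ζ) ℓ := hζ.map_of_injective (con k K Ω).injective
  set z : Ω := con k K Ω ζ with hzdef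
  have hzσ : ∀ σ : Ω ≃ₐ[K] Ω, σ z = z := fun σ => σ.commutes _
  have key : ∀ σ : Ω ≃ₐ[K] Ω, ∃ b : ZMod ℓ, σ s = z ^ b.val * s := by
    intro σ
    have h1 : (σ s / s) ^ ℓ = 1 := by
      rw [div_pow, ← map_pow, hsl]
      have : σ (pol K Ω a) = pol K Ω a := σ.commutes _
      rw [this, div_self]
      rw [← hsl]
      exact pow_ne_zero _ hs0
    obtain ⟨i, hi, hi2⟩ := hprim.eq_pow_of_pow_eq_one h1
    refine ⟨(i : ZMod ℓ), ?_⟩
    rw [ZMod.val_natCast_of_lt hi, hi2, div_mul_cancel₀ _ hs0]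
  choose ψ hψ using key
  refine ⟨ψ, ?_, ?_⟩
  · intro σ τ
    apply pow_val_inj hprim
    have h1 := hψ (σ * τ)
    have h2 : (σ * τ) s = z ^ (ψ τ).val * (z ^ (ψ σ).val * s) := by
      show σ (τ s) = _
      rw [hψ τ, map_mul, map_pow, hzσ, hψ σ]
    rw [h2, ← mul_assoc] at h1
    have h3 := mul_right_cancel₀ hs0 h1
    rw [← h3, pow_val hprim.pow_eq_one, mul_comm]
  · intro σ hσ
    apply pow_val_inj hprim
    let σ' : Ω ≃ₐ[RatFunc k] Ω := { σ with commutes' := fun x => fix_ph hα σ hσ x }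
    have h1 : σ' s = z ^ (χ' σ').val * s := hsσ σ'
    have h2 : rs σ' = σ := by ext x; rfl
    have h3 : χ' σ' = χ σ := by show χ (rs σ') = χ σ; rw [h2]
    rw [h3] at h1
    have h4 : σ' s = σ s := rfl
    rw [h4, hψ σ] at h1
    exact mul_right_cancel₀ hs0 h1

end

end Run7.h615.EP
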