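import Pool.Agent.Run7.h615.EP.Defm

set_option autoImplicit false

/-!
Definitions: the elliptic curve `y² = x³ + a x² + b x + c - t` over `K = k(t)` and its points.
-/

namespace Run7.h615.EP

open Polynomial

section

variable {k : Type} [Field k]

/-- The polynomial `x³ + a x² + b x + c`. -/
noncomputable def cub (a b c : k) : k[X] := X ^ 3 + C a * X ^ 2 + C b * X + C c

variable (K Ω : Type) [Field K] [Algebra k[X] K] [Field Ω] [Algebra K Ω]

/-- The curve `y² = x³ + a x² + b x + c - t` over `K = k(t)`. -/
noncomputable def crv (a b c : k) : WeierstrassCurve.Affine K where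
  a₁ := 0
  a₂ := algebraMap k[X] K (C a)
  a₃ := 0
  a₄ := algebraMap k[X] K (C b)
  a₆ := algebraMap k[X] K (C c - X)

/-- The points of the curve with coordinates in `Ω`. -/
abbrev Pts (a b c : k) : Type := (WeierstrassCurve.Affine.baseChange (crv K a b c) Ω).Point

/-- The Galois group acts on the points. -/
noncomputable instance actPts [DecidableEq Ω] (a b c : k) :
    DistribMulAction (Ω ≃ₐ[K] Ω) (Pts K Ω a b c) where
  smul σ P := WeierstrassCurve.Affine.Point.map (W' := crv K a b c) (σ : Ω →ₐ[K] Ω) P
  one_smul P := by cases P <;> rfl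
  mul_smul σ τ P := by cases P <;> rfl
  smul_zero σ := rfl
  smul_add σ P Q := map_add _ P Q

/-- Multiplication by two on the points. -/
noncomputable def mulTwo [DecidableEq Ω] (a b c : k) : Pts K Ω a b c →+ Pts K Ω a b c :=
  nsmulAddMonoidHom 2

end

end Run7.h615.EP
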