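import Mathlib

set_option autoImplicit false

/-!
Elliptic curves `y² = (x - α) (x - β) (x - γ)`: points of order two and halving.
-/

namespace Run7.h615.EP

open WeierstrassCurve

/-- `V` is the curve `y² = (x - α) (x - β) (x - γ)` -/
structure IsF2 {F : Type} [Field F] (V : Affine F) (α β γ : F) : Prop where
  two : (2 : F) ≠ 0
  a1 : V.a₁ = 0
  a3 : V.a₃ = 0
  a2 : V.a₂ = -(α + β + γ)
  a4 : V.a₄ = α * β + β * γ + γ * α
  a6 : V.a₆ = -(α * β * γ)
  h1 : α ≠ β
  h2 : β ≠ γ
  h3 : γ ≠ α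

section

variable {F : Type} [Field F] {V : Affine F} {α β γ : F}

theorem IsF2.eqn (h : IsF2 V α β γ) (x y : F) :
    V.Equation x y ↔ y ^ 2 = (x - α) * (x - β) * (x - γ) := by
  rw [Affine.equation_iff, h.a1, h.a3, h.a2, h.a4, h.a6]
  constructor
  · intro e; linear_combination e
  · intro e; linear_combination e

theorem IsF2.negY (h : IsF2 V α β γ) (x y : F) : V.negY x y = -y := by
  rw [Affine.negY, h.a1, h.a3]; ring

theorem IsF2.nons (h : IsF2 V α β γ) {x y : F} (e : V.Equation x y) : V.Nonsingular x y := by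
  rw [Affine.nonsingular_iff]
  refine ⟨e, ?_⟩
  rw [h.a1, h.a3, h.a2, h.a4]
  by_contra hcon
  push Not at hcon
  obtain ⟨h1, h2⟩ := hcon
  have hy : y = 0 := by
    have : 2 * y = 0 := by linear_combination h2
    exact (mul_eq_zero.1 this).resolve_left h.two
  rw [h.eqn, hy] at e
  have e' : (x - α) * (x - β) * (x - γ) = 0 := by rw [← e]; ring
  have hd : (x - α) * (x - β) + (x - β) * (x - γ) + (x - α) * (x - γ) = 0 := by
    linear_combination -h1
  rcases mul_eq_zero.1 e' with e1 | e1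
  · rcases mul_eq_zero.1 e1 with e2 | e2
    · have hx : x = α := sub_eq_zero.1 e2
      rw [hx, sub_self, zero_mul, zero_mul, zero_add, add_zero] at hd
      rcases mul_eq_zero.1 hd with e3 | e3
      · exact h.h1 (sub_eq_zero.1 e3)
      · exact h.h3 (sub_eq_zero.1 e3).symm
    · have hx : x = β := sub_eq_zero.1 e2
      rw [hx, sub_self, mul_zero, zero_mul, zero_add, zero_add] at hd
      rcases mul_eq_zero.1 hd with e3 | e3
      · exact h.h1 (sub_eq_zero.1 e3).symm
      · exact h.h2 (sub_eq_zero.1 e3)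
  · have hx : x = γ := sub_eq_zero.1 e1
    rw [hx, sub_self, mul_zero, mul_zero, add_zero, add_zero] at hd
    rcases mul_eq_zero.1 hd with e3 | e3
    · exact h.h3 (sub_eq_zero.1 e3)
    · exact h.h2 (sub_eq_zero.1 e3).symm

variable [DecidableEq F]

theorem some_ext {x x' y y' : F} (h : V.Nonsingular x y) (h' : V.Nonsingular x' y') (hx : x = x')
    (hy : y = y') : (Affine.Point.some x y h : V.Point) = .some x' y' h' := by
  subst hx; subst hy; rfl

theorem IsF2.dbl (h : IsF2 V α β γ) {x y : F} (hn : V.Nonsingular x y) :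
    (Affine.Point.some x y hn : V.Point) + .some x y hn = 0 ↔ y = 0 := by
  constructor
  · intro e
    by_contra hy
    have hy' : y ≠ V.negY x y := by
      rw [h.negY]
      intro e2
      apply hy
      have : 2 * y = 0 := by linear_combination e2
      exact (mul_eq_zero.1 this).resolve_left h.two
    rw [Affine.Point.add_self_of_Y_ne hy'] at e
    exact Affine.Point.some_ne_zero _ e
  · intro hy
    apply Affine.Point.add_self_of_Y_eq
    rw [h.negY, hy, neg_zero]

theorem IsF2.eq0 (h : IsF2 V α β γ) {x : F} (hn : V.Nonsingular x 0) :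
    x = α ∨ x = β ∨ x = γ := by
  have e := (h.eqn x 0).1 hn.1
  have e' : (x - α) * (x - β) * (x - γ) = 0 := by rw [← e]; ring
  rcases mul_eq_zero.1 e' with e1 | e1
  · rcases mul_eq_zero.1 e1 with e2 | e2
    · exact Or.inl (sub_eq_zero.1 e2)
    · exact Or.inr (Or.inl (sub_eq_zero.1 e2))
  · exact Or.inr (Or.inr (sub_eq_zero.1 e1))

theorem IsF2.add_two (h : IsF2 V α β γ) {x x' : F} (hn : V.Nonsingular x 0)
    (hn' : V.Nonsingular x' 0) (hx : x ≠ x') :
    ∃ hn'' : V.Nonsingular (α + β + γ - x - x') 0,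
      (Affine.Point.some x 0 hn : V.Point) + .some x' 0 hn' = .some (α + β + γ - x - x') 0 hn'' := by
  have hs : V.slope x x' 0 0 = 0 := by
    rw [Affine.slope_of_X_ne hx]; simp
  have hX : V.addX x x' (V.slope x x' 0 0) = α + β + γ - x - x' := by
    rw [hs, Affine.addX, h.a2]; ring
  have hY : V.addY x x' 0 (V.slope x x' 0 0) = 0 := by
    rw [Affine.addY, h.negY, Affine.negAddY, hs]; ring
  have h1 := Affine.Point.add_of_X_ne hx (h₁ := hn) (h₂ := hn')
  have h2 : V.Nonsingular (α + β + γ - x - x') 0 := by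
    have := Affine.nonsingular_add hn hn' fun hxy => hx hxy.left
    rw [hX, hY] at this
    exact this
  exact ⟨h2, h1.trans (some_ext _ _ hX hY)⟩

theorem IsF2.half (h : IsF2 V α β γ) {X Y s1 s2 s3 : F} (hs1 : s1 ^ 2 = X - α)
    (hs2 : s2 ^ 2 = X - β) (hs3 : s3 ^ 2 = X - γ) (hY : s1 * s2 * s3 = Y) (hP : V.Nonsingular X Y) :
    ∃ hQ : V.Nonsingular (X + (s1 * s2 + s2 * s3 + s3 * s1))
        ((s1 + s2 + s3) * (s1 * s2 + s2 * s3 + s3 * s1) - Y),
      (Affine.Point.some _ _ hQ : V.Point) + .some _ _ hQ = .some X Y hP := by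
  set e2 := s1 * s2 + s2 * s3 + s3 * s1 with he2
  set y := (s1 + s2 + s3) * e2 - Y with hy
  have hα : α = X - s1 ^ 2 := by rw [hs1]; ring
  have hβ : β = X - s2 ^ 2 := by rw [hs2]; ring
  have hγ : γ = X - s3 ^ 2 := by rw [hs3]; ring
  have hyy : y = (s1 + s2) * (s2 + s3) * (s3 + s1) := by
    rw [hy, he2, ← hY]; ring
  have h12 : s1 + s2 ≠ 0 := by
    intro e
    apply h.h1
    rw [hα, hβ]
    linear_combination (s2 - s1) * e
  have h23 : s2 + s3 ≠ 0 := by
    intro e
    apply h.h2
    rw [hβ, hγ]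
    linear_combination (s3 - s2) * e
  have h31 : s3 + s1 ≠ 0 := by
    intro e
    apply h.h3
    rw [hγ, hα]
    linear_combination (s1 - s3) * e
  have hy0 : y ≠ 0 := by rw [hyy]; exact mul_ne_zero (mul_ne_zero h12 h23) h31
  have hE : V.Equation (X + e2) y := by
    rw [h.eqn, hyy, he2, hα, hβ, hγ]
    ring
  have hQ := h.nons hE
  have hne : y ≠ V.negY (X + e2) y := by
    rw [h.negY]
    intro e
    apply hy0
    have : 2 * y = 0 := by linear_combination e
    exact (mul_eq_zero.1 this).resolve_left h.two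
  have hslope : V.slope (X + e2) (X + e2) y y = s1 + s2 + s3 := by
    rw [Affine.slope_of_Y_ne rfl hne, h.negY, h.a1, h.a2, h.a4]
    have h2y : y - -y ≠ 0 := by
      have : y - -y = 2 * y := by ring
      rw [this]
      exact mul_ne_zero h.two hy0
    rw [div_eq_iff h2y, hyy, he2, hα, hβ, hγ]
    ring
  refine ⟨hQ, ?_⟩
  rw [Affine.Point.add_self_of_Y_ne hne]
  apply some_ext
  · rw [hslope, Affine.addX, h.a1, h.a2, he2, hα, hβ, hγ]
    ring
  · rw [Affine.addY, h.negY, Affine.negAddY, hslope, Affine.addX, h.a1, h.a2, hyy, he2, hα, hβ, hγ,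
      ← hY]
    ring

end

end Run7.h615.EP
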