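import Pool.Agent.Run7.h615.EP.Defs

set_option autoImplicit false

/-!
The roots of `f(x) = t` in a separable closure of `k(t)`.
-/

namespace Run7.h615.EP

open Polynomial

section

variable {k K Ω : Type} [Field k] [Field K] [Algebra k[X] K] [Field Ω] [Algebra K Ω]

theorem polH_apply (g : k[X]) : polH k K Ω g = pol K Ω g := rfl

theorem con_apply (a : k) : con k K Ω a = pol K Ω (C a) := rfl

theorem pol_eval (g : k[X]) : g.eval₂ (con k K Ω) (pol K Ω (X : k[X])) = pol K Ω g := by
  have : (eval₂RingHom (con k K Ω) (pol K Ω (X : k[X]))) = polH k K Ω := by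
    apply Polynomial.ringHom_ext
    · intro a; simp [con]
    · simp [polH_apply]
  exact congrArg (fun h : k[X] →+* Ω => h g) this

theorem ev_comp {f : k[X]} {α : Ω} (hα : IsRt K f α) (g : k[X]) :
    (g.comp f).eval₂ (con k K Ω) α = pol K Ω g := by
  rw [eval₂_comp, hα, pol_eval]

theorem pol_inj [IsFractionRing k[X] K] : Function.Injective (pol K Ω : k[X] → Ω) :=
  (algebraMap K Ω).injective.comp (IsFractionRing.injective k[X] K)

theorem ev_inj [IsFractionRing k[X] K] {f : k[X]} {α : Ω} (hα : IsRt K f α) :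
    Function.Injective (eval₂RingHom (con k K Ω) α) := by
  rw [injective_iff_map_eq_zero]
  intro g hg
  by_contra hg0
  let _ : Algebra k Ω := (con k K Ω).toAlgebra
  have h1 : IsAlgebraic k α := ⟨g, hg0, hg⟩
  have h2 : IsIntegral k α := h1.isIntegral
  have h3 : IsIntegral k (aeval α f) := by
    have := (integralClosure k Ω).toSubsemiring
    have h4 : aeval α f ∈ integralClosure k Ω := by
      rw [aeval_eq_sum_range]
      refine Subalgebra.sum_mem _ fun i _ => Subalgebra.smul_mem _ (Subalgebra.pow_mem _ h2 i) _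
    exact h4
  obtain ⟨G, hG, hG0⟩ := h3
  have h5 : aeval α f = pol K Ω (X : k[X]) := hα
  rw [h5] at hG0
  have h6 : G.eval₂ (con k K Ω) (pol K Ω (X : k[X])) = 0 := hG0
  rw [pol_eval] at h6
  have h7 : pol K Ω G = pol K Ω (0 : k[X]) := by rw [h6]; exact (map_zero (polH k K Ω)).symm
  exact hG.ne_zero (pol_inj h7)

theorem comp_inj {f : k[X]} (hf : f.natDegree ≠ 0) : Function.Injective (compRingHom f) := by
  rw [injective_iff_map_eq_zero]
  intro g hg
  have h0 : g.comp f = 0 := hg
  have h1 : g.natDegree * f.natDegree = 0 := by rw [← natDegree_comp, h0, natDegree_zero]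
  have h2 := (Nat.mul_eq_zero.1 h1).resolve_right hf
  obtain ⟨c, rfl⟩ := natDegree_eq_zero.1 h2
  rw [C_comp] at h0
  rw [h0]

variable (K) in
/-- `k(t) → k(x)`, `t = f(x)` -/
noncomputable def kc [IsFractionRing k[X] K] {f : k[X]} (hf : f.natDegree ≠ 0) : K →+* RatFunc k :=
  IsFractionRing.lift (A := k[X]) (g := (algebraMap k[X] (RatFunc k)).comp (compRingHom f))
    ((IsFractionRing.injective k[X] (RatFunc k)).comp (comp_inj hf))

theorem kc_apply [IsFractionRing k[X] K] {f : k[X]} (hf : f.natDegree ≠ 0) (g : k[X]) :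
    kc K hf (algebraMap k[X] K g) = algebraMap k[X] (RatFunc k) (g.comp f) :=
  IsFractionRing.lift_algebraMap _ g

/-- `k(x) → Ω`, `x ↦ α` -/
noncomputable def ph [IsFractionRing k[X] K] {f : k[X]} {α : Ω} (hα : IsRt K f α) :
    RatFunc k →+* Ω := IsFractionRing.lift (A := k[X]) (ev_inj hα)

theorem ph_apply [IsFractionRing k[X] K] {f : k[X]} {α : Ω} (hα : IsRt K f α) (g : k[X]) :
    ph hα (algebraMap k[X] (RatFunc k) g) = g.eval₂ (con k K Ω) α :=
  IsFractionRing.lift_algebraMap _ g

theorem ph_kc [IsFractionRing k[X] K] {f : k[X]} (hf : f.natDegree ≠ 0) {α : Ω}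
    (hα : IsRt K f α) : (ph hα).comp (kc K hf) = algebraMap K Ω := by
  apply IsLocalization.ringHom_ext (nonZeroDivisors k[X])
  apply RingHom.ext
  intro g
  show ph hα (kc K hf (algebraMap k[X] K g)) = _
  rw [kc_apply, ph_apply, ev_comp hα]
  rfl

/-- the Galois group acts transitively on the roots -/
theorem exists_aut_root [IsFractionRing k[X] K] [IsGalois K Ω] {f : k[X]} (hf : f.natDegree ≠ 0)
    {α β : Ω} (hα : IsRt K f α) (hβ : IsRt K f β) : ∃ σ : Ω ≃ₐ[K] Ω, σ α = β := by
  let _ : Algebra K (RatFunc k) := (kc K hf).toAlgebra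
  let _ : Algebra (RatFunc k) Ω := (ph hα).toAlgebra
  have ht : IsScalarTower K (RatFunc k) Ω := .of_algebraMap_eq fun x =>
    (congrArg (fun h : K →+* Ω => h x) (ph_kc hf hα)).symm
  let ψ : RatFunc k →ₐ[K] Ω :=
    { ph hβ with commutes' := fun x => congrArg (fun h : K →+* Ω => h x) (ph_kc hf hβ) }
  have h1 : (ψ.liftNormal Ω) (algebraMap (RatFunc k) Ω (algebraMap k[X] (RatFunc k) X)) =
      algebraMap Ω Ω (ψ (algebraMap k[X] (RatFunc k) X)) := ψ.liftNormal_commutes Ω _
  have h2 : algebraMap (RatFunc k) Ω (algebraMap k[X] (RatFunc k) X) = α := by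
    show ph hα _ = α
    rw [ph_apply, eval₂_X]
  have h3 : ψ (algebraMap k[X] (RatFunc k) X) = β := by
    show ph hβ _ = β
    rw [ph_apply, eval₂_X]
  rw [h2, h3] at h1
  refine ⟨AlgEquiv.ofBijective (ψ.liftNormal Ω) ?_, h1⟩
  exact Algebra.IsAlgebraic.algHom_bijective _

/-- the polynomial `f(x) - t` over `K` -/
noncomputable def fk (K : Type) [Field K] [Algebra k[X] K] (f : k[X]) : K[X] :=
  f.map ((algebraMap k[X] K).comp C) - C (algebraMap k[X] K X)

theorem fk_sep [IsFractionRing k[X] K] {f : k[X]} (hf : derivative f ≠ 0) : (fk K f).Separable := by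
  classical
  rw [separable_def]
  by_contra hcon
  have hder : derivative (fk K f) = (derivative f).map ((algebraMap k[X] K).comp C) := by
    rw [fk, derivative_sub, derivative_C, sub_zero, derivative_map]
  have hinj : Function.Injective ((algebraMap k[X] K).comp C) := RingHom.injective _
  have hne : derivative (fk K f) ≠ 0 := by
    rw [hder, ne_eq, Polynomial.map_eq_zero_iff hinj]
    exact hf
  have h1 : ¬ IsUnit (EuclideanDomain.gcd (fk K f) (derivative (fk K f))) := fun h =>
    hcon (EuclideanDomain.gcd_isUnit_iff.1 h)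
  have h2 : EuclideanDomain.gcd (fk K f) (derivative (fk K f)) ≠ 0 := by
    intro h
    exact hne (EuclideanDomain.gcd_eq_zero_iff.1 h).2
  obtain ⟨Q, hQ, hQd⟩ := WfDvdMonoid.exists_irreducible_factor h1 h2
  have hQ1 : Q ∣ fk K f := hQd.trans (EuclideanDomain.gcd_dvd_left _ _)
  have hQ2 : Q ∣ derivative (fk K f) := hQd.trans (EuclideanDomain.gcd_dvd_right _ _)
  have : Fact (Irreducible Q) := ⟨hQ⟩
  have hr1 : (fk K f).eval₂ (algebraMap K (AdjoinRoot Q)) (AdjoinRoot.root Q) = 0 := by
    obtain ⟨q, hq⟩ := hQ1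
    rw [hq, eval₂_mul]
    have : Q.eval₂ (algebraMap K (AdjoinRoot Q)) (AdjoinRoot.root Q) = 0 := AdjoinRoot.eval₂_root Q
    rw [this, zero_mul]
  have hr2 : (derivative (fk K f)).eval₂ (algebraMap K (AdjoinRoot Q)) (AdjoinRoot.root Q) = 0 := by
    obtain ⟨q, hq⟩ := hQ2
    rw [hq, eval₂_mul]
    have : Q.eval₂ (algebraMap K (AdjoinRoot Q)) (AdjoinRoot.root Q) = 0 := AdjoinRoot.eval₂_root Q
    rw [this, zero_mul]
  have hrt : IsRt K f (AdjoinRoot.root Q) := by
    rw [fk, eval₂_sub, eval₂_map, eval₂_C, sub_eq_zero] at hr1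
    exact hr1
  have h3 := ev_inj hrt
  rw [hder, eval₂_map] at hr2
  have h4 : derivative f = 0 := h3 (by
    rw [map_zero]
    exact hr2)
  exact hf h4

theorem fk_deg {f : k[X]} : (fk K f).natDegree = f.natDegree := by
  rw [fk, natDegree_sub_C, natDegree_map]

theorem fk_root {f : k[X]} {x : Ω} (hf : fk K f ≠ 0) : x ∈ (fk K f).rootSet Ω ↔ IsRt K f x := by
  rw [mem_rootSet, aeval_def, fk, eval₂_sub, eval₂_map, eval₂_C, sub_eq_zero]
  exact ⟨fun h => h.2, fun h => ⟨hf, h⟩⟩

/-- the number of roots -/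
theorem card_roots [IsFractionRing k[X] K] [IsSepClosed Ω] {f : k[X]} (hf : derivative f ≠ 0) :
    Finite {x : Ω // IsRt K f x} ∧ Nat.card {x : Ω // IsRt K f x} = f.natDegree := by
  have hsep := fk_sep (K := K) hf
  have hne : fk K f ≠ 0 := by
    intro h
    rw [h, separable_def, derivative_zero] at hsep
    exact not_isCoprime_zero_zero hsep
  have he : {x : Ω // IsRt K f x} ≃ (fk K f).rootSet Ω :=
    Equiv.subtypeEquivRight fun x => (fk_root hne).symm
  have hfin : Finite ((fk K f).rootSet Ω) := inferInstance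
  refine ⟨Finite.of_equiv _ he.symm, ?_⟩
  rw [Nat.card_congr he, Nat.card_eq_fintype_card, ← fk_deg (K := K)]
  apply card_rootSet_eq_natDegree hsep
  exact IsSepClosed.splits_codomain _ hsep

end

end Run7.h615.EP
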