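import Pool.Agent.Run7.h615.EP.Fu
import Pool.Agent.Run7.h615.EP.Su

set_option autoImplicit false

/-!
The field fixed by the inertia group of a valuation ring of an infinite Galois extension is unramified.
-/

namespace Run7.h615.EP

open IsDedekindDomain HeightOneSpectrum WithZero Ideal
open Pool.Agent.H639R3 Pool.Agent.H124R3.ZT

theorem le_one_of_hv {B M : Type} [CommRing B] [IsDedekindDomain B] [Field M] [Algebra B M]
    [IsFractionRing B M] (O : ValuationSubring M) (h : ∀ b : B, algebraMap B M b ∈ O)
    (w : HeightOneSpectrum B) (hw : w.asIdeal = cent O h) (z : M) (hz : w.valuation M z ≤ 1) :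
    O.valuation z ≤ 1 := by
  have hp := w.isPrime
  by_cases hz0 : z = 0
  · rw [hz0, map_zero]; exact zero_le
  rcases dich (F := M) w.asIdeal w.ne_bot z with ⟨a, b, hb, hab⟩ | ⟨a, b, hb, ha, hab⟩
  · rw [hw] at hb
    have h2 := congrArg O.valuation hab
    rw [map_mul, val_eq_one O h b hb, mul_one] at h2
    rw [h2]
    exact (O.valuation_le_one_iff _).mpr (h a)
  · exfalso
    have h2 := congrArg (w.valuation M) hab
    have hb1 : w.valuation M (algebraMap B M b) = 1 := by
      apply le_antisymm (w.valuation_le_one b)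
      rw [← not_lt, valuation_lt_one_iff_mem]
      exact hb
    rw [map_mul, hb1, mul_one, map_inv₀] at h2
    have h3 := (w.valuation_lt_one_iff_mem (K := M) a).2 ha
    rw [← h2] at h3
    have h0 : w.valuation M z ≠ 0 := (map_ne_zero _).2 hz0
    exact absurd h3 (not_lt.mpr ((one_le_inv₀ (zero_lt_iff.mpr h0)).mpr hz))

theorem perf_res (κ : Type) {A : Type} [Field κ] [PerfectField κ] [CommRing A] [Algebra κ A]
    (p : Ideal A) [hp : p.IsMaximal] [Algebra.IsIntegral κ (A ⧸ p)] :
    PerfectField p.ResidueField := by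
  have hb := Ideal.bijective_algebraMap_quotient_residueField p
  have : IsScalarTower κ (A ⧸ p) p.ResidueField := IsScalarTower.of_algebraMap_eq fun x => rfl
  have : Algebra.IsAlgebraic κ p.ResidueField := by
    constructor
    intro x
    obtain ⟨y, rfl⟩ := hb.2 x
    exact ((Algebra.IsIntegral.isIntegral (R := κ) y).algebraMap).isAlgebraic
  exact Algebra.IsAlgebraic.perfectField (K := κ)

/-- the residue ring of an ideal of an integral extension -/
theorem int_quot (κ : Type) {A R : Type} [Field κ] [CommRing A] [CommRing R] [Algebra κ A]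
    [Algebra A R] [Algebra κ R] [IsScalarTower κ A R] [Algebra.IsIntegral A R]
    (P : Ideal R) (p : Ideal A) (h : p ≤ P.comap (algebraMap A R))
    [Algebra.IsIntegral κ (A ⧸ p)] : Algebra.IsIntegral κ (R ⧸ P) := by
  let _ : Algebra (A ⧸ p) (R ⧸ P) := (Ideal.quotientMap P (algebraMap A R) h).toAlgebra
  have : IsScalarTower A (A ⧸ p) (R ⧸ P) := IsScalarTower.of_algebraMap_eq fun a => rfl
  have : IsScalarTower κ (A ⧸ p) (R ⧸ P) := IsScalarTower.of_algebraMap_eq fun a => by
    rw [IsScalarTower.algebraMap_apply κ A (A ⧸ p), ← IsScalarTower.algebraMap_apply A (A ⧸ p),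
      ← IsScalarTower.algebraMap_apply κ A (R ⧸ P)]
  constructor
  intro y
  obtain ⟨x, rfl⟩ := Ideal.Quotient.mk_surjective y
  have h1 : IsIntegral A (Ideal.Quotient.mk P x) :=
    (Algebra.IsIntegral.isIntegral (R := A) x).map (Ideal.Quotient.mkₐ A P)
  have h2 : IsIntegral (A ⧸ p) (Ideal.Quotient.mk P x) := h1.tower_top
  exact isIntegral_trans (R := κ) (A := A ⧸ p) _ h2

theorem mid0 (κ : Type) [Field κ] [PerfectField κ] {A K F M B RF : Type} [CommRing A]
    [Algebra κ A] [IsDedekindDomain A] [Field K] [Algebra A K]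
    [IsFractionRing A K] [Field F] [Field M] [Algebra K F] [Algebra F M] [Algebra K M]
    [IsScalarTower K F M] [FiniteDimensional K M] [IsGalois K M] [Algebra A M] [IsScalarTower A K M]
    [CommRing B] [IsDedekindDomain B] [Algebra A B] [Algebra B M] [IsFractionRing B M]
    [IsScalarTower A B M] [IsIntegralClosure B A M] [Module.Finite A B]
    [Algebra A F] [IsScalarTower A K F] [IsScalarTower A F M]
    [CommRing RF] [IsDedekindDomain RF] [Algebra A RF] [Algebra RF F] [IsFractionRing RF F]
    [IsScalarTower A RF F] [IsIntegralClosure RF A F] [Module.Finite A RF]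
    [MulSemiringAction Gal(M/K) B] [SMulDistribClass Gal(M/K) B M] [IsGaloisGroup Gal(M/K) A B]
    (I : Subgroup Gal(M/K)) [IsGaloisGroup I F M] (O : ValuationSubring M)
    (h : ∀ b : B, algebraMap B M b ∈ O) (v : HeightOneSpectrum A) (P : HeightOneSpectrum B)
    [hlies : P.asIdeal.LiesOver v.asIdeal] (hP : P.asIdeal = cent O h)
    (hI : I = P.asIdeal.inertia Gal(M/K)) [hfin : Algebra.IsIntegral κ (A ⧸ v.asIdeal)] (π : A)
    (hπ0 : π ≠ 0)
    (hπ : v.asIdeal = Ideal.span {π}) (a : F) (ha : O.valuation (algebraMap F M a) < 1) :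
    O.valuation (algebraMap F M a) ≤ O.valuation (algebraMap A M π) := by
  let _ : Algebra RF M := ((algebraMap F M).comp (algebraMap RF F)).toAlgebra
  have ht2 : IsScalarTower RF F M := .of_algebraMap_eq fun _ => rfl
  have ht4 : IsScalarTower A RF M := .of_algebraMap_eq fun x => by
    rw [IsScalarTower.algebraMap_apply A F M, IsScalarTower.algebraMap_apply A RF F]; rfl
  have : Algebra.IsIntegral A RF := IsIntegralClosure.isIntegral_algebra A F
  let j : RF →ₐ[A] B := IsIntegralClosure.lift A B M
  let _ : Algebra RF B := j.toRingHom.toAlgebra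
  have hj : ∀ x : RF, algebraMap B M (algebraMap RF B x) = algebraMap RF M x := fun x =>
    IsIntegralClosure.algebraMap_lift A B M x
  have ht3 : IsScalarTower RF B M := .of_algebraMap_eq fun x => (hj x).symm
  have ht1 : IsScalarTower A RF B := .of_algebraMap_eq fun x => (j.commutes x).symm
  have hBfin' : Module.Finite RF B := Module.Finite.of_restrictScalars_finite A _ _
  have hinjM : Function.Injective (algebraMap RF M) :=
    (algebraMap F M).injective.comp (IsFractionRing.injective RF F)
  have htf : Module.IsTorsionFree RF B := by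
    rw [Module.isTorsionFree_iff_faithfulSMul, faithfulSMul_iff_algebraMap_injective]
    intro x y hxy
    apply hinjM
    rw [← hj, ← hj, hxy]
  have hinjAM : Function.Injective (algebraMap A M) := by
    rw [IsScalarTower.algebraMap_eq A K M]
    exact (algebraMap K M).injective.comp (IsFractionRing.injective A K)
  have htf2 : Module.IsTorsionFree A B := by
    rw [Module.isTorsionFree_iff_faithfulSMul, faithfulSMul_iff_algebraMap_injective]
    intro x y hxy
    apply hinjAM
    rw [IsScalarTower.algebraMap_apply A B M, IsScalarTower.algebraMap_apply A B M, hxy]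
  have hIB : IsGaloisGroup I RF B := IsGaloisGroup.of_isFractionRing I RF B F M
  have hPp := P.isPrime
  have hvle : v.asIdeal ≤ (P.asIdeal.under RF).comap (algebraMap A RF) := by
    intro x hx
    rw [hlies.over] at hx
    rw [Ideal.mem_comap, Ideal.under_def, Ideal.mem_comap, ← IsScalarTower.algebraMap_apply]
    exact hx
  let u : HeightOneSpectrum RF := ⟨P.asIdeal.under RF, inferInstance, by
    intro hbot
    have h1 : algebraMap A RF π ∈ P.asIdeal.under RF := hvle (by
      rw [hπ]; exact Ideal.mem_span_singleton_self π)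
    rw [hbot, Ideal.mem_bot] at h1
    apply hπ0
    apply hinjAM
    rw [IsScalarTower.algebraMap_apply A RF M, h1, map_zero, map_zero]⟩
  have hlu : P.asIdeal.LiesOver u.asIdeal := ⟨rfl⟩
  let _ : Algebra κ RF := ((algebraMap A RF).comp (algebraMap κ A)).toAlgebra
  have htκ : IsScalarTower κ A RF := .of_algebraMap_eq fun _ => rfl
  have hfu : Algebra.IsIntegral κ (RF ⧸ u.asIdeal) := int_quot κ (A := A) u.asIdeal v.asIdeal hvle
  have hvp := v.isPrime
  have hup := u.isPrime
  have hvm : v.asIdeal.IsMaximal := v.isMaximal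
  have hum : u.asIdeal.IsMaximal := u.isMaximal
  have hpv : PerfectField v.asIdeal.ResidueField := perf_res κ _
  have hpu : PerfectField u.asIdeal.ResidueField := perf_res κ _
  have hua : u.valuation F a < 1 := by
    by_contra hcon
    rw [not_lt] at hcon
    have h0 : u.valuation F a ≠ 0 := (lt_of_lt_of_le zero_lt_one hcon).ne'
    have ha0 : a ≠ 0 := fun e => h0 (by rw [e, map_zero])
    rcases dich (F := F) u.asIdeal u.ne_bot a⁻¹ with ⟨x, y, hy, hxy⟩ | ⟨x, y, hy, hx, hxy⟩
    · have h1 := congrArg (fun z => O.valuation (algebraMap F M z)) hxy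
      have hR : ∀ z : RF, algebraMap F M (algebraMap RF F z) ∈ O := fun z => by
        rw [← IsScalarTower.algebraMap_apply, ← hj]
        exact h _
      have hy1 : O.valuation (algebraMap F M (algebraMap RF F y)) = 1 := by
        apply le_antisymm ((O.valuation_le_one_iff _).2 (hR y))
        rw [← not_lt]
        intro h2
        apply hy
        show algebraMap RF B y ∈ P.asIdeal
        rw [hP, mem_cent, hj]
        exact h2
      simp only [map_mul, map_inv₀, hy1, mul_one] at h1
      have h2 := (O.valuation_le_one_iff _).2 (hR x)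
      rw [← h1] at h2
      have h3 : O.valuation (algebraMap F M a) ≠ 0 := by
        rw [ne_eq, map_eq_zero, map_eq_zero]; exact ha0
      exact absurd ha (not_lt.2 ((inv_le_one₀ (zero_lt_iff.2 h3)).1 h2))
    · rw [inv_inv] at hxy
      have h1 := congrArg (u.valuation F) hxy
      have hy1 : u.valuation F (algebraMap RF F y) = 1 := by
        apply le_antisymm (u.valuation_le_one y)
        rw [← not_lt, valuation_lt_one_iff_mem]
        exact hy
      rw [map_mul, hy1, mul_one] at h1
      have h2 := (u.valuation_lt_one_iff_mem (K := F) x).2 hx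
      rw [← h1] at h2
      exact absurd h2 (not_lt.2 hcon)
  have hvπ : v.valuation K (algebraMap A K π) = exp (-1 : ℤ) := by
    rw [valuation_of_algebraMap]
    exact v.intValuation_singleton hπ0 hπ
  have h1 := fin_unram (G := Gal(M/K)) (M := M) I v u P hI a (algebraMap A K π) hvπ hua
  rw [← IsScalarTower.algebraMap_apply] at h1
  have hπM : algebraMap A M π ≠ 0 := by
    rw [ne_eq, map_eq_zero_iff _ hinjAM]; exact hπ0
  have h2 : P.valuation M (algebraMap F M a / algebraMap A M π) ≤ 1 := by
    rw [map_div₀]
    exact div_le_one_of_le₀ h1 zero_le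
  have h3 := le_one_of_hv O h P hP _ h2
  rw [map_div₀] at h3
  have h4 : 0 < O.valuation (algebraMap A M π) := zero_lt_iff.2 ((map_ne_zero _).2 hπM)
  exact (div_le_one₀ h4).1 h3

theorem unram (κ : Type) [Field κ] [PerfectField κ] {K L A : Type} [Field K] [Field L]
    [Algebra K L] [IsGalois K L] [CommRing A] [Algebra κ A] [IsDedekindDomain A] [Algebra A K] [IsFractionRing A K] [Algebra A L]
    [IsScalarTower A K L] (w : ValuationSubring L) (hA : ∀ a : A, algebraMap A L a ∈ w)
    (π : A) (hπ0 : π ≠ 0) (hπ : ∀ g : A, w.valuation (algebraMap A L g) < 1 ↔ π ∣ g)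
    [hfin : Algebra.IsIntegral κ (A ⧸ Ideal.span {π})] (a : L)
    (ha : ∀ θ : L ≃ₐ[K] L, (∀ a, a ∈ w ↔ θ a ∈ w) → (∀ a ∈ w, w.valuation (θ a - a) < 1) → θ a = a)
    (h1 : w.valuation a < 1) : w.valuation a ≤ w.valuation (algebraMap A L π) := by
  have hinjAL : Function.Injective (algebraMap A L) := by
    rw [IsScalarTower.algebraMap_eq A K L]
    exact (algebraMap K L).injective.comp (IsFractionRing.injective A K)
  have hne : w.comap (algebraMap K L) ≠ ⊤ := by
    intro htop
    have h2 : (algebraMap K L) (algebraMap A K π)⁻¹ ∈ w := by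
      have : (algebraMap A K π)⁻¹ ∈ w.comap (algebraMap K L) := by rw [htop]; trivial
      exact this
    rw [map_inv₀, ← IsScalarTower.algebraMap_apply] at h2
    have h3 := (hπ π).2 dvd_rfl
    have h4 := (w.valuation_le_one_iff _).2 h2
    rw [map_inv₀] at h4
    have h5 : w.valuation (algebraMap A L π) ≠ 0 := by
      rw [ne_eq, map_eq_zero, map_eq_zero_iff _ hinjAL]
      exact hπ0
    exact absurd h3 (not_lt.2 ((inv_le_one₀ (zero_lt_iff.2 h5)).1 h4))
  -- a finite Galois extension
  let E := FiniteGaloisIntermediateField.adjoin K ({a} : Set L)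
  let M : IntermediateField K L := E.toIntermediateField
  have haM : a ∈ M := FiniteGaloisIntermediateField.subset_adjoin K {a} (Set.mem_singleton a)
  have hMfd : FiniteDimensional K M := inferInstanceAs (FiniteDimensional K E)
  have hMgal : IsGalois K M := inferInstanceAs (IsGalois K E)
  let _ : Algebra A M := ((algebraMap K M).comp (algebraMap A K)).toAlgebra
  have htowM : IsScalarTower A K M := .of_algebraMap_eq fun _ => rfl
  have htowML : IsScalarTower A M L := .of_algebraMap_eq fun a => by
    rw [IsScalarTower.algebraMap_apply A K L]; rfl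
  have hD : IsDedekindDomain (integralClosure A M) := integralClosure.isDedekindDomain A K (L := M)
  have hFr : IsFractionRing (integralClosure A M) M :=
    integralClosure.isFractionRing_of_finite_extension K M
  have hBfin : Module.Finite A (integralClosure A M) :=
    IsIntegralClosure.finite A K M (integralClosure A M)
  let _ : MulSemiringAction Gal(M/K) (integralClosure A M) :=
    IsIntegralClosure.MulSemiringAction A K M (integralClosure A M)
  have hsmul : ∀ (σ : Gal(M/K)) (c : integralClosure A M), ((σ • c : integralClosure A M) : M) =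
      σ c := fun σ c => algebraMap_galRestrict_apply A σ c
  have hG : IsGaloisGroup Gal(M/K) A (integralClosure A M) :=
    IsGaloisGroup.of_isFractionRing _ _ _ K M
  have hwM : ∀ b : integralClosure A M, algebraMap (integralClosure A M) M b ∈
      w.comap (algebraMap M L) := fun b =>
    integral_mem (A := A) (w.comap (algebraMap M L)) (fun a => by
      rw [ValuationSubring.mem_comap, ← IsScalarTower.algebraMap_apply]
      exact hA a) (b : M) b.2
  have hwtop : w.comap (algebraMap M L) ≠ ⊤ := by
    intro htop
    apply hne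
    rw [eq_top_iff]
    intro y _
    have h1 : algebraMap K M y ∈ w.comap (algebraMap M L) := by rw [htop]; trivial
    exact h1
  let P : HeightOneSpectrum (integralClosure A M) :=
    ⟨cent (w.comap (algebraMap M L)) hwM, cent_isPrime _ _, cent_ne_bot _ _ hwtop⟩
  have hPmem : ∀ b : integralClosure A M, b ∈ P.asIdeal ↔ w.valuation ((b : M) : L) < 1 := by
    intro b
    show b ∈ cent _ _ ↔ _
    rw [mem_cent, comap_val_lt_one]
    rfl
  have hprime : (Ideal.span {π}).IsPrime := by
    have h2 : (Ideal.span {π}) = P.asIdeal.comap (algebraMap A (integralClosure A M)) := by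
      ext g
      rw [Ideal.mem_span_singleton, ← hπ, Ideal.mem_comap, hPmem, IsScalarTower.algebraMap_apply A M L]
      rfl
    rw [h2]
    exact Ideal.IsPrime.comap _
  let v : HeightOneSpectrum A := ⟨Ideal.span {π}, hprime, by
    rw [ne_eq, Ideal.span_singleton_eq_bot]; exact hπ0⟩
  have hlies : P.asIdeal.LiesOver v.asIdeal := by
    constructor
    ext g
    rw [Ideal.under_def, Ideal.mem_comap, hPmem]
    show g ∈ Ideal.span {π} ↔ _
    rw [Ideal.mem_span_singleton, ← hπ, IsScalarTower.algebraMap_apply A M L]
    rfl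
  have hsurj : ∀ τ ∈ P.asIdeal.inertia Gal(M/K), τ ⟨a, haM⟩ = ⟨a, haM⟩ := by
    intro τ hτ
    obtain ⟨ρ, hρ⟩ := AlgEquiv.restrictNormalHom_surjective (F := K) (K₁ := M) L τ
    have hρM : ∀ x : M, ρ (x : L) = ((τ x : M) : L) := by
      intro x
      rw [← hρ]
      exact (AlgEquiv.restrictNormal_commutes ρ M x).symm
    obtain ⟨θ, ⟨h2, h3⟩, h4⟩ := exists_inertia (A := A) w hA hne M ρ (fun x hx => by
      rw [hρM ⟨x, hx⟩]; exact SetLike.coe_mem _) (by
      intro r hr hri
      have hriM : IsIntegral A (⟨r, hr⟩ : M) :=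
        (isIntegral_algebraMap_iff (algebraMap M L).injective).1 hri
      have h5 := hτ ⟨⟨r, hr⟩, hriM⟩
      have h5' : τ • (⟨⟨r, hr⟩, hriM⟩ : integralClosure A M) - ⟨⟨r, hr⟩, hriM⟩ ∈ P.asIdeal := h5
      rw [hPmem] at h5'
      rw [hρM ⟨r, hr⟩]
      have h6 : (((τ • (⟨⟨r, hr⟩, hriM⟩ : integralClosure A M) - ⟨⟨r, hr⟩, hriM⟩ :
          integralClosure A M) : M) : L) = ((τ ⟨r, hr⟩ : M) : L) - r := by
        rw [AddSubgroupClass.coe_sub, hsmul]
        rfl
      rw [h6] at h5'
      exact h5')
    apply Subtype.ext
    rw [← hρM ⟨a, haM⟩, ← h4 _ haM]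
    exact ha θ h2 h3
  let I : Subgroup Gal(M/K) := P.asIdeal.inertia Gal(M/K)
  let F : IntermediateField K M := FixedPoints.intermediateField I
  have haF : (⟨a, haM⟩ : M) ∈ F := fun τ => hsurj τ.1 τ.2
  have hIF : IsGaloisGroup I F M := IsGaloisGroup.subgroup Gal(M/K) K M I
  let _ : Algebra A F := ((algebraMap K F).comp (algebraMap A K)).toAlgebra
  have htowF : IsScalarTower A K F := .of_algebraMap_eq fun _ => rfl
  have htowFM : IsScalarTower A F M := .of_algebraMap_eq fun a => rfl
  have hDF : IsDedekindDomain (integralClosure A F) := integralClosure.isDedekindDomain A K (L := F)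
  have hFrF : IsFractionRing (integralClosure A F) F :=
    integralClosure.isFractionRing_of_finite_extension K F
  have hFfin : Module.Finite A (integralClosure A F) :=
    IsIntegralClosure.finite A K F (integralClosure A F)
  have h6 := mid0 κ (A := A) (K := K) (F := F) (M := M) (B := integralClosure A M)
    (RF := integralClosure A F) I (w.comap (algebraMap M L)) hwM v P rfl rfl π hπ0 rfl
    ⟨⟨a, haM⟩, haF⟩ (by rw [comap_val_lt_one]; exact h1)
  have h7 : w.valuation (a / algebraMap A L π) ≤ 1 := by
    rw [ValuationSubring.valuation_le_one_iff]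
    have h8 : (⟨a, haM⟩ : M) / algebraMap A M π ∈ w.comap (algebraMap M L) := by
      rw [← ValuationSubring.valuation_le_one_iff, map_div₀]
      exact div_le_one_of_le₀ h6 zero_le
    rw [ValuationSubring.mem_comap, map_div₀, ← IsScalarTower.algebraMap_apply] at h8
    exact h8
  rw [map_div₀] at h7
  have h9 : 0 < w.valuation (algebraMap A L π) := by
    rw [zero_lt_iff, ne_eq, map_eq_zero, map_eq_zero_iff _ hinjAL]
    exact hπ0
  exact (div_le_one₀ h9).1 h7

end Run7.h615.EP
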