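import Pool.Agent.Run7.h615.EP.Fb
import Pool.Agent.Run7.h615.EP.Ur

set_option autoImplicit false

/-!
Local points of `y² = f(x) - t` over the unramified extensions: the regular model.
-/

namespace Run7.h615.EP

open Polynomial

section

variable {k K Ω : Type} [Field k] [Field K] [Algebra k[X] K] [Field Ω] [Algebra K Ω]

theorem con_le {w : ValuationSubring Ω} {π : k[X]} (hw : IsPlace K w π) (a : k) :
    w.valuation (con k K Ω a) ≤ 1 := (w.valuation_le_one_iff _).2 (hw.mem (C a))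

theorem con_eq_one {w : ValuationSubring Ω} {π : k[X]} (hw : IsPlace K w π) {a : k} (ha : a ≠ 0) :
    w.valuation (con k K Ω a) = 1 := by
  apply le_antisymm (con_le hw a)
  have h1 := con_le hw a⁻¹
  rw [map_inv₀, map_inv₀] at h1
  have h2 : w.valuation (con k K Ω a) ≠ 0 := by
    rw [ne_eq, map_eq_zero, map_eq_zero]; exact ha
  exact (inv_le_one₀ (zero_lt_iff.2 h2)).1 h1

theorem two_eq_one {w : ValuationSubring Ω} {π : k[X]} (hw : IsPlace K w π) (h2 : (2 : k) ≠ 0) :
    w.valuation 2 = 1 := by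
  have := con_eq_one hw h2
  rwa [map_ofNat] at this

theorem unramK [PerfectField k] [IsFractionRing k[X] K] [IsGalois K Ω] {w : ValuationSubring Ω}
    {π : k[X]} (hw : IsPlace K w π) (a : Ω) (ha : ∀ σ : Ω ≃ₐ[K] Ω, InIne w σ → σ a = a)
    (h1 : w.valuation a < 1) : w.valuation a ≤ w.valuation (pol K Ω π) := by
  let _ : Algebra k[X] Ω := (polH k K Ω).toAlgebra
  have ht : IsScalarTower k[X] K Ω := .of_algebraMap_eq fun _ => rfl
  have hfinA : Algebra.IsIntegral k (k[X] ⧸ Ideal.span {π}) := by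
    have : Module.Finite k (AdjoinRoot π) := (AdjoinRoot.powerBasis hw.irr.ne_zero).finite
    exact inferInstanceAs (Algebra.IsIntegral k (AdjoinRoot π))
  exact unram k (K := K) (A := k[X]) w hw.mem π hw.irr.ne_zero hw.center a
    (fun θ h2 h3 => ha θ ⟨h2, h3⟩) h1

theorem pol_ne [IsFractionRing k[X] K] {g : k[X]} (hg : g ≠ 0) : pol K Ω g ≠ 0 := by
  intro h
  apply hg
  have h1 : algebraMap k[X] K g = 0 := (map_eq_zero (algebraMap K Ω)).1 h
  exact (IsFractionRing.injective k[X] K) (by rw [h1, map_zero])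

/-- `π(t)` is divisible by `t - s` modulo a unit if `s` is a constant with `t - s` in the maximal
ideal -/
theorem val_pi_le {w : ValuationSubring Ω} {π : k[X]} (hw : IsPlace K w π) {s : Ω}
    (hs : IsConst k K s) (h : w.valuation (pol K Ω (X : k[X]) - s) < 1) :
    w.valuation (pol K Ω π) ≤ w.valuation (pol K Ω (X : k[X]) - s) := by
  have hsw : s ∈ w := hs.mem hw
  have htw : pol K Ω (X : k[X]) ∈ w := hw.mem X
  let φ : k →+* w := (con k K Ω).codRestrict w.toSubring (con_mem hw)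
  have hev : ∀ (g : k[X]) (z : w), ((g.eval₂ φ z : w) : Ω) = g.eval₂ (con k K Ω) (z : Ω) := by
    intro g z
    show w.subtype (g.eval₂ φ z) = _
    rw [hom_eval₂]
    rfl
  obtain ⟨q, hq⟩ := sub_dvd_eval_sub (⟨pol K Ω (X : k[X]), htw⟩ : w) ⟨s, hsw⟩ (π.map φ)
  rw [eval_map, eval_map] at hq
  have h1 := congrArg (fun z : w => (z : Ω)) hq
  have h2 : pol K Ω π - π.eval₂ (con k K Ω) s = (pol K Ω (X : k[X]) - s) * (q : Ω) := by
    have e1 : ((π.eval₂ φ (⟨pol K Ω (X : k[X]), htw⟩ : w) : w) : Ω) = pol K Ω π := by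
      rw [hev]
      show π.eval₂ ((polH k K Ω).comp C) (polH k K Ω X) = _
      rw [← hom_eval₂, eval₂_C_X]
      rfl
    have e2 : ((π.eval₂ φ (⟨s, hsw⟩ : w) : w) : Ω) = π.eval₂ (con k K Ω) s := hev _ _
    rw [← e1, ← e2]
    exact h1
  have h3 : w.valuation (pol K Ω π - π.eval₂ (con k K Ω) s) ≤
      w.valuation (pol K Ω (X : k[X]) - s) := by
    rw [h2, map_mul]
    exact mul_le_of_le_one_right' ((w.valuation_le_one_iff _).2 q.2)
  have h4 : π.eval₂ (con k K Ω) s = 0 := by
    have h5 : IsConst k K (π.eval₂ (con k K Ω) s) := by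
      rw [isConst_iff]
      let _ : Algebra k Ω := (con k K Ω).toAlgebra
      have h6 : IsIntegral k s := (isConst_iff s).1 hs
      have h7 : aeval ((⟨s, h6⟩ : integralClosure k Ω) : Ω) π =
          ((aeval (⟨s, h6⟩ : integralClosure k Ω) π : integralClosure k Ω) : Ω) :=
        aeval_algebraMap_apply Ω (⟨s, h6⟩ : integralClosure k Ω) π
      have h8 : π.eval₂ (con k K Ω) s = aeval s π := rfl
      rw [h8]
      show IsIntegral k (aeval ((⟨s, h6⟩ : integralClosure k Ω) : Ω) π)
      rw [h7]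
      exact (aeval (⟨s, h6⟩ : integralClosure k Ω) π : integralClosure k Ω).2
    apply h5.eq_zero hw
    have e : π.eval₂ (con k K Ω) s = pol K Ω π - (pol K Ω π - π.eval₂ (con k K Ω) s) := by ring
    rw [e]
    exact (Valuation.map_sub _ _ _).trans_lt (max_lt ((hw.center π).2 dvd_rfl) (h3.trans_lt h))
  rw [h4, sub_zero] at h3
  exact h3

theorem no_sing [PerfectField k] [IsFractionRing k[X] K] [IsGalois K Ω] [IsSepClosed Ω]
    {w : ValuationSubring Ω} {π : k[X]} (hw : IsPlace K w π) {a b c : k} {x y : Ω}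
    (hE : y ^ 2 = x ^ 3 + con k K Ω a * x ^ 2 + con k K Ω b * x + con k K Ω c -
      pol K Ω (X : k[X])) (hx : x ∈ w) (hxI : ∀ σ : Ω ≃ₐ[K] Ω, InIne w σ → σ x = x)
    (hyI : ∀ σ : Ω ≃ₐ[K] Ω, InIne w σ → σ y = y) (hy1 : w.valuation y < 1)
    (hd : w.valuation (3 * x ^ 2 + 2 * con k K Ω a * x + con k K Ω b) < 1) : False := by
  obtain ⟨x0, hx0, hx01⟩ := exists_const hw x hx
  have hx0w : x0 ∈ w := hx0.mem hw
  set t := pol K Ω (X : k[X]) with ht
  set ρ := w.valuation (pol K Ω π) with hρ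
  have hρ1 : ρ < 1 := (hw.center π).2 dvd_rfl
  have hρ0 : ρ ≠ 0 := (_root_.map_ne_zero _).2 (pol_ne hw.irr.ne_zero)
  set h := x - x0 with hh
  have hca : con k K Ω a ∈ w := con_mem hw a
  have h3w : (3 : Ω) ∈ w := by
    have : (3 : Ω) = 1 + 1 + 1 := by norm_num
    rw [this]
    exact w.add_mem _ _ (w.add_mem _ _ w.one_mem w.one_mem) w.one_mem
  have hc3 : IsConst k K (3 : Ω) := by
    have := isConst_con (k := k) (K := K) (Ω := Ω) 3
    rwa [map_ofNat] at this
  have hc2 : IsConst k K (2 : Ω) := by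
    have := isConst_con (k := k) (K := K) (Ω := Ω) 2
    rwa [map_ofNat] at this
  have hhw : h ∈ w := w.sub_mem hx hx0w
  have e1 : w.valuation h ≤ ρ := by
    apply unramK hw _ _ hx01
    intro σ hσ
    rw [hh, map_sub, hxI σ hσ, hx0.fix hw hx0w hσ]
  have e3 : w.valuation y ≤ ρ := unramK hw y hyI hy1
  -- the derivative vanishes at `x0`
  have hf' : 3 * x0 ^ 2 + 2 * con k K Ω a * x0 + con k K Ω b = 0 := by
    have hconst : IsConst k K (3 * x0 ^ 2 + 2 * con k K Ω a * x0 + con k K Ω b) :=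
      ((hc3.mul (hx0.pow 2)).add ((hc2.mul (isConst_con a)).mul hx0)).add (isConst_con b)
    apply hconst.eq_zero hw
    have e : 3 * x0 ^ 2 + 2 * con k K Ω a * x0 + con k K Ω b =
        (3 * x ^ 2 + 2 * con k K Ω a * x + con k K Ω b) -
          h * (3 * (x + x0) + (con k K Ω a + con k K Ω a)) := by
      rw [hh]; ring
    rw [e]
    refine (Valuation.map_sub _ _ _).trans_lt (max_lt hd ?_)
    rw [map_mul]
    apply mul_lt_one_of_lt_of_le hx01
    rw [w.valuation_le_one_iff]
    exact w.add_mem _ _ (w.mul_mem _ _ h3w (w.add_mem _ _ hx hx0w)) (w.add_mem _ _ hca hca)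
  set s := x0 ^ 3 + con k K Ω a * x0 ^ 2 + con k K Ω b * x0 + con k K Ω c with hs
  have hsc : IsConst k K s :=
    (((hx0.pow 3).add ((isConst_con a).mul (hx0.pow 2))).add ((isConst_con b).mul hx0)).add
      (isConst_con c)
  have key : t - s = h ^ 2 * (3 * x0 + con k K Ω a + h) - y ^ 2 := by
    have hx' : x = x0 + h := by rw [hh]; ring
    rw [hE, hs, hx']
    linear_combination h * hf'
  have hint : w.valuation (3 * x0 + con k K Ω a + h) ≤ 1 := by
    rw [w.valuation_le_one_iff]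
    exact w.add_mem _ _ (w.add_mem _ _ (w.mul_mem _ _ h3w hx0w) hca) hhw
  have hsum : w.valuation (t - s) ≤ ρ ^ 2 := by
    rw [key]
    refine (Valuation.map_sub _ _ _).trans (max_le ?_ ?_)
    · rw [map_mul, map_pow]
      calc w.valuation h ^ 2 * w.valuation (3 * x0 + con k K Ω a + h) ≤ ρ ^ 2 * 1 :=
            mul_le_mul' (pow_le_pow_left' e1 2) hint
        _ = ρ ^ 2 := mul_one _
    · rw [map_pow]; exact pow_le_pow_left' e3 2
  have hρ2 : ρ ^ 2 < ρ := by
    rw [pow_two]
    exact mul_lt_of_lt_one_left (zero_lt_iff.2 hρ0) hρ1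
  have h9 := val_pi_le hw hsc (hsum.trans_lt (hρ2.trans hρ1))
  exact absurd (h9.trans hsum) (not_le.2 hρ2)

theorem rt_mem {w : ValuationSubring Ω} {π : k[X]} (hw : IsPlace K w π) {a b c : k} {α : Ω}
    (hα : α ^ 3 + con k K Ω a * α ^ 2 + con k K Ω b * α + con k K Ω c = pol K Ω (X : k[X])) :
    α ∈ w := by
  rcases w.mem_or_inv_mem α with h | h
  · exact h
  · by_cases h0 : α = 0
    · rw [h0]; exact w.zero_mem
    have e : α = -(con k K Ω a + con k K Ω b * α⁻¹ +
        (con k K Ω c - pol K Ω (X : k[X])) * (α⁻¹ * α⁻¹)) := by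
      field_simp
      linear_combination hα
    rw [e]
    exact w.neg_mem _ (w.add_mem _ _ (w.add_mem _ _ (hw.mem (C a)) (w.mul_mem _ _ (hw.mem (C b)) h))
      (w.mul_mem _ _ (w.sub_mem (hw.mem (C c)) (hw.mem X)) (w.mul_mem _ _ h h)))

/-- a unit `q` with `σ q = - q` for `σ` in the inertia group does not exist -/
theorem no_neg {w : ValuationSubring Ω} {π : k[X]} (hw : IsPlace K w π) (h2 : (2 : k) ≠ 0)
    {σ : Ω ≃ₐ[K] Ω} (hσ : InIne w σ) {q : Ω} (hq : w.valuation q = 1) (hσq : σ q = -q) : False := by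
  have h := hσ.2 q ((w.valuation_le_one_iff _).1 hq.le)
  have e : σ q - q = -(2 * q) := by rw [hσq]; ring
  rw [e, Valuation.map_neg, map_mul, two_eq_one hw h2, hq, one_mul] at h
  exact lt_irrefl _ h

theorem sqrt_fixed [PerfectField k] [IsFractionRing k[X] K] [IsGalois K Ω] [IsSepClosed Ω] {w : ValuationSubring Ω}
    {π : k[X]} (hw : IsPlace K w π) (h2 : (2 : k) ≠ 0) {a b c : k} {x y : Ω}
    (hE : y ^ 2 = x ^ 3 + con k K Ω a * x ^ 2 + con k K Ω b * x + con k K Ω c -
      pol K Ω (X : k[X])) (hxI : ∀ σ : Ω ≃ₐ[K] Ω, InIne w σ → σ x = x)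
    (hyI : ∀ σ : Ω ≃ₐ[K] Ω, InIne w σ → σ y = y) {α s : Ω}
    (hα : α ^ 3 + con k K Ω a * α ^ 2 + con k K Ω b * α + con k K Ω c = pol K Ω (X : k[X]))
    (hs : s ^ 2 = x - α) {σ : Ω ≃ₐ[K] Ω} (hσ : InIne w σ) (hσα : σ α = α) : σ s = s := by
  set v := w.valuation with hv
  have hαw : α ∈ w := rt_mem hw hα
  have hα1 : v α ≤ 1 := (w.valuation_le_one_iff _).2 hαw
  have hσs2 : σ s ^ 2 = s ^ 2 := by rw [← map_pow, hs, map_sub, hxI σ hσ, hσα]
  by_contra hne
  have h : σ s = -s := (sq_eq_sq_iff_eq_or_eq_neg.1 hσs2).resolve_left hne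
  set g := x ^ 2 + x * α + α ^ 2 + con k K Ω a * (x + α) + con k K Ω b with hg
  have hyg : y ^ 2 = (x - α) * g := by
    rw [hg]
    linear_combination hE + hα
  by_cases hs0 : s = 0
  · -- `s = 0`, then `σ s = 0`
    exact hne (by rw [hs0, map_zero])
  have hxα : x - α ≠ 0 := by rw [← hs]; exact pow_ne_zero 2 hs0
  by_cases hx : x ∈ w
  · have hx1 : v x ≤ 1 := (w.valuation_le_one_iff _).2 hx
    have hgw : g ∈ w := by
      rw [hg, pow_two, pow_two]
      exact w.add_mem _ _ (w.add_mem _ _ (w.add_mem _ _ (w.add_mem _ _ (w.mul_mem _ _ hx hx)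
        (w.mul_mem _ _ hx hαw)) (w.mul_mem _ _ hαw hαw))
        (w.mul_mem _ _ (hw.mem (C a)) (w.add_mem _ _ hx hαw))) (hw.mem (C b))
    have hg1 : v g ≤ 1 := (w.valuation_le_one_iff _).2 hgw
    have hxα1 : v (x - α) ≤ 1 := (w.valuation_le_one_iff _).2 (w.sub_mem hx hαw)
    rcases hxα1.lt_or_eq with h3 | h3
    · rcases hg1.lt_or_eq with h4 | h4
      · -- both factors in the maximal ideal
        have hy1 : v y < 1 := by
          have : v y ^ 2 < 1 := by
            rw [← map_pow, hyg, map_mul]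
            exact mul_lt_one_of_lt_of_le h3 hg1
          exact (pow_lt_one_iff_of_nonneg zero_le two_ne_zero).1 this
        refine no_sing hw hE hx hxI hyI hy1 ?_
        have e : 3 * x ^ 2 + 2 * con k K Ω a * x + con k K Ω b =
            g + (x - α) * (2 * x + α + con k K Ω a) := by
          rw [hg]; ring
        rw [e]
        refine (Valuation.map_add _ _ _).trans_lt (max_lt h4 ?_)
        rw [map_mul]
        apply mul_lt_one_of_lt_of_le h3
        rw [w.valuation_le_one_iff]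
        refine w.add_mem _ _ (w.add_mem _ _ ?_ hαw) (hw.mem (C a))
        rw [two_mul]
        exact w.add_mem _ _ hx hx
      · -- `g` is a unit
        have hq : v (y / s) = 1 := by
          have : v (y / s) ^ 2 = 1 := by
            rw [← map_pow, div_pow, hyg, hs, mul_div_cancel_left₀ _ hxα, h4]
          exact (pow_eq_one_iff_of_nonneg zero_le two_ne_zero).1 this
        exact no_neg hw h2 hσ hq (by rw [map_div₀, h, hyI σ hσ, div_neg])
    · -- `x - α` is a unit
      have hq : v s = 1 := by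
        have : v s ^ 2 = 1 := by rw [← map_pow, hs, h3]
        exact (pow_eq_one_iff_of_nonneg zero_le two_ne_zero).1 this
      exact no_neg hw h2 hσ hq h
  · -- `x` has a pole
    have hx1 : 1 < v x := by
      rw [← not_le]; intro h3; exact hx ((w.valuation_le_one_iff _).1 h3)
    have hx0 : x ≠ 0 := by
      rintro rfl
      rw [map_zero] at hx1
      exact not_lt_zero hx1
    have h3 : v (x - α) = v x := by
      rw [sub_eq_add_neg]
      apply Valuation.map_add_eq_of_lt_left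
      rw [Valuation.map_neg]
      exact hα1.trans_lt hx1
    have h4 : v g = v x ^ 2 := by
      have e : g = x ^ 2 * (1 + (x⁻¹ * (α + con k K Ω a) + x⁻¹ * (x⁻¹ * (α ^ 2 +
          con k K Ω a * α + con k K Ω b)))) := by
        rw [hg]; field_simp; ring
      have hxi : v x⁻¹ < 1 := by
        rw [map_inv₀]; exact inv_lt_one_of_one_lt₀ hx1
      have hxiw : x⁻¹ ∈ w := (w.valuation_le_one_iff _).1 hxi.le
      have h5 : v (x⁻¹ * (α + con k K Ω a) + x⁻¹ * (x⁻¹ * (α ^ 2 +
          con k K Ω a * α + con k K Ω b))) < 1 := by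
        refine (Valuation.map_add _ _ _).trans_lt (max_lt ?_ ?_)
        · rw [map_mul]
          apply mul_lt_one_of_lt_of_le hxi
          rw [w.valuation_le_one_iff]
          exact w.add_mem _ _ hαw (hw.mem (C a))
        · rw [map_mul]
          apply mul_lt_one_of_lt_of_le hxi
          rw [w.valuation_le_one_iff, pow_two]
          exact w.mul_mem _ _ hxiw (w.add_mem _ _ (w.add_mem _ _ (w.mul_mem _ _ hαw hαw)
            (w.mul_mem _ _ (hw.mem (C a)) hαw)) (hw.mem (C b)))
      rw [e, map_mul, map_pow, v.map_one_add_of_lt h5, mul_one]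
    have h5 : v y ^ 2 = v x ^ 3 := by
      rw [← map_pow, hyg, map_mul, h3, h4, pow_succ' _ 2]
    have h6 : v s ^ 2 = v x := by rw [← map_pow, hs, h3]
    have hq : v (y / s ^ 3) = 1 := by
      have : v (y / s ^ 3) ^ 2 = 1 := by
        rw [map_div₀, map_pow, div_pow, h5, ← pow_mul, mul_comm 3 2, pow_mul, h6]
        exact div_self (pow_ne_zero 3 (by rw [ne_eq, map_eq_zero]; exact hx0))
      exact (pow_eq_one_iff_of_nonneg zero_le two_ne_zero).1 this
    exact no_neg hw h2 hσ hq (by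
      rw [map_div₀, map_pow, h, hyI σ hσ]
      rw [show (-s) ^ 3 = -(s ^ 3) by ring, div_neg])

end

end Run7.h615.EP
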