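import Pool.Agent.Run7.h615.EP.Defe
import Pool.Agent.Run7.h615.EP.Lc
import Pool.Agent.Run7.h615.EP.E1
import Pool.Agent.Run7.h615.EP.Fl

set_option autoImplicit false

/-!
The curve `y² = f(x) - t` and the three roots of `f(x) = t`.
-/

namespace Run7.h615.EP

open Polynomial WeierstrassCurve

section

variable {k K Ω : Type} [Field k] [Field K] [Algebra k[X] K] [Field Ω] [Algebra K Ω]

theorem isRt_cub {a b c : k} {x : Ω} : IsRt K (cub a b c) x ↔
    x ^ 3 + con k K Ω a * x ^ 2 + con k K Ω b * x + con k K Ω c = pol K Ω (X : k[X]) := by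
  rw [IsRt, cub]
  simp only [eval₂_add, eval₂_mul, eval₂_pow, eval₂_X, eval₂_C]

theorem cub_deg (a b c : k) : (cub a b c).natDegree = 3 := by
  rw [cub]; compute_degree!

theorem roots3 [IsFractionRing k[X] K] [IsSepClosed Ω] {a b c : k}
    (hf : derivative (cub a b c) ≠ 0) :
    ∃ α β γ : {x : Ω // IsRt K (cub a b c) x}, α ≠ β ∧ α ≠ γ ∧ β ≠ γ ∧
      ∀ x, x = α ∨ x = β ∨ x = γ := by
  obtain ⟨h1, h2⟩ := card_roots (K := K) (Ω := Ω) hf
  rw [cub_deg] at h2
  have := Fintype.ofFinite {x : Ω // IsRt K (cub a b c) x}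
  classical
  rw [Nat.card_eq_fintype_card, ← Finset.card_univ, Finset.card_eq_three] at h2
  obtain ⟨α, β, γ, h3, h4, h5, h6⟩ := h2
  refine ⟨α, β, γ, h3, h4, h5, fun x => ?_⟩
  have : x ∈ (Finset.univ : Finset {x : Ω // IsRt K (cub a b c) x}) := Finset.mem_univ x
  rw [h6] at this
  simpa using this

theorem vieta {A B D t α β γ : Ω} (h1 : α ^ 3 + A * α ^ 2 + B * α + D = t)
    (h2 : β ^ 3 + A * β ^ 2 + B * β + D = t) (h3 : γ ^ 3 + A * γ ^ 2 + B * γ + D = t)
    (h12 : α ≠ β) (h13 : α ≠ γ) (h23 : β ≠ γ) :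
    A = -(α + β + γ) ∧ B = α * β + β * γ + γ * α ∧ D - t = -(α * β * γ) := by
  have e1 : α ^ 2 + α * β + β ^ 2 + A * (α + β) + B = 0 := by
    have : (α - β) * (α ^ 2 + α * β + β ^ 2 + A * (α + β) + B) = 0 := by
      linear_combination h1 - h2
    exact (mul_eq_zero.1 this).resolve_left (sub_ne_zero.2 h12)
  have e2 : α ^ 2 + α * γ + γ ^ 2 + A * (α + γ) + B = 0 := by
    have : (α - γ) * (α ^ 2 + α * γ + γ ^ 2 + A * (α + γ) + B) = 0 := by
      linear_combination h1 - h3
    exact (mul_eq_zero.1 this).resolve_left (sub_ne_zero.2 h13)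
  have e3 : α + β + γ + A = 0 := by
    have : (β - γ) * (α + β + γ + A) = 0 := by
      linear_combination e1 - e2
    exact (mul_eq_zero.1 this).resolve_left (sub_ne_zero.2 h23)
  have hA : A = -(α + β + γ) := by linear_combination e3
  have hB : B = α * β + β * γ + γ * α := by
    rw [hA] at e1
    linear_combination e1
  refine ⟨hA, hB, ?_⟩
  rw [hA, hB] at h1
  linear_combination h1

theorem isF2 {a b c : k} (h2 : (2 : k) ≠ 0)
    {α β γ : {x : Ω // IsRt K (cub a b c) x}} (h12 : α ≠ β) (h13 : α ≠ γ) (h23 : β ≠ γ) :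
    IsF2 (Affine.baseChange (crv K a b c) Ω) (α : Ω) β γ := by
  have g12 : (α : Ω) ≠ β := fun h => h12 (Subtype.ext h)
  have g13 : (α : Ω) ≠ γ := fun h => h13 (Subtype.ext h)
  have g23 : (β : Ω) ≠ γ := fun h => h23 (Subtype.ext h)
  obtain ⟨hA, hB, hD⟩ := vieta (isRt_cub.1 α.2) (isRt_cub.1 β.2) (isRt_cub.1 γ.2) g12 g13 g23
  refine ⟨?_, ?_, ?_, ?_, ?_, ?_, g12, g23, g13.symm⟩
  · intro h
    apply h2
    have : con k K Ω 2 = con k K Ω 0 := by rw [map_zero, map_ofNat, h]
    exact (con k K Ω).injective this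
  · exact map_zero _
  · exact map_zero _
  · exact hA
  · exact hB
  · rw [← hD]
    show algebraMap K Ω (algebraMap k[X] K (C c - X)) = _
    rw [map_sub, map_sub]
    rfl

theorem eqn_cub {a b c : k} {x y : Ω} (h : (Affine.baseChange (crv K a b c) Ω).Equation x y) :
    y ^ 2 = x ^ 3 + con k K Ω a * x ^ 2 + con k K Ω b * x + con k K Ω c -
      pol K Ω (X : k[X]) := by
  rw [Affine.equation_iff] at h
  have e1 : (Affine.baseChange (crv K a b c) Ω).a₁ = 0 := map_zero _
  have e3 : (Affine.baseChange (crv K a b c) Ω).a₃ = 0 := map_zero _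
  have e2 : (Affine.baseChange (crv K a b c) Ω).a₂ = con k K Ω a := rfl
  have e4 : (Affine.baseChange (crv K a b c) Ω).a₄ = con k K Ω b := rfl
  have e6 : (Affine.baseChange (crv K a b c) Ω).a₆ = con k K Ω c - pol K Ω (X : k[X]) := by
    show algebraMap K Ω (algebraMap k[X] K (C c - X)) = _
    rw [map_sub, map_sub]
    rfl
  rw [e1, e2, e3, e4, e6] at h
  linear_combination h

end

end Run7.h615.EP
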