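import Pool.Agent.Run7.h615.EP.Gf

set_option autoImplicit false
set_option linter.unusedSectionVars false

/-!
Locally trivial classes over a normal subgroup of `ℓ`-power index vanish if the characters of order `ℓ`
of the stabiliser extend.
-/

namespace Run7.h615.EP

open MulAction

section

variable {G R : Type} [Group G] [MulAction G R] {ℓ : ℕ} [hℓ : Fact ℓ.Prime] [Fintype R]
variable {N U : Subgroup G} [hN : N.Normal] [hU : U.Normal] {T : Set (Set G)}

theorem card_ne (hd : ¬ ℓ ∣ Fintype.card R) : (Fintype.card R : ZMod ℓ) ≠ 0 := by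
  rw [ne_eq, ZMod.natCast_eq_zero_iff]; exact hd

theorem sum_const (a : ZMod ℓ) : ∑ _β : R, a = Fintype.card R * a := by
  rw [Finset.sum_const, Finset.card_univ, nsmul_eq_mul]

theorem uniq [IsPretransitive G R] [Nonempty R] (hd : ¬ ℓ ∣ Fintype.card R) {j : ℕ}
    (hj : N.index = ℓ ^ j) (v : R → ZMod ℓ) (hv : ∑ β, v β = 0) (h : ∀ a ∈ N, sh a v = v) :
    v = 0 := by
  obtain ⟨α⟩ := (inferInstance : Nonempty R)
  have h1 : ∀ β, v β = v α := by
    intro β
    obtain ⟨n, hn, hnβ⟩ := trans_N (N := N) hd hj β α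
    have := congrFun (h n hn) α
    rw [sh_apply, ← hnβ, inv_smul_smul] at this
    rw [this, hnβ]
  have h2 : (Fintype.card R : ZMod ℓ) * v α = 0 := by
    rw [← sum_const, ← hv]
    exact Finset.sum_congr rfl fun β _ => (h1 β).symm
  have h3 : v α = 0 := (mul_eq_zero.1 h2).resolve_left (card_ne hd)
  funext β
  rw [h1, h3]; rfl

theorem gt [IsPretransitive G R] (α : R) (hd : ¬ ℓ ∣ Fintype.card R)
    (hT : ∀ i ∈ T, ∀ g : G, ∃ i' ∈ T, ∀ a ∈ i, g⁻¹ * a * g ∈ i') (hTN : ∀ i ∈ T, ∀ a ∈ i, a ∈ N)
    [U.FiniteIndex] (hUN : U ≤ N) {j : ℕ} (hj : N.index = ℓ ^ j)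
    (hal : ∀ χ : G → ZMod ℓ, (∀ a b, a • α = α → b • α = α → χ (a * b) = χ a + χ b) →
      (∀ a ∈ U, a • α = α → χ a = 0) → (∀ i ∈ T, ∀ a ∈ i, a • α = α → χ a = 0) →
      ∃ ψ : G → ZMod ℓ, (∀ a b, ψ (a * b) = ψ a + ψ b) ∧ ∀ a, a • α = α → ψ a = χ a)
    {c : G → R → ZMod ℓ} (hc : c ∈ Coc ℓ N U T) : c ∈ Cob ℓ N := by
  have hne : Nonempty R := ⟨α⟩
  by_contra hc2
  obtain ⟨d, hd1, hd2, hd3⟩ := exists_inv hT hUN hj hc hc2
  obtain ⟨k1, k2, k3, k4, k5⟩ := hd1
  choose v hv0 hv using hd3
  have hv' : ∀ g, ∀ a ∈ N, sh g (d (g⁻¹ * a * g)) = d a + (sh a (v g) - v g) := by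
    intro g a ha
    have := hv g a ha
    rw [Pi.sub_apply] at this
    rw [← this]
    show cj g d a = _
    abel
  have hconj : ∀ g a, a ∈ N → g⁻¹ * a * g ∈ N := fun g a ha => by
    have := hN.conj_mem _ ha g⁻¹
    rwa [inv_inv] at this
  -- `v` extends `d`
  have hvd : ∀ g ∈ N, v g = d g := by
    intro g hg
    have h1 : v g - d g = 0 := by
      apply uniq (N := N) hd hj
      · simp only [Pi.sub_apply, Finset.sum_sub_distrib]
        rw [hv0, k3, sub_zero]
      · intro a ha
        have e1 : d (a * g) = d a + sh a (d g) := k2 a ha g hg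
        have e2 : d (a * g) = d g + sh g (d (g⁻¹ * a * g)) := by
          rw [← k2 g hg _ (hconj g a ha)]
          congr 1
          group
        rw [hv' g a ha] at e2
        rw [e1] at e2
        rw [sh_sub]
        have e3 : sh a (d g) = d g + (sh a (v g) - v g) := by
          have : d a + sh a (d g) = d a + (d g + (sh a (v g) - v g)) := by rw [e2]; abel
          exact add_left_cancel this
        rw [e3]; abel
    exact sub_eq_zero.1 h1
  have hvmul : ∀ g h, v (g * h) = v g + sh g (v h) := by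
    intro g h
    have h1 : v (g * h) - (v g + sh g (v h)) = 0 := by
      apply uniq (N := N) hd hj
      · simp only [Pi.sub_apply, Pi.add_apply, Finset.sum_sub_distrib, Finset.sum_add_distrib]
        rw [hv0, hv0, sh_sum, hv0, add_zero, sub_zero]
      · intro a ha
        have e1 := hv' (g * h) a ha
        have e2 := hv' g a ha
        have e3 := hv' h (g⁻¹ * a * g) (hconj g a ha)
        have e4 : (g * h)⁻¹ * a * (g * h) = h⁻¹ * (g⁻¹ * a * g) * h := by group
        have e5 : g * (g⁻¹ * a * g) = a * g := by group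
        rw [e4, sh_mul, e3, sh_add, e2, sh_sub, ← sh_mul, e5, sh_mul] at e1
        rw [sh_sub, sh_add]
        have e6 : sh a (v g) - v g + (sh a (sh g (v h)) - sh g (v h)) =
            sh a (v (g * h)) - v (g * h) := by
          have : d a + (sh a (v g) - v g + (sh a (sh g (v h)) - sh g (v h))) =
            d a + (sh a (v (g * h)) - v (g * h)) := by rw [← e1]; abel
          exact add_left_cancel this
        have e7 : sh a (v (g * h)) = sh a (v g) - v g + (sh a (sh g (v h)) - sh g (v h)) +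
          v (g * h) := by rw [e6]; abel
        rw [e7]; abel
    exact sub_eq_zero.1 h1
  obtain ⟨ψ, hψ, hψα⟩ := hal (fun g => v g α) (fun a b ha hb => by
      show v (a * b) α = v a α + v b α
      rw [hvmul, Pi.add_apply, sh_apply]
      have : a⁻¹ • α = α := by rw [inv_smul_eq_iff, ha]
      rw [this]) (fun a ha _ => by
      show v a α = 0
      rw [hvd a (hUN ha), k4 a ha]; rfl) (fun i hi a ha haα => by
      show v a α = 0
      obtain ⟨w, hw, hw'⟩ := k5 i hi
      rw [hvd a (hTN i hi a ha), hw' a ha, Pi.sub_apply, sh_apply]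
      have : a⁻¹ • α = α := by rw [inv_smul_eq_iff, haα]
      rw [this, sub_self])
  -- subtract the constant function
  set c1 : G → R → ZMod ℓ := fun g β => v g β - ψ g with hc1
  have hc1mul : ∀ g h β, c1 (g * h) β = c1 g β + c1 h (g⁻¹ • β) := by
    intro g h β
    simp only [hc1]
    rw [hvmul, hψ, Pi.add_apply, sh_apply]
    ring
  have hc1α : ∀ g, g • α = α → c1 g α = 0 := by
    intro g hg
    simp only [hc1]
    rw [hψα g hg, sub_self]
  choose p hp using fun β : R => exists_smul_eq G α β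
  set u : R → ZMod ℓ := fun β => - c1 (p β) β with hu
  have hcu : ∀ g β, c1 g β = u (g⁻¹ • β) - u β := by
    intro g β
    have h1 : c1 (g * p (g⁻¹ • β)) β = c1 (p β) β := by
      have e : g * p (g⁻¹ • β) = p β * ((p β)⁻¹ * (g * p (g⁻¹ • β))) := by group
      have hfix : ((p β)⁻¹ * (g * p (g⁻¹ • β))) • α = α := by
        rw [mul_smul, mul_smul, hp, smul_inv_smul, inv_smul_eq_iff, hp]
      rw [e, hc1mul]
      have : (p β)⁻¹ • β = α := by rw [inv_smul_eq_iff, hp]
      rw [this, hc1α _ hfix, add_zero]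
    rw [hc1mul] at h1
    simp only [hu]
    linear_combination h1
  have hψ0 : ∀ g, ψ g = 0 := by
    intro g
    have h1 : ∑ β, c1 g β = - (Fintype.card R * ψ g) := by
      simp only [hc1, Finset.sum_sub_distrib]
      rw [hv0, sum_const, zero_sub]
    have h2 : ∑ β, c1 g β = 0 := by
      have h3 : ∀ β, c1 g β = sh g u β - u β := fun β => hcu g β
      rw [Finset.sum_congr rfl fun β _ => h3 β, Finset.sum_sub_distrib, sh_sum, sub_self]
    rw [h1, neg_eq_zero] at h2
    exact (mul_eq_zero.1 h2).resolve_left (card_ne hd)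
  have hvu : ∀ g, v g = sh g u - u := by
    intro g
    funext β
    have := hcu g β
    simp only [hc1, hψ0, sub_zero] at this
    rw [this]; rfl
  apply hd2
  refine ⟨fun β => u β - (∑ γ, u γ) / Fintype.card R, ?_, ?_⟩
  · rw [Finset.sum_sub_distrib, sum_const, mul_div_cancel₀ _ (card_ne hd), sub_self]
  · intro a ha
    rw [← hvd a ha, hvu]
    funext β
    simp only [Pi.sub_apply, sh_apply]
    ring

end

end Run7.h615.EP
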