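import Pool.Agent.Run7.h615.EP.Defm
import Pool.Agent.Run7.h615.EP.Ag
import Pool.Agent.Run7.h615.EP.Gh

set_option autoImplicit false

/-!
The general theorem: the `lam`-Selmer group vanishes over all Galois extensions of `ℓ`-power degree
which are unramified at the finite places with more than one place above them.
-/

namespace Run7.h615.EP

open Polynomial

section

variable {k K Ω : Type} [Field k] [Field K] [Algebra k[X] K] [Field Ω] [Algebra K Ω]

theorem isRt_map {f : k[X]} {x : Ω} (h : IsRt K f x) (σ : Ω ≃ₐ[K] Ω) : IsRt K f (σ x) := by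
  have h1 : ((σ : Ω →+* Ω)).comp (con k K Ω) = con k K Ω := by
    ext a
    exact σ.commutes _
  have h2 := congrArg (σ : Ω →+* Ω) h
  rw [hom_eval₂, h1] at h2
  have h3 : (σ : Ω →+* Ω) (pol K Ω (X : k[X])) = pol K Ω (X : k[X]) := σ.commutes _
  rw [h3] at h2
  exact h2

/-- the action on the roots -/
noncomputable instance actR (f : k[X]) : MulAction (Ω ≃ₐ[K] Ω) {x : Ω // IsRt K f x} where
  smul σ x := ⟨σ x.1, isRt_map x.2 σ⟩
  one_smul _ := rfl
  mul_smul _ _ _ := rfl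

theorem index_eq [IsGalois K Ω] (L : IntermediateField K Ω) [FiniteDimensional K L]
    [IsGalois K L] : L.fixingSubgroup.index = Module.finrank K L := by
  rw [← IntermediateField.restrictNormalHom_ker, Subgroup.index_ker,
    MonoidHom.range_eq_top.2 (AlgEquiv.restrictNormalHom_surjective (F := K) (K₁ := L) Ω),
    ← IsGalois.card_aut_eq_finrank K L]
  exact Nat.card_congr (Equiv.Set.univ _)

theorem ine_conj {w : ValuationSubring Ω} {π : k[X]} (hw : IsPlace K w π) (g : Ω ≃ₐ[K] Ω) :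
    ∃ w' : ValuationSubring Ω, IsPlace K w' π ∧
      ∀ a : Ω ≃ₐ[K] Ω, InIne w a → InIne w' (g⁻¹ * a * g) := by
  refine ⟨w.comap (g : Ω →+* Ω), ⟨hw.irr, fun p => ?_, fun p => ?_⟩, ?_⟩
  · rw [ValuationSubring.mem_comap]
    have : (g : Ω →+* Ω) (pol K Ω p) = pol K Ω p := g.commutes _
    rw [this]
    exact hw.mem p
  · rw [Pool.Agent.H639R3.comap_val_lt_one]
    have : (g : Ω →+* Ω) (pol K Ω p) = pol K Ω p := g.commutes _
    rw [this]
    exact hw.center p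
  · rintro a ⟨h1, h2⟩
    have hg : ∀ x, g ((g⁻¹ * a * g) x) = a (g x) := by
      intro x
      show g (g⁻¹ (a (g x))) = a (g x)
      exact AlgEquiv.apply_symm_apply g _
    refine ⟨fun x => ?_, fun x hx => ?_⟩
    · rw [ValuationSubring.mem_comap, ValuationSubring.mem_comap]
      show g x ∈ w ↔ g ((g⁻¹ * a * g) x) ∈ w
      rw [hg]
      exact h1 _
    · rw [Pool.Agent.H639R3.comap_val_lt_one, map_sub]
      show w.valuation (g ((g⁻¹ * a * g) x) - g x) < 1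
      rw [hg]
      exact h2 _ hx

variable {M : Type} [AddCommGroup M] [DistribMulAction (Ω ≃ₐ[K] Ω) M]

theorem IsKerIso.zero {f : k[X]} {ℓ : ℕ} {lam : M →+ M} {e : M → {x : Ω // IsRt K f x} → ZMod ℓ}
    (he : IsKerIso f ℓ lam e) : e 0 = 0 := by
  have := he.add 0 0 (map_zero _) (map_zero _)
  rw [add_zero] at this
  exact (add_eq_left.1 this.symm)

theorem IsKerIso.sub {f : k[X]} {ℓ : ℕ} {lam : M →+ M} {e : M → {x : Ω // IsRt K f x} → ZMod ℓ}
    (he : IsKerIso f ℓ lam e) {a b : M} (ha : lam a = 0) (hb : lam b = 0) :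
    e (a - b) = e a - e b := by
  have := he.add (a - b) b (by rw [map_sub, ha, hb, sub_zero]) hb
  rw [sub_add_cancel] at this
  rw [this, add_sub_cancel_right]

theorem IsKerIso.sh {f : k[X]} {ℓ : ℕ} {lam : M →+ M} {e : M → {x : Ω // IsRt K f x} → ZMod ℓ}
    (he : IsKerIso f ℓ lam e) (σ : Ω ≃ₐ[K] Ω) (a : M) (ha : lam a = 0) :
    e (σ • a) = Run7.h615.EP.sh σ (e a) := by
  funext β
  rw [sh_apply]
  exact he.act σ a ha (σ⁻¹ • β) β (AlgEquiv.apply_symm_apply σ _)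

theorem IsKerIso.sum {f : k[X]} {ℓ : ℕ} {lam : M →+ M} {e : M → {x : Ω // IsRt K f x} → ZMod ℓ}
    (he : IsKerIso f ℓ lam e) [Fintype {x : Ω // IsRt K f x}] (a : M) (ha : lam a = 0) :
    ∑ β, e a β = 0 := by
  rw [← finsum_eq_sum_of_fintype]
  exact (he.range (e a)).1 ⟨a, ha, rfl⟩

/-- the inertia groups which matter -/
def TT (K Ω : Type) {k : Type} [Field k] [Field K] [Algebra k[X] K] [Field Ω] [Algebra K Ω]
    (f : k[X]) : Set (Set (Ω ≃ₐ[K] Ω)) :=
  {i | ∃ (w : ValuationSubring Ω) (π : k[X]), IsPlace K w π ∧ ¬ OneAbove f π ∧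
    i = {σ | InIne w σ}}

theorem sm_coe {f : k[X]} (σ : Ω ≃ₐ[K] Ω) (x : {x : Ω // IsRt K f x}) :
    ((σ • x : {x : Ω // IsRt K f x}) : Ω) = σ x := rfl

theorem sm_fix {f : k[X]} (σ : Ω ≃ₐ[K] Ω) (x : {x : Ω // IsRt K f x}) :
    σ • x = x ↔ σ (x : Ω) = x := by rw [Subtype.ext_iff, sm_coe]

theorem exists_root [IsFractionRing k[X] K] [IsSepClosure K Ω] {f : k[X]}
    (hf : derivative f ≠ 0) [Fintype {x : Ω // IsRt K f x}] :
    Fintype.card {x : Ω // IsRt K f x} = f.natDegree := by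
  have hsc : IsSepClosed Ω := IsSepClosure.sep_closed K
  obtain ⟨hfin, hcard⟩ := card_roots (K := K) (Ω := Ω) hf
  rw [Nat.card_eq_fintype_card] at hcard
  exact hcard

/-- the core: classes with values in the functions of sum zero on the roots -/
theorem coreV [PerfectField k] [IsFractionRing k[X] K] [IsSepClosure K Ω] (f : k[X])
    (hf : derivative f ≠ 0) {ℓ : ℕ} [hℓ : Fact ℓ.Prime] (ζ : k) (hζ : IsPrimitiveRoot ζ ℓ)
    (hd : ¬ ℓ ∣ f.natDegree) [Fintype {x : Ω // IsRt K f x}]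
    (L : IntermediateField K Ω) [FiniteDimensional K L] [IsGalois K L] {j : ℕ}
    (hL : Module.finrank K L = ℓ ^ j) (hu : IsUnram f L) {U : Subgroup (Ω ≃ₐ[K] Ω)} [U.Normal]
    [U.FiniteIndex] (hUN : U ≤ L.fixingSubgroup) {S : Set Ω} (hSf : S.Finite)
    (hS : ∀ σ : Ω ≃ₐ[K] Ω, (∀ x ∈ S, σ x = x) → σ ∈ U)
    {c : (Ω ≃ₐ[K] Ω) → {x : Ω // IsRt K f x} → ZMod ℓ}
    (hc : c ∈ Coc ℓ L.fixingSubgroup U (TT K Ω f)) : c ∈ Cob ℓ L.fixingSubgroup := by
  have hsc : IsSepClosed Ω := IsSepClosure.sep_closed K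
  have hgal : IsGalois K Ω := inferInstance
  have hcard := exists_root (K := K) (Ω := Ω) hf
  have hdeg : f.natDegree ≠ 0 := fun h => hd (by rw [h]; exact dvd_zero ℓ)
  obtain ⟨α⟩ : Nonempty {x : Ω // IsRt K f x} := by
    rw [← Fintype.card_pos_iff, hcard]; exact Nat.pos_of_ne_zero hdeg
  have hpre : MulAction.IsPretransitive (Ω ≃ₐ[K] Ω) {x : Ω // IsRt K f x} := ⟨fun x y => by
    obtain ⟨σ, hσ⟩ := exists_aut_root hdeg x.2 y.2
    exact ⟨σ, Subtype.ext hσ⟩⟩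
  have hNn : L.fixingSubgroup.Normal := inferInstance
  have hT : ∀ i ∈ TT K Ω f, ∀ g : Ω ≃ₐ[K] Ω, ∃ i' ∈ TT K Ω f, ∀ a ∈ i, g⁻¹ * a * g ∈ i' := by
    rintro i ⟨w, π, hw, hπ, rfl⟩ g
    obtain ⟨w', hw', h⟩ := ine_conj hw g
    exact ⟨_, ⟨w', π, hw', hπ, rfl⟩, fun a ha => h a ha⟩
  have hTN : ∀ i ∈ TT K Ω f, ∀ a ∈ i, a ∈ L.fixingSubgroup := by
    rintro i ⟨w, π, hw, hπ, rfl⟩ a ha
    exact (IntermediateField.mem_fixingSubgroup_iff _ _).2 fun x hx => hu w π hw hπ a ha x hx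
  refine gt α (by rw [hcard]; exact hd) hT hTN hUN ((index_eq L).trans hL) ?_ hc
  intro χ hχ1 hχ2 hχ3
  have hfS' : Finite S := hSf
  obtain ⟨ψ, h1, h2⟩ := al_G f hdeg ζ hζ hd α.2 χ
    (fun a b ha hb => hχ1 a b ((sm_fix a α).2 ha) ((sm_fix b α).2 hb)) S
    (fun σ h1 h2 => hχ2 σ (hS σ h1) ((sm_fix σ α).2 h2))
    (fun w π hw hπ σ hσ hσα => hχ3 _ ⟨w, π, hw, hπ, rfl⟩ σ hσ ((sm_fix σ α).2 hσα))
  exact ⟨ψ, h1, fun a ha => h2 a ((sm_fix a α).1 ha)⟩

/-- an open normal subgroup which fixes finitely many elements and a finite extension -/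
theorem exists_open [IsGalois K Ω] (S : Set Ω) (hSf : S.Finite) (L : IntermediateField K Ω)
    [FiniteDimensional K L] : ∃ U : Subgroup (Ω ≃ₐ[K] Ω), U.Normal ∧ U.FiniteIndex ∧
      U ≤ L.fixingSubgroup ∧ (∀ σ ∈ U, ∀ x ∈ S, σ x = x) ∧
      ∃ S' : Set Ω, S'.Finite ∧ ∀ σ : Ω ≃ₐ[K] Ω, (∀ x ∈ S', σ x = x) → σ ∈ U := by
  let E1 : IntermediateField K Ω := IntermediateField.adjoin K S ⊔ L
  have : Finite S := hSf
  have hE1a : FiniteDimensional K (IntermediateField.adjoin K S) :=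
    IntermediateField.finiteDimensional_adjoin fun x _ => Algebra.IsIntegral.isIntegral x
  have hE1 : FiniteDimensional K E1 := IntermediateField.finiteDimensional_sup _ _
  let E0 : IntermediateField K Ω := IntermediateField.normalClosure K E1 Ω
  have hE0fd : FiniteDimensional K E0 := normalClosure.is_finiteDimensional K E1 Ω
  have hE0n : Normal K E0 := normalClosure.normal K E1 Ω
  have hE10 : E1 ≤ E0 := IntermediateField.le_normalClosure E1
  have hE0g : IsGalois K E0 := {}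
  refine ⟨E0.fixingSubgroup, inferInstance, ⟨by rw [index_eq]; exact Module.finrank_pos.ne'⟩,
    ?_, ?_, ?_⟩
  · intro σ hσ
    rw [IntermediateField.mem_fixingSubgroup_iff] at hσ ⊢
    exact fun x hx => hσ x (hE10 (le_sup_right (a := IntermediateField.adjoin K S) hx))
  · intro σ hσ x hx
    have hσ' := (IntermediateField.mem_fixingSubgroup_iff _ _).1 hσ
    exact hσ' x (hE10 (le_sup_left (b := L) (IntermediateField.subset_adjoin K S hx)))
  · let b := Module.finBasis K E0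
    let S' : Set Ω := Set.range fun i => ((b i : E0) : Ω)
    refine ⟨S', Set.finite_range _, fun σ hσ => ?_⟩
    refine (IntermediateField.mem_fixingSubgroup_iff _ _).2 fun x hx => ?_
    have h1 := b.sum_repr ⟨x, hx⟩
    have h2 := congrArg (fun y : E0 => (y : Ω)) h1
    simp only [IntermediateField.coe_sum, IntermediateField.coe_smul] at h2
    rw [← h2, map_sum]
    refine Finset.sum_congr rfl fun i _ => ?_
    rw [map_smul, hσ _ ⟨i, rfl⟩]

/-- the core: `ℓ`-torsion classes -/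
theorem core [PerfectField k] [IsFractionRing k[X] K] [IsSepClosure K Ω] (f : k[X])
    (hf : derivative f ≠ 0) {ℓ : ℕ} [hℓ : Fact ℓ.Prime] (ζ : k) (hζ : IsPrimitiveRoot ζ ℓ)
    (hd : ¬ ℓ ∣ f.natDegree) {lam : M →+ M} (hM : IsMod (K := K) (Ω := Ω) f ℓ lam)
    (L : IntermediateField K Ω) [FiniteDimensional K L] [IsGalois K L] {j : ℕ}
    (hL : Module.finrank K L = ℓ ^ j) (hu : IsUnram f L) (c : (Ω ≃ₐ[K] Ω) → M)
    (hc1 : ∀ σ ∈ L.fixingSubgroup, ∀ τ ∈ L.fixingSubgroup, c (σ * τ) = c σ + σ • c τ)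
    (hc2 : ∀ σ ∈ L.fixingSubgroup, lam (c σ) = 0) (S : Set Ω) (hSf : S.Finite)
    (hS : ∀ σ ∈ L.fixingSubgroup, (∀ x ∈ S, σ x = x) → c σ = 0)
    (hloc : ∀ (w : ValuationSubring Ω) (π : k[X]), IsPlace K w π → ¬ OneAbove f π →
      ∃ p : M, (∀ σ : Ω ≃ₐ[K] Ω, InIne w σ → σ • lam p = lam p) ∧
        ∀ σ : Ω ≃ₐ[K] Ω, InIne w σ → c σ = σ • p - p) :
    ∃ m : M, lam m = 0 ∧ ∀ σ ∈ L.fixingSubgroup, c σ = σ • m - m := by
  classical
  have hsc : IsSepClosed Ω := IsSepClosure.sep_closed K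
  have hgal : IsGalois K Ω := inferInstance
  obtain ⟨hfin, -⟩ := card_roots (K := K) (Ω := Ω) hf
  have := Fintype.ofFinite {x : Ω // IsRt K f x}
  obtain ⟨e, he⟩ := hM.ker
  have hesh : ∀ (σ : Ω ≃ₐ[K] Ω) (a : M), lam a = 0 → e (σ • a) = sh σ (e a) :=
    fun σ a ha => he.sh σ a ha
  have hesum : ∀ a : M, lam a = 0 → ∑ β, e a β = 0 := fun a ha => he.sum a ha
  obtain ⟨U, hUn, hUf, hUN, hUS, S', hS'f, hS'⟩ := exists_open S hSf L
  let N : Subgroup (Ω ≃ₐ[K] Ω) := L.fixingSubgroup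
  have hNn : N.Normal := inferInstanceAs L.fixingSubgroup.Normal
  -- the cocycle
  let c' : (Ω ≃ₐ[K] Ω) → {x : Ω // IsRt K f x} → ZMod ℓ := fun σ => if σ ∈ N then e (c σ) else 0
  have hc'N : ∀ σ ∈ N, c' σ = e (c σ) := fun σ hσ => if_pos hσ
  have hc' : c' ∈ Coc ℓ N U (TT K Ω f) := by
    refine ⟨fun a ha => if_neg ha, fun a ha b hb => ?_, fun a => ?_, fun a ha => ?_,
      fun i hi => ?_⟩
    · rw [hc'N _ (N.mul_mem ha hb), hc'N a ha, hc'N b hb, hc1 a ha b hb,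
        he.add _ _ (hc2 a ha) (by rw [hM.equiv, hc2 b hb, smul_zero]), hesh a _ (hc2 b hb)]
    · by_cases ha : a ∈ N
      · rw [hc'N a ha]; exact hesum _ (hc2 a ha)
      · have : c' a = 0 := if_neg ha
        rw [this]
        simp
    · rw [hc'N a (hUN ha), hS a (hUN ha) (hUS a ha), he.zero]
    · obtain ⟨w, π, hw, hπ, rfl⟩ := hi
      obtain ⟨p, hp1, hp2⟩ := hloc w π hw hπ
      obtain ⟨p', hp'1, hp'2⟩ := hM.div w π hw hπ (lam p) hp1
      have hq : lam (p - p') = 0 := by rw [map_sub, hp'2, sub_self]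
      refine ⟨e (p - p'), hesum _ hq, fun a ha => ?_⟩
      have h1 : c a = a • (p - p') - (p - p') := by
        rw [hp2 a ha, smul_sub, hp'1 a ha]
        abel
      have haN : a ∈ N :=
        (IntermediateField.mem_fixingSubgroup_iff _ _).2 fun x hx => hu w π hw hπ a ha x hx
      rw [hc'N _ haN, h1, he.sub (by rw [hM.equiv, hq, smul_zero]) hq, hesh a _ hq]
  obtain ⟨v, hv0, hv⟩ := coreV f hf ζ hζ hd L hL hu hUN hS'f hS' hc'
  obtain ⟨m, hm0, hm⟩ := (he.range v).2 (by rw [finsum_eq_sum_of_fintype]; exact hv0)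
  refine ⟨m, hm0, fun σ hσ => ?_⟩
  have h1 : lam (σ • m - m) = 0 := by rw [map_sub, hM.equiv, hm0, smul_zero, sub_zero]
  have h2 : e (c σ - (σ • m - m)) = 0 := by
    rw [he.sub (hc2 σ hσ) h1, he.sub (by rw [hM.equiv, hm0, smul_zero]) hm0, hesh σ m hm0, hm,
      ← hv σ hσ, hc'N σ hσ, sub_self]
  exact sub_eq_zero.1 (he.inj _ (by rw [map_sub, hc2 σ hσ, h1, sub_zero]) h2)

end

end Run7.h615.EP
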