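import Pool.Agent.Run7.h615.EP.E2
import Pool.Agent.Run7.h615.EP.Md

set_option autoImplicit false

/-!
Points fixed by an inertia group are divisible by two among such points.
-/

namespace Run7.h615.EP

open Polynomial WeierstrassCurve

theorem choice {G R S : Type} [Group G] [MulAction G R] [MulAction G S] (P : R → S → Prop)
    (h1 : ∀ r, ∃ s, P r s ∧ ∀ g : G, g • r = r → g • s = s)
    (h2 : ∀ r s, ∀ g : G, P r s → P (g • r) (g • s)) :
    ∃ f : R → S, (∀ r, P r (f r)) ∧ ∀ (g : G) (r : R), f (g • r) = g • f r := by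
  choose s hs1 hs2 using h1
  let rep : R → R := fun r => (Quotient.mk (MulAction.orbitRel G R) r).out
  have h : ∀ r, ∃ g : G, g • rep r = r := by
    intro r
    have h3 : (MulAction.orbitRel G R) r (rep r) :=
      (MulAction.orbitRel G R).symm (Quotient.mk_out (s := MulAction.orbitRel G R) r)
    exact h3
  choose τ hτ using h
  have hrep : ∀ (g : G) (r : R), rep (g • r) = rep r := by
    intro g r
    have : (Quotient.mk (MulAction.orbitRel G R) (g • r)) = Quotient.mk (MulAction.orbitRel G R) r :=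
      Quotient.sound ⟨g, rfl⟩
    show (Quotient.mk (MulAction.orbitRel G R) (g • r)).out = _
    rw [this]
  refine ⟨fun r => τ r • s (rep r), fun r => ?_, fun g r => ?_⟩
  · have := h2 _ _ (τ r) (hs1 (rep r))
    rwa [hτ] at this
  · show τ (g • r) • s (rep (g • r)) = g • τ r • s (rep r)
    rw [hrep]
    have h3 : (τ (g • r))⁻¹ • g • τ r • rep r = rep r := by
      rw [hτ, inv_smul_eq_iff]
      have := hτ (g • r)
      rw [hrep] at this
      exact this.symm
    have h4 := hs2 (rep r) ((τ (g • r))⁻¹ * g * τ r) (by rw [mul_smul, mul_smul]; exact h3)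
    rw [mul_smul, mul_smul, inv_smul_eq_iff] at h4
    exact h4.symm

section

variable {k K Ω : Type} [Field k] [Field K] [Algebra k[X] K] [Field Ω] [Algebra K Ω]

/-- the inertia group as a subgroup -/
def ine (w : ValuationSubring Ω) : Subgroup (Ω ≃ₐ[K] Ω) where
  carrier := {σ | InIne w σ}
  one_mem' := ⟨fun _ => Iff.rfl, fun a _ => by
    show w.valuation (a - a) < 1
    rw [sub_self, map_zero]
    exact zero_lt_one⟩
  mul_mem' := by
    intro σ τ hσ hτ
    refine ⟨fun a => (hτ.1 a).trans (hσ.1 _), fun a ha => ?_⟩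
    have h1 := hσ.2 (τ a) ((hτ.1 a).1 ha)
    have h2 := hτ.2 a ha
    have e : (σ * τ) a - a = (σ (τ a) - τ a) + (τ a - a) := by
      show σ (τ a) - a = _
      ring
    rw [e]
    exact (Valuation.map_add _ _ _).trans_lt (max_lt h1 h2)
  inv_mem' := by
    intro σ hσ
    have h0 : ∀ a, σ (σ⁻¹ a) = a := AlgEquiv.apply_symm_apply σ
    refine ⟨fun a => ?_, fun a ha => ?_⟩
    · have := hσ.1 (σ⁻¹ a)
      rw [h0] at this
      exact this.symm
    · have h1 : σ⁻¹ a ∈ w := (hσ.1 _).2 (by rw [h0]; exact ha)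
      have h2 := hσ.2 _ h1
      rw [h0] at h2
      rw [← Valuation.map_neg, neg_sub]
      exact h2

theorem divAt [PerfectField k] [IsFractionRing k[X] K] [IsGalois K Ω] [IsSepClosed Ω] [DecidableEq Ω]
    {w : ValuationSubring Ω} {π : k[X]} (hw : IsPlace K w π) (h2 : (2 : k) ≠ 0) {a b c : k}
    (hf : derivative (cub a b c) ≠ 0) : DivAt K w (mulTwo K Ω a b c) := by
  intro P hP
  rcases P with _ | ⟨x, y, hn⟩
  · exact ⟨0, fun σ _ => smul_zero σ, by rw [map_zero]; rfl⟩
  have hxI : ∀ σ : Ω ≃ₐ[K] Ω, InIne w σ → σ x = x := fun σ hσ =>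
    (Affine.Point.some.inj (hP σ hσ)).1
  have hyI : ∀ σ : Ω ≃ₐ[K] Ω, InIne w σ → σ y = y := fun σ hσ =>
    (Affine.Point.some.inj (hP σ hσ)).2
  have hE := eqn_cub hn.1
  let _ : MulAction (Ω ≃ₐ[K] Ω) {x : Ω // IsRt K (cub a b c) x} := actR (cub a b c)
  have h2Ω : (2 : Ω) ≠ 0 := by
    intro h
    apply h2
    have : con k K Ω 2 = con k K Ω 0 := by rw [map_zero, map_ofNat, h]
    exact (con k K Ω).injective this
  obtain ⟨s, hs1, hs2⟩ := choice (G := ine (K := K) w) (R := {x : Ω // IsRt K (cub a b c) x})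
    (S := Ω) (fun r s => s ^ 2 = x - r) (fun r => by
      have : NeZero (2 : Ω) := ⟨h2Ω⟩
      obtain ⟨z, hz⟩ := IsSepClosed.exists_eq_mul_self (x - (r : Ω))
      rw [← pow_two] at hz
      refine ⟨z, hz.symm, fun g hg => ?_⟩
      exact sqrt_fixed hw h2 hE hxI hyI (isRt_cub.1 r.2) hz.symm g.2 (congrArg Subtype.val hg))
    (fun r s g h => by
      show ((g : Ω ≃ₐ[K] Ω) s) ^ 2 = x - (g : Ω ≃ₐ[K] Ω) r
      rw [← map_pow, h, map_sub, hxI _ g.2])
  obtain ⟨α, β, γ, h12, h13, h23, hall⟩ := roots3 (K := K) (Ω := Ω) hf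
  have hF := isF2 h2 h12 h13 h23
  have hprod2 : (s α * s β * s γ) ^ 2 = y ^ 2 := by
    rw [(hF.eqn x y).1 hn.1, mul_pow, mul_pow, hs1, hs1, hs1]
  -- the sign
  obtain ⟨s, hs1, hs2, hY⟩ : ∃ s : {x : Ω // IsRt K (cub a b c) x} → Ω, (∀ r, s r ^ 2 = x - r) ∧
      (∀ (g : ine (K := K) w) r, s (g • r) = g • s r) ∧ s α * s β * s γ = y := by
    rcases sq_eq_sq_iff_eq_or_eq_neg.1 hprod2 with h | h
    · exact ⟨s, hs1, hs2, h⟩
    · refine ⟨fun r => - s r, fun r => by rw [neg_sq, hs1], fun g r => ?_, ?_⟩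
      · show - s (g • r) = g • (- s r)
        rw [hs2, smul_neg]
      · show -s α * -s β * -s γ = y
        linear_combination -h
  obtain ⟨hQ, hQ2⟩ := hF.half (hs1 α) (hs1 β) (hs1 γ) hY hn
  have hfin := (card_roots (K := K) (Ω := Ω) hf).1
  have := Fintype.ofFinite {x : Ω // IsRt K (cub a b c) x}
  have huniv : (Finset.univ : Finset {x : Ω // IsRt K (cub a b c) x}) = {α, β, γ} := by
    ext r
    simp only [Finset.mem_univ, Finset.mem_insert, Finset.mem_singleton, true_iff]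
    exact hall r
  have hsum : ∑ r, s r = s α + s β + s γ := by
    rw [huniv, Finset.sum_insert (by simp [h12, h13]), Finset.sum_insert (by simp [h23]),
      Finset.sum_singleton, add_assoc]
  have hl : ∀ σ : Ω ≃ₐ[K] Ω, InIne w σ → σ (s α + s β + s γ) = s α + s β + s γ := by
    intro σ hσ
    rw [← hsum, map_sum]
    have : ∀ r, σ (s r) = s (MulAction.toPerm (⟨σ, hσ⟩ : ine (K := K) w) r) := fun r =>
      (hs2 ⟨σ, hσ⟩ r).symm
    rw [Finset.sum_congr rfl fun r _ => this r]
    exact Equiv.sum_comp (MulAction.toPerm (⟨σ, hσ⟩ : ine (K := K) w)) s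
  have hsuma : (α : Ω) + β + γ = - con k K Ω a := by
    have h : con k K Ω a = -((α : Ω) + β + γ) := hF.a2
    rw [h, neg_neg]
  have hl2 : ∀ σ : Ω ≃ₐ[K] Ω, InIne w σ →
      σ (s α * s β + s β * s γ + s γ * s α) = s α * s β + s β * s γ + s γ * s α := by
    intro σ hσ
    have e : (2 : Ω) * (s α * s β + s β * s γ + s γ * s α) =
        (s α + s β + s γ) ^ 2 - (3 * x + con k K Ω a) := by
      linear_combination -hs1 α - hs1 β - hs1 γ + hsuma
    have hca : σ (con k K Ω a) = con k K Ω a := σ.commutes _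
    have h4 : σ (3 * x + con k K Ω a) = 3 * x + con k K Ω a := by
      rw [map_add, map_mul, hxI σ hσ, map_ofNat, hca]
    have h3 := congrArg σ e
    rw [map_sub, map_pow, hl σ hσ, h4, ← e, map_mul, map_ofNat] at h3
    exact mul_left_cancel₀ h2Ω h3
  refine ⟨.some _ _ hQ, fun σ hσ => ?_, ?_⟩
  · apply some_ext
    · show σ (x + (s α * s β + s β * s γ + s γ * s α)) = _
      rw [map_add, hxI σ hσ, hl2 σ hσ]
    · show σ ((s α + s β + s γ) * (s α * s β + s β * s γ + s γ * s α) - y) = _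
      rw [map_sub, map_mul, hl σ hσ, hl2 σ hσ, hyI σ hσ]
  · show (2 : ℕ) • Affine.Point.some _ _ hQ = _
    rw [two_nsmul]
    exact hQ2

end

end Run7.h615.EP
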