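import Pool.Agent.Run7.h615.EP.E3

set_option autoImplicit false

/-!
The points of order two and the Galois module of the curve.
-/

namespace Run7.h615.EP

open Polynomial WeierstrassCurve

section

variable {k K Ω : Type} [Field k] [Field K] [Algebra k[X] K] [Field Ω] [Algebra K Ω]
  [DecidableEq Ω]

/-- a point of order two as a function on the roots -/
noncomputable def eK {a b c : k} (P : Pts K Ω a b c) (r : {x : Ω // IsRt K (cub a b c) x}) :
    ZMod 2 :=
  match P with
  | .zero => 0
  | .some x _ _ => if x = r then 0 else 1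

theorem eK_zero {a b c : k} (r : {x : Ω // IsRt K (cub a b c) x}) :
    eK (0 : Pts K Ω a b c) r = 0 := rfl

theorem eK_some {a b c : k} {x y : Ω} (h : (Affine.baseChange (crv K a b c) Ω).Nonsingular x y)
    (r : {x : Ω // IsRt K (cub a b c) x}) :
    eK (K := K) (.some x y h : Pts K Ω a b c) r = if x = r then 0 else 1 := rfl

theorem mulTwo_apply {a b c : k} (P : Pts K Ω a b c) : mulTwo K Ω a b c P = P + P :=
  two_nsmul P

/-- a root gives a point of order two -/
theorem pt_root {a b c : k} (h2 : (2 : k) ≠ 0)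
    {α β γ : {x : Ω // IsRt K (cub a b c) x}} (h12 : α ≠ β) (h13 : α ≠ γ) (h23 : β ≠ γ)
    {x : Ω} (hx : x = α ∨ x = β ∨ x = γ) :
    (Affine.baseChange (crv K a b c) Ω).Nonsingular x 0 := by
  have hF := isF2 h2 h12 h13 h23
  apply hF.nons
  rw [hF.eqn]
  rcases hx with rfl | rfl | rfl <;> ring

theorem sum3 {a b c : k} {α β γ : {x : Ω // IsRt K (cub a b c) x}} (h12 : α ≠ β) (h13 : α ≠ γ)
    (h23 : β ≠ γ) (hall : ∀ x, x = α ∨ x = β ∨ x = γ) (u : {x : Ω // IsRt K (cub a b c) x} → ZMod 2) :
    ∑ᶠ r, u r = u α + (u β + u γ) := by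
  rw [finsum_eq_sum_of_support_subset (s := {α, β, γ}) u (fun r _ => by
    simp only [Finset.coe_insert, Finset.coe_singleton, Set.mem_insert_iff, Set.mem_singleton_iff]
    exact hall r)]
  rw [Finset.sum_insert (by simp [h12, h13]), Finset.sum_insert (by simp [h23]),
      Finset.sum_singleton]

theorem zmod2 : (1 : ZMod 2) + 1 = 0 := by decide

theorem ite3 {x x' x'' r : Ω} (h1 : x ≠ x') (h2 : x ≠ x'') (h3 : x' ≠ x'')
    (hr : r = x ∨ r = x' ∨ r = x'') : (if x'' = r then (0 : ZMod 2) else 1) =
      (if x = r then 0 else 1) + (if x' = r then 0 else 1) := by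
  rcases hr with rfl | rfl | rfl
  · rw [if_neg h2.symm, if_pos rfl, if_neg h1.symm, zero_add]
  · rw [if_neg h3.symm, if_neg h1, if_pos rfl, add_zero]
  · rw [if_pos rfl, if_neg h2, if_neg h3, zmod2]

theorem zmod2_cases (v : ZMod 2) : v = 0 ∨ v = 1 := by
  revert v; decide

theorem isKerIso_eK [IsFractionRing k[X] K] [IsSepClosed Ω] {a b c : k} (h2 : (2 : k) ≠ 0)
    (hf : derivative (cub a b c) ≠ 0) :
    IsKerIso (cub a b c) 2 (mulTwo K Ω a b c) (eK (K := K) (Ω := Ω)) := by
  obtain ⟨α, β, γ, h12, h13, h23, hall⟩ := roots3 (K := K) (Ω := Ω) hf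
  have hF := isF2 h2 h12 h13 h23
  have g12 : (α : Ω) ≠ β := fun h => h12 (Subtype.ext h)
  have g13 : (α : Ω) ≠ γ := fun h => h13 (Subtype.ext h)
  have g23 : (β : Ω) ≠ γ := fun h => h23 (Subtype.ext h)
  refine ⟨?_, ?_, ?_, ?_⟩
  · rintro (_ | ⟨x, y, hn⟩) (_ | ⟨x', y', hn'⟩) h h'
    · show eK (K := K) (0 + 0) = eK 0 + eK 0
      rw [add_zero]; funext r; rw [Pi.add_apply, eK_zero, add_zero]
    · show eK (K := K) (0 + .some x' y' hn') = eK 0 + eK (.some x' y' hn')
      rw [zero_add]; funext r; rw [Pi.add_apply, eK_zero, zero_add]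
    · show eK (K := K) (.some x y hn + 0) = eK (.some x y hn) + eK 0
      rw [add_zero]; funext r; rw [Pi.add_apply, eK_zero, add_zero]
    · rw [mulTwo_apply] at h h'
      have hy := (hF.dbl hn).1 h
      have hy' := (hF.dbl hn').1 h'
      subst hy; subst hy'
      have hx := hF.eq0 hn
      have hx' := hF.eq0 hn'
      by_cases hxx : x = x'
      · subst hxx
        rw [h]
        funext r
        rw [Pi.add_apply, eK_zero, eK_some]
        split_ifs
        · rw [add_zero]
        · rw [zmod2]
      · obtain ⟨hn'', e⟩ := hF.add_two hn hn' hxx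
        rw [e]
        funext r
        rw [Pi.add_apply, eK_some, eK_some, eK_some]
        have hr : (r : Ω) = α ∨ (r : Ω) = β ∨ (r : Ω) = γ := by
          rcases hall r with rfl | rfl | rfl
          · exact Or.inl rfl
          · exact Or.inr (Or.inl rfl)
          · exact Or.inr (Or.inr rfl)
        rcases hx with rfl | rfl | rfl <;> rcases hx' with rfl | rfl | rfl
        · exact absurd rfl hxx
        · rw [show (α : Ω) + β + γ - α - β = γ by ring]
          exact ite3 g12 g13 g23 (by rcases hr with h | h | h <;> simp [h])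
        · rw [show (α : Ω) + β + γ - α - γ = β by ring]
          exact ite3 g13 g12 g23.symm (by rcases hr with h | h | h <;> simp [h])
        · rw [show (α : Ω) + β + γ - β - α = γ by ring]
          exact ite3 g12.symm g23 g13 (by rcases hr with h | h | h <;> simp [h])
        · exact absurd rfl hxx
        · rw [show (α : Ω) + β + γ - β - γ = α by ring]
          exact ite3 g23 g12.symm g13.symm (by rcases hr with h | h | h <;> simp [h])
        · rw [show (α : Ω) + β + γ - γ - α = β by ring]
          exact ite3 g13.symm g23.symm g12 (by rcases hr with h | h | h <;> simp [h])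
        · rw [show (α : Ω) + β + γ - γ - β = α by ring]
          exact ite3 g23.symm g13.symm g12.symm (by rcases hr with h | h | h <;> simp [h])
        · exact absurd rfl hxx
  · rintro (_ | ⟨x, y, hn⟩) h h'
    · rfl
    · exfalso
      have e1 := congrFun h' α
      have e2 := congrFun h' β
      rw [eK_some, Pi.zero_apply] at e1 e2
      rw [ite_eq_left_iff] at e1 e2
      have e1' : x = α := by
        by_contra hc
        exact one_ne_zero (e1 hc)
      have e2' : x = β := by
        by_contra hc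
        exact one_ne_zero (e2 hc)
      exact g12 (e1'.symm.trans e2')
  · intro u
    rw [sum3 h12 h13 h23 hall]
    constructor
    · rintro ⟨P, hP, rfl⟩
      rcases P with _ | ⟨x, y, hn⟩
      · show eK (K := K) 0 α + (eK (K := K) 0 β + eK (K := K) 0 γ) = 0
        rw [eK_zero, eK_zero, eK_zero, add_zero, add_zero]
      · rw [mulTwo_apply] at hP
        have hy := (hF.dbl hn).1 hP
        subst hy
        rw [eK_some, eK_some, eK_some]
        rcases hF.eq0 hn with rfl | rfl | rfl
        · rw [if_pos rfl, if_neg g12, if_neg g13, zmod2, add_zero]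
        · rw [if_pos rfl, if_neg g12.symm, if_neg g23, zero_add, zmod2]
        · rw [if_pos rfl, if_neg g13.symm, if_neg g23.symm, add_zero, zmod2]
    · intro hu
      have hext : ∀ u' : {x : Ω // IsRt K (cub a b c) x} → ZMod 2, u' α = u α → u' β = u β →
          u' γ = u γ → u' = u := by
        intro u' h1 h2 h3
        funext r
        rcases hall r with rfl | rfl | rfl
        · exact h1
        · exact h2
        · exact h3
      rcases zmod2_cases (u α) with ha | ha <;> rcases zmod2_cases (u β) with hb | hb <;>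
        rcases zmod2_cases (u γ) with hc | hc
      · exact ⟨0, by rw [map_zero], hext _ (by rw [ha, eK_zero]) (by rw [hb, eK_zero])
          (by rw [hc, eK_zero])⟩
      · rw [ha, hb, hc] at hu; exact absurd hu (by decide)
      · rw [ha, hb, hc] at hu; exact absurd hu (by decide)
      · have hn := pt_root (x := (α : Ω)) h2 h12 h13 h23 (Or.inl rfl)
        exact ⟨.some _ 0 hn, by rw [mulTwo_apply]; exact (hF.dbl hn).2 rfl,
          hext _ (by rw [ha, eK_some, if_pos rfl]) (by rw [hb, eK_some, if_neg g12])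
          (by rw [hc, eK_some, if_neg g13])⟩
      · rw [ha, hb, hc] at hu; exact absurd hu (by decide)
      · have hn := pt_root (x := (β : Ω)) h2 h12 h13 h23 (Or.inr (Or.inl rfl))
        exact ⟨.some _ 0 hn, by rw [mulTwo_apply]; exact (hF.dbl hn).2 rfl,
          hext _ (by rw [ha, eK_some, if_neg g12.symm]) (by rw [hb, eK_some, if_pos rfl])
          (by rw [hc, eK_some, if_neg g23])⟩
      · have hn := pt_root (x := (γ : Ω)) h2 h12 h13 h23 (Or.inr (Or.inr rfl))
        exact ⟨.some _ 0 hn, by rw [mulTwo_apply]; exact (hF.dbl hn).2 rfl,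
          hext _ (by rw [ha, eK_some, if_neg g13.symm]) (by rw [hb, eK_some, if_neg g23.symm])
          (by rw [hc, eK_some, if_pos rfl])⟩
      · rw [ha, hb, hc] at hu; exact absurd hu (by decide)
  · rintro σ (_ | ⟨x, y, hn⟩) h r r' hr
    · rfl
    · show (if σ x = r' then (0 : ZMod 2) else 1) = if x = r then 0 else 1
      rw [← hr]
      simp only [σ.injective.eq_iff]

theorem isMod_pts [PerfectField k] [IsFractionRing k[X] K] [IsSepClosure K Ω] {a b c : k}
    (h2 : (2 : k) ≠ 0) (hf : derivative (cub a b c) ≠ 0) :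
    IsMod (K := K) (Ω := Ω) (cub a b c) 2 (mulTwo K Ω a b c) := by
  have hsc : IsSepClosed Ω := IsSepClosure.sep_closed K
  have hgal : IsGalois K Ω := IsSepClosure.isGalois
  refine ⟨?_, ?_, ?_, ⟨_, isKerIso_eK h2 hf⟩, fun w π hw _ => divAt hw h2 hf⟩
  · rintro (_ | ⟨x, y, hn⟩)
    · exact ⟨∅, Set.finite_empty, fun σ _ => smul_zero σ⟩
    · exact ⟨{x, y}, by simp, fun σ hσ => some_ext _ _ (hσ x (by simp)) (hσ y (by simp))⟩
  · intro σ P
    rw [mulTwo_apply, mulTwo_apply, smul_add]
  · rintro (_ | ⟨x, y, hn⟩)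
    · exact ⟨0, map_zero _⟩
    obtain ⟨α, β, γ, h12, h13, h23, hall⟩ := roots3 (K := K) (Ω := Ω) hf
    have hF := isF2 h2 h12 h13 h23
    have : NeZero (2 : Ω) := ⟨hF.two⟩
    have hs : ∀ r : Ω, ∃ s, s ^ 2 = x - r := by
      intro r
      obtain ⟨z, hz⟩ := IsSepClosed.exists_eq_mul_self (x - r)
      exact ⟨z, by rw [hz]; ring⟩
    obtain ⟨s1, hs1⟩ := hs α
    obtain ⟨s2, hs2⟩ := hs β
    obtain ⟨s3, hs3⟩ := hs γ
    have hprod2 : (s1 * s2 * s3) ^ 2 = y ^ 2 := by
      rw [(hF.eqn x y).1 hn.1, mul_pow, mul_pow, hs1, hs2, hs3]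
    rcases sq_eq_sq_iff_eq_or_eq_neg.1 hprod2 with h | h
    · obtain ⟨hQ, hQ2⟩ := hF.half hs1 hs2 hs3 h hn
      exact ⟨_, (mulTwo_apply _).trans hQ2⟩
    · obtain ⟨hQ, hQ2⟩ := hF.half (s1 := -s1) (by rw [neg_sq, hs1]) hs2 hs3
        (by linear_combination -h) hn
      exact ⟨_, (mulTwo_apply _).trans hQ2⟩

end

end Run7.h615.EP
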