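import Pool.Agent.Run7.h615.EP.Defs
import Pool.Agent.H124R3.Local

set_option autoImplicit false

/-!
Constants, the elements algebraic over `k`, represent the residue classes of the places of `Ω`.
-/

namespace Run7.h615.EP

open Polynomial

section

variable {k K Ω : Type} [Field k] [Field K] [Algebra k[X] K] [Field Ω] [Algebra K Ω]

theorem isConst_iff (x : Ω) :
    IsConst k K x ↔ @IsIntegral k Ω _ _ (con k K Ω).toAlgebra x := by
  let _ : Algebra k Ω := (con k K Ω).toAlgebra
  constructor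
  · rintro ⟨g, hg, h⟩
    exact isAlgebraic_iff_isIntegral.1 ⟨g, hg, h⟩
  · intro h
    obtain ⟨g, hg, hg2⟩ := isAlgebraic_iff_isIntegral.2 h
    exact ⟨g, hg, hg2⟩

theorem isConst_con (a : k) : IsConst k K (con k K Ω a) :=
  ⟨X - C a, X_sub_C_ne_zero a, by rw [eval₂_sub, eval₂_X, eval₂_C, sub_self]⟩

theorem IsConst.add {x y : Ω} (hx : IsConst k K x) (hy : IsConst k K y) : IsConst k K (x + y) := by
  rw [isConst_iff] at *
  exact @IsIntegral.add k Ω _ _ (con k K Ω).toAlgebra _ _ hx hy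

theorem IsConst.sub {x y : Ω} (hx : IsConst k K x) (hy : IsConst k K y) : IsConst k K (x - y) := by
  rw [isConst_iff] at *
  exact @IsIntegral.sub k Ω _ _ (con k K Ω).toAlgebra _ _ hx hy

theorem IsConst.mul {x y : Ω} (hx : IsConst k K x) (hy : IsConst k K y) : IsConst k K (x * y) := by
  rw [isConst_iff] at *
  exact @IsIntegral.mul k Ω _ _ (con k K Ω).toAlgebra _ _ hx hy

theorem IsConst.pow {x : Ω} (hx : IsConst k K x) (n : ℕ) : IsConst k K (x ^ n) := by
  rw [isConst_iff] at *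
  exact @IsIntegral.pow k Ω _ _ (con k K Ω).toAlgebra _ hx n

theorem IsConst.map {x : Ω} (hx : IsConst k K x) (σ : Ω ≃ₐ[K] Ω) : IsConst k K (σ x) := by
  obtain ⟨g, hg, h⟩ := hx
  refine ⟨g, hg, ?_⟩
  have h1 : ((σ : Ω →+* Ω)).comp (con k K Ω) = con k K Ω := by
    ext a
    exact σ.commutes _
  have h2 := congrArg (σ : Ω →+* Ω) h
  rw [hom_eval₂, h1, map_zero] at h2
  exact h2

theorem con_mem {w : ValuationSubring Ω} {π : k[X]} (hw : IsPlace K w π) (a : k) :
    con k K Ω a ∈ w := hw.mem (C a)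

/-- constants in the maximal ideal are zero -/
theorem IsConst.eq_zero {w : ValuationSubring Ω} {π : k[X]} (hw : IsPlace K w π) {x : Ω}
    (hx : IsConst k K x) (h1 : w.valuation x < 1) : x = 0 := by
  rw [isConst_iff] at hx
  let _ : Algebra k Ω := (con k K Ω).toAlgebra
  by_contra h0
  have h2 := minpoly.coeff_zero_ne_zero hx h0
  have h3 : minpoly k x = X * (minpoly k x).divX + C ((minpoly k x).coeff 0) := by
    rw [mul_comm]; exact (divX_mul_X_add _).symm
  have h4 : (minpoly k x).eval₂ (con k K Ω) x = 0 := minpoly.aeval k x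
  rw [h3, eval₂_add, eval₂_mul, eval₂_X, eval₂_C] at h4
  have hxw : x ∈ w := (w.valuation_le_one_iff _).1 h1.le
  have h5 : ∀ g : k[X], g.eval₂ (con k K Ω) x ∈ w := by
    intro g
    rw [eval₂_eq_sum, Polynomial.sum]
    exact sum_mem fun i _ => w.mul_mem _ _ (con_mem hw _) (pow_mem hxw i)
  have h6 : w.valuation (con k K Ω ((minpoly k x).coeff 0)) < 1 := by
    rw [← neg_eq_of_add_eq_zero_right h4, Valuation.map_neg, map_mul]
    exact mul_lt_one_of_lt_of_le h1 ((w.valuation_le_one_iff _).2 (h5 _))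
  have h7 := (hw.center (C ((minpoly k x).coeff 0))).1 h6
  exact hw.irr.not_isUnit (isUnit_of_dvd_unit h7 (isUnit_C.2 h2.isUnit))

theorem IsConst.fix {w : ValuationSubring Ω} {π : k[X]} (hw : IsPlace K w π) {x : Ω}
    (hx : IsConst k K x) (hxw : x ∈ w) {σ : Ω ≃ₐ[K] Ω} (hσ : InIne w σ) : σ x = x :=
  sub_eq_zero.1 (IsConst.eq_zero hw ((hx.map σ).sub hx) (hσ.2 x hxw))

theorem IsConst.mem {w : ValuationSubring Ω} {π : k[X]} (hw : IsPlace K w π) {x : Ω}
    (hx : IsConst k K x) : x ∈ w := by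
  rw [isConst_iff] at hx
  by_contra h
  have h1 : 1 < w.valuation x := by
    rw [← not_le]; intro h2; exact h ((w.valuation_le_one_iff _).1 h2)
  have hx0 : x ≠ 0 := by
    rintro rfl
    exact h w.zero_mem
  have h2 : w.valuation x⁻¹ < 1 := by
    rw [map_inv₀]; exact inv_lt_one_of_one_lt₀ h1
  have h3 : IsConst k K x⁻¹ := by
    rw [isConst_iff]
    exact @IsIntegral.inv k Ω _ _ (con k K Ω).toAlgebra _ hx
  exact hx0 (inv_eq_zero.1 (h3.eq_zero hw h2))

theorem exists_const [PerfectField k] [IsFractionRing k[X] K] [IsGalois K Ω] [IsSepClosed Ω]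
    {w : ValuationSubring Ω} {π : k[X]} (hw : IsPlace K w π) (x : Ω) (hx : x ∈ w) :
    ∃ x0 : Ω, IsConst k K x0 ∧ w.valuation (x - x0) < 1 := by
  let _ : Algebra k[X] Ω := (polH k K Ω).toAlgebra
  have ht : IsScalarTower k[X] K Ω := .of_algebraMap_eq fun _ => rfl
  have hne : w.comap (algebraMap K Ω) ≠ ⊤ := by
    intro htop
    have h3 := (hw.center π).2 dvd_rfl
    have h2 : (pol K Ω π)⁻¹ ∈ w := by
      have : (algebraMap k[X] K π)⁻¹ ∈ w.comap (algebraMap K Ω) := by rw [htop]; trivial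
      rw [ValuationSubring.mem_comap, map_inv₀] at this
      exact this
    have h4 := (w.valuation_le_one_iff _).2 h2
    rw [map_inv₀] at h4
    have h5 : w.valuation (pol K Ω π) ≠ 0 := by
      rw [ne_eq, map_eq_zero]
      intro h
      have h6 : algebraMap k[X] K π = 0 := (map_eq_zero _).1 h
      exact hw.irr.ne_zero ((IsFractionRing.injective k[X] K) (by rw [h6, map_zero]))
    exact absurd h3 (not_lt.2 ((inv_le_one₀ (zero_lt_iff.2 h5)).1 h4))
  -- the residue field
  let φ : k[X] →+* w := (polH k K Ω).codRestrict w.toSubring hw.mem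
  let _ : Algebra k[X] w := φ.toAlgebra
  have htw : IsScalarTower k[X] w Ω := .of_algebraMap_eq fun _ => rfl
  let κ := IsLocalRing.ResidueField w
  let ψ : k[X] →+* κ := (IsLocalRing.residue w).comp φ
  have hψ0 : ∀ g ∈ Ideal.span {π}, ψ g = 0 := by
    intro g hg
    rw [Ideal.mem_span_singleton, ← hw.center] at hg
    show IsLocalRing.residue w (φ g) = 0
    rw [IsLocalRing.residue_eq_zero_iff, w.valuation_lt_one_iff]
    exact hg
  let _ : Algebra k[X] κ := ψ.toAlgebra
  let _ : Algebra (k[X] ⧸ Ideal.span {π}) κ := (Ideal.Quotient.lift (Ideal.span {π}) ψ hψ0).toAlgebra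
  let _ : Algebra k κ := (ψ.comp C).toAlgebra
  have ht1 : IsScalarTower k[X] (k[X] ⧸ Ideal.span {π}) κ :=
    IsScalarTower.of_algebraMap_eq (R := k[X]) (S := k[X] ⧸ Ideal.span {π}) (A := κ) fun _ => rfl
  have ht2 : IsScalarTower k (k[X] ⧸ Ideal.span {π}) κ :=
    IsScalarTower.of_algebraMap_eq (R := k) (S := k[X] ⧸ Ideal.span {π}) (A := κ) fun _ => rfl
  have ht3 : IsScalarTower k[X] w κ := .of_algebraMap_eq fun _ => rfl
  have hint : ∀ b : Ω, ∀ hb : b ∈ w, IsIntegral k[X] b →
      IsIntegral k (IsLocalRing.residue w ⟨b, hb⟩ : κ) := by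
    intro b hb hbi
    have h1 : IsIntegral k[X] (⟨b, hb⟩ : w) :=
      (isIntegral_algebraMap_iff (A := w) (B := Ω) Subtype.val_injective).1 hbi
    have h2 : IsIntegral k[X] (algebraMap w κ ⟨b, hb⟩) := h1.algebraMap
    have h3 : IsIntegral (k[X] ⧸ Ideal.span {π}) (algebraMap w κ ⟨b, hb⟩) := h2.tower_top
    have : Module.Finite k (AdjoinRoot π) := (AdjoinRoot.powerBasis hw.irr.ne_zero).finite
    have : Algebra.IsIntegral k (k[X] ⧸ Ideal.span {π}) :=
      inferInstanceAs (Algebra.IsIntegral k (AdjoinRoot π))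
    exact isIntegral_trans (R := k) (A := k[X] ⧸ Ideal.span {π}) _ h3
  obtain ⟨b, s, hb, hs, hs1, hbs⟩ := Pool.Agent.H124R3.ZT.exists_frac (K := K) (A := k[X]) w hw.mem
    hne x hx
  have hbw : b ∈ w := Pool.Agent.H639R3.integral_mem w hw.mem b hb
  have hsw : s ∈ w := Pool.Agent.H639R3.integral_mem w hw.mem s hs
  have hres : IsLocalRing.residue w ⟨x, hx⟩ * IsLocalRing.residue w ⟨s, hsw⟩ =
      IsLocalRing.residue w ⟨b, hbw⟩ := by
    rw [← map_mul]
    congr 1
    exact Subtype.ext hbs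
  have hs0 : IsLocalRing.residue w ⟨s, hsw⟩ ≠ 0 := by
    rw [ne_eq, IsLocalRing.residue_eq_zero_iff, w.valuation_lt_one_iff]
    show ¬ w.valuation s < 1
    rw [hs1]
    exact lt_irrefl _
  have hxint : IsIntegral k (IsLocalRing.residue w ⟨x, hx⟩ : κ) := by
    rw [← eq_div_iff hs0] at hres
    rw [hres, div_eq_mul_inv]
    exact (hint b hbw hb).mul (hint s hsw hs).inv
  set g := minpoly k (IsLocalRing.residue w ⟨x, hx⟩ : κ) with hg
  have hgirr : Irreducible g := minpoly.irreducible hxint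
  have hgmon : g.Monic := minpoly.monic hxint
  have hsep : (g.map (con k K Ω)).Separable := (PerfectField.separable_of_irreducible hgirr).map
  have hspl : (g.map (con k K Ω)).Splits := IsSepClosed.splits_of_separable _ hsep
  have hev : w.valuation (g.eval₂ (con k K Ω) x) < 1 := by
    have h0 : g.eval₂ (ψ.comp C) (IsLocalRing.residue w ⟨x, hx⟩ : κ) = 0 := minpoly.aeval k _
    have h1 : IsLocalRing.residue w (g.eval₂ (φ.comp C) ⟨x, hx⟩) = 0 := by
      rw [hom_eval₂]
      exact h0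
    rw [IsLocalRing.residue_eq_zero_iff, w.valuation_lt_one_iff] at h1
    have h2 : ((g.eval₂ (φ.comp C) ⟨x, hx⟩ : w) : Ω) = g.eval₂ (con k K Ω) x := by
      have h3 : ((g.eval₂ (φ.comp C) ⟨x, hx⟩ : w) : Ω) = w.subtype (g.eval₂ (φ.comp C) ⟨x, hx⟩) := rfl
      rw [h3, hom_eval₂]
      rfl
    rw [h2] at h1
    exact h1
  rw [eval₂_eq_eval_map, hspl.eq_prod_roots, (hgmon.map _).leadingCoeff, C_1, one_mul,
    eval_multiset_prod, Multiset.map_map, map_multiset_prod, Multiset.map_map] at hev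
  by_contra hcon
  push Not at hcon
  have h3 : 1 ≤ (Multiset.map (w.valuation ∘ (eval x ∘ fun a => X - C a))
      (g.map (con k K Ω)).roots).prod := by
    apply Multiset.one_le_prod_of_one_le
    intro y hy
    obtain ⟨x0, hx0, rfl⟩ := Multiset.mem_map.1 hy
    have h4 : IsConst k K x0 := ⟨g, hgirr.ne_zero, by
      rw [eval₂_eq_eval_map]; exact (mem_roots'.1 hx0).2⟩
    have h5 := hcon x0 h4
    simpa using h5
  exact absurd hev (not_lt.2 h3)

end

end Run7.h615.EP
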