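import Mathlib

set_option autoImplicit false

/-!
The field fixed by the inertia group is unramified: finite extensions.
-/

namespace Run7.h615.EP

open IsDedekindDomain HeightOneSpectrum WithZero Ideal

theorem exp_le {a : WithZero (Multiplicative ℤ)} (h : a < 1) : a ≤ exp (-1 : ℤ) := by
  rcases eq_or_ne a 0 with rfl | h0
  · exact zero_le
  · obtain ⟨n, rfl⟩ : ∃ n : ℤ, a = exp n := ⟨log a, (exp_log h0).symm⟩
    rw [← exp_zero, exp_lt_exp] at h
    rw [exp_le_exp]
    omega

theorem fin_unram {A K F M RF B G : Type} [CommRing A] [IsDedekindDomain A] [Field K] [Algebra A K]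
    [IsFractionRing A K] [Field F] [Field M] [Algebra F M] [Algebra K M] [Algebra A M]
    [IsScalarTower A K M] [CommRing RF] [IsDedekindDomain RF] [Algebra RF F] [IsFractionRing RF F]
    [Algebra RF M] [IsScalarTower RF F M] [CommRing B] [IsDedekindDomain B] [Algebra B M]
    [IsFractionRing B M] [Algebra A B] [IsScalarTower A B M] [Algebra RF B] [IsScalarTower RF B M]
    [Module.Finite A B] [Module.Finite RF B] [Module.IsTorsionFree A B] [Module.IsTorsionFree RF B]
    [Group G] [Finite G] [MulSemiringAction G B] [IsGaloisGroup G A B] (I : Subgroup G)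
    [IsGaloisGroup I RF B] (v : HeightOneSpectrum A) (u : HeightOneSpectrum RF)
    (w : HeightOneSpectrum B) [w.asIdeal.LiesOver v.asIdeal] [w.asIdeal.LiesOver u.asIdeal]
    (hI : I = w.asIdeal.inertia G) [PerfectField v.asIdeal.ResidueField]
    [PerfectField u.asIdeal.ResidueField] (a : F) (x : K) (hx : v.valuation K x = exp (-1 : ℤ))
    (ha : u.valuation F a < 1) :
    w.valuation M (algebraMap F M a) ≤ w.valuation M (algebraMap K M x) := by
  have := w.isPrime
  have := v.isPrime
  have := u.isPrime
  have e1 : Nat.card (w.asIdeal.inertia G) = v.asIdeal.ramificationIdx' w.asIdeal := by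
    rw [card_inertia_eq_ramificationIdxIn (G := G) v.asIdeal w.asIdeal,
      ramificationIdxIn_eq_ramificationIdx v.asIdeal w.asIdeal G,
      ramificationIdx'_eq_ramificationIdx _ _ v.ne_bot]
  have e2 : Nat.card (w.asIdeal.inertia I) = u.asIdeal.ramificationIdx' w.asIdeal := by
    rw [card_inertia_eq_ramificationIdxIn (G := I) u.asIdeal w.asIdeal,
      ramificationIdxIn_eq_ramificationIdx u.asIdeal w.asIdeal I,
      ramificationIdx'_eq_ramificationIdx _ _ u.ne_bot]
  have e3 : w.asIdeal.inertia I = ⊤ := by
    rw [eq_top_iff]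
    rintro ⟨σ, hσ⟩ -
    rw [hI] at hσ
    intro b
    exact hσ b
  have e4 : v.asIdeal.ramificationIdx' w.asIdeal = u.asIdeal.ramificationIdx' w.asIdeal := by
    rw [← e1, ← e2, e3, ← hI]
    exact (Nat.card_congr (Equiv.Set.univ I).symm).trans rfl
  rw [← valuation_liesOver M v w x, ← valuation_liesOver M u w a, e4, hx]
  exact pow_le_pow_left' (exp_le ha) _

end Run7.h615.EP
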