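import Pool.Agent.Run7.h615.EP.Gh

set_option autoImplicit false
set_option linter.unusedSectionVars false

/-!
Invariant classes over a normal subgroup without invariants extend.
-/

namespace Run7.h615.EP

open MulAction

section

variable {G R : Type} [Group G] [MulAction G R] {ℓ : ℕ} [hℓ : Fact ℓ.Prime] [Fintype R]

theorem uniqH [Nonempty R] (hd : ¬ ℓ ∣ Fintype.card R) {H : Subgroup G}
    (htr : ∀ α β : R, ∃ h ∈ H, h • α = β) (v : R → ZMod ℓ) (hv : ∑ β, v β = 0)
    (h : ∀ a ∈ H, sh a v = v) : v = 0 := by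
  obtain ⟨α⟩ := (inferInstance : Nonempty R)
  have h1 : ∀ β, v β = v α := by
    intro β
    obtain ⟨n, hn, hnβ⟩ := htr β α
    have := congrFun (h n hn) α
    rw [sh_apply, ← hnβ, inv_smul_smul] at this
    rw [this, hnβ]
  have h2 : (Fintype.card R : ZMod ℓ) * v α = 0 := by
    rw [← sum_const, ← hv]
    exact Finset.sum_congr rfl fun β _ => (h1 β).symm
  have h3 : v α = 0 := (mul_eq_zero.1 h2).resolve_left (card_ne hd)
  funext β
  rw [h1, h3]; rfl

theorem trans_sub [Nonempty R] (hd : ¬ ℓ ∣ Fintype.card R) {H' N : Subgroup G} [hN : N.Normal]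
    (htr : ∀ α β : R, ∃ h ∈ H', h • α = β) {j : ℕ} (hj : N.index = ℓ ^ j) (α β : R) :
    ∃ h ∈ H' ⊓ N, h • α = β := by
  have hpre : IsPretransitive H' R := ⟨fun x y => by
    obtain ⟨h, hh, hxy⟩ := htr x y
    exact ⟨⟨h, hh⟩, hxy⟩⟩
  have h1 : (N.subgroupOf H').index ∣ ℓ ^ j := by
    rw [← hj]
    exact Subgroup.relIndex_dvd_index_of_normal N H'
  obtain ⟨i, -, hi⟩ := (Nat.dvd_prime_pow hℓ.out).1 h1
  have hn : (N.subgroupOf H').Normal := inferInstance
  obtain ⟨n, hn1, hn2⟩ := trans_N (G := H') (N := N.subgroupOf H') hd hi α β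
  exact ⟨n, ⟨n.2, hn1⟩, hn2⟩

theorem extd {H N U : Subgroup G} [hH : H.Normal] [hU : U.Normal] (hHN : H ≤ N)
    (huniq : ∀ v : R → ZMod ℓ, ∑ β, v β = 0 → (∀ a ∈ H, sh a v = v) → v = 0)
    (hUR : ∀ a ∈ U, ∀ β : R, a • β = β) {c : G → R → ZMod ℓ}
    (h1 : ∀ a ∈ H, ∀ b ∈ H, c (a * b) = c a + sh a (c b)) (h2 : ∀ a ∈ H, ∑ β, c a β = 0)
    (h3 : ∀ a ∈ H, a ∈ U → c a = 0)
    (h4 : ∀ τ ∈ N, ∃ v : R → ZMod ℓ, ∑ β, v β = 0 ∧
      ∀ a ∈ H, sh τ (c (τ⁻¹ * a * τ)) - c a = sh a v - v) :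
    ∃ d : G → R → ZMod ℓ, (∀ a, a ∉ N → d a = 0) ∧
      (∀ a ∈ N, ∀ b ∈ N, d (a * b) = d a + sh a (d b)) ∧ (∀ a, ∑ β, d a β = 0) ∧
      (∀ a ∈ N, a ∈ U → d a = 0) ∧ ∀ a ∈ H, d a = c a := by
  classical
  choose! v hv0 hv using h4
  have hconj : ∀ g a, a ∈ H → g⁻¹ * a * g ∈ H := fun g a ha => by
    have := hH.conj_mem _ ha g⁻¹
    rwa [inv_inv] at this
  have hv' : ∀ g ∈ N, ∀ a ∈ H, sh g (c (g⁻¹ * a * g)) = c a + (sh a (v g) - v g) := by
    intro g hg a ha
    rw [← hv g hg a ha]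
    abel
  have hvd : ∀ g ∈ H, v g = c g := by
    intro g hg
    have h5 : v g - c g = 0 := by
      apply huniq
      · simp only [Pi.sub_apply, Finset.sum_sub_distrib]
        rw [hv0 g (hHN hg), h2 g hg, sub_zero]
      · intro a ha
        have e1 : c (a * g) = c a + sh a (c g) := h1 a ha g hg
        have e2 : c (a * g) = c g + sh g (c (g⁻¹ * a * g)) := by
          rw [← h1 g hg _ (hconj g a ha)]
          congr 1
          group
        rw [hv' g (hHN hg) a ha] at e2
        rw [e1] at e2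
        rw [sh_sub]
        have e3 : sh a (c g) = c g + (sh a (v g) - v g) := by
          have : c a + sh a (c g) = c a + (c g + (sh a (v g) - v g)) := by rw [e2]; abel
          exact add_left_cancel this
        rw [e3]; abel
    exact sub_eq_zero.1 h5
  have hvmul : ∀ g ∈ N, ∀ h ∈ N, v (g * h) = v g + sh g (v h) := by
    intro g hg h hh
    have h5 : v (g * h) - (v g + sh g (v h)) = 0 := by
      apply huniq
      · simp only [Pi.sub_apply, Pi.add_apply, Finset.sum_sub_distrib, Finset.sum_add_distrib]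
        rw [hv0 _ (N.mul_mem hg hh), hv0 g hg, sh_sum, hv0 h hh, add_zero, sub_zero]
      · intro a ha
        have e1 := hv' (g * h) (N.mul_mem hg hh) a ha
        have e2 := hv' g hg a ha
        have e3 := hv' h hh (g⁻¹ * a * g) (hconj g a ha)
        have e4 : (g * h)⁻¹ * a * (g * h) = h⁻¹ * (g⁻¹ * a * g) * h := by group
        have e5 : g * (g⁻¹ * a * g) = a * g := by group
        rw [e4, sh_mul, e3, sh_add, e2, sh_sub, ← sh_mul, e5, sh_mul] at e1
        rw [sh_sub, sh_add]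
        have e6 : sh a (v g) - v g + (sh a (sh g (v h)) - sh g (v h)) =
            sh a (v (g * h)) - v (g * h) := by
          have : c a + (sh a (v g) - v g + (sh a (sh g (v h)) - sh g (v h))) =
            c a + (sh a (v (g * h)) - v (g * h)) := by rw [← e1]; abel
          exact add_left_cancel this
        have e7 : sh a (v (g * h)) = sh a (v g) - v g + (sh a (sh g (v h)) - sh g (v h)) +
          v (g * h) := by rw [e6]; abel
        rw [e7]; abel
    exact sub_eq_zero.1 h5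
  refine ⟨fun a => if a ∈ N then v a else 0, fun a ha => if_neg ha, fun a ha b hb => ?_,
    fun a => ?_, fun a ha haU => ?_, fun a ha => ?_⟩
  · simp only [if_pos (N.mul_mem ha hb), if_pos ha, if_pos hb]
    exact hvmul a ha b hb
  · by_cases ha : a ∈ N
    · simp only [if_pos ha]; exact hv0 a ha
    · simp only [if_neg ha]; simp
  · simp only [if_pos ha]
    apply huniq _ (hv0 a ha)
    intro b hb
    have e1 : b⁻¹ * (a⁻¹ * b * a) ∈ H := H.mul_mem (H.inv_mem hb) (hconj a b hb)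
    have e2 : b⁻¹ * (a⁻¹ * b * a) ∈ U := by
      have : b⁻¹ * (a⁻¹ * b * a) = (b⁻¹ * a⁻¹ * b) * a := by group
      rw [this]
      refine U.mul_mem ?_ haU
      have := hU.conj_mem _ (U.inv_mem haU) b⁻¹
      rwa [inv_inv] at this
    have e3 : c (a⁻¹ * b * a) = c b := by
      have : a⁻¹ * b * a = b * (b⁻¹ * (a⁻¹ * b * a)) := by group
      rw [this, h1 b hb _ e1, h3 _ e1 e2, sh_zero, add_zero]
    have e4 := hv' a ha b hb
    rw [e3] at e4
    have e5 : sh a (c b) = c b := by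
      funext β
      rw [sh_apply, hUR _ (U.inv_mem haU)]
    rw [e5] at e4
    have e6 : sh b (v a) - v a = 0 := by
      have : c b + (sh b (v a) - v a) = c b + 0 := by rw [← e4, add_zero]
      exact add_left_cancel this
    exact sub_eq_zero.1 e6
  · simp only [if_pos (hHN ha)]
    exact hvd a ha

end

end Run7.h615.EP
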