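import Pool.Agent.Run7.h615.EP.Gt

set_option autoImplicit false
set_option linter.unusedSectionVars false

/-!
A nonzero class over a normal subgroup of `ℓ`-power index gives a nonzero invariant class.
-/

namespace Run7.h615.EP

open MulAction

section

variable {G R : Type} [Group G] [MulAction G R] {ℓ : ℕ} [hℓ : Fact ℓ.Prime] [Fintype R]
variable {N U : Subgroup G} [hN : N.Normal] [hU : U.Normal] {T : Set (Set G)}

/-- the classes -/
abbrev QC (R : Type) [MulAction G R] [Fintype R] (ℓ : ℕ) (N U : Subgroup G) (T : Set (Set G)) :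
    Type := (Coc (R := R) ℓ N U T) ⧸ ((Cob (R := R) ℓ N).addSubgroupOf (Coc ℓ N U T))

/-- the action on the classes -/
noncomputable def actQ (hT : ∀ i ∈ T, ∀ g : G, ∃ i' ∈ T, ∀ a ∈ i, g⁻¹ * a * g ∈ i') :
    G →* AddMonoid.End (QC R ℓ N U T) where
  toFun g := QuotientAddGroup.map _ _
    ({ toFun := fun c => ⟨cj g c.1, cj_mem_coc hT g c.2⟩
       map_zero' := Subtype.ext rfl
       map_add' := fun _ _ => Subtype.ext rfl } : Coc (R := R) ℓ N U T →+ Coc (R := R) ℓ N U T)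
    (fun c hc => cj_mem_cob g hc)
  map_one' := by
    apply QuotientAddGroup.addMonoidHom_ext
    ext c : 1
    apply congrArg (QuotientAddGroup.mk (s := (Cob (R := R) ℓ N).addSubgroupOf (Coc ℓ N U T)))
    exact Subtype.ext (cj_one c.1)
  map_mul' g h := by
    apply QuotientAddGroup.addMonoidHom_ext
    ext c : 1
    apply congrArg (QuotientAddGroup.mk (s := (Cob (R := R) ℓ N).addSubgroupOf (Coc ℓ N U T)))
    exact Subtype.ext (cj_mul g h c.1)

theorem actQ_mk (hT : ∀ i ∈ T, ∀ g : G, ∃ i' ∈ T, ∀ a ∈ i, g⁻¹ * a * g ∈ i') (g : G)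
    (c : Coc (R := R) ℓ N U T) :
    actQ (R := R) (ℓ := ℓ) (N := N) (U := U) hT g (QuotientAddGroup.mk c) =
      QuotientAddGroup.mk (⟨cj g c.1, cj_mem_coc hT g c.2⟩ : Coc (R := R) ℓ N U T) := rfl

theorem exists_inv (hT : ∀ i ∈ T, ∀ g : G, ∃ i' ∈ T, ∀ a ∈ i, g⁻¹ * a * g ∈ i')
    [U.FiniteIndex] (hUN : U ≤ N) {j : ℕ} (hj : N.index = ℓ ^ j) {c : G → R → ZMod ℓ}
    (hc : c ∈ Coc ℓ N U T) (hc2 : c ∉ Cob ℓ N) :
    ∃ d ∈ Coc (R := R) ℓ N U T, d ∉ Cob ℓ N ∧ ∀ g : G, cj g d - d ∈ Cob ℓ N := by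
  have hfin : Finite (Coc (R := R) ℓ N U T) := finite_coc hUN
  have hfinQ : Finite (QC R ℓ N U T) := Quotient.finite _
  let φ : G ⧸ N →* AddMonoid.End (QC R ℓ N U T) := QuotientGroup.lift N (actQ hT) (by
    intro g hg
    apply QuotientAddGroup.addMonoidHom_ext
    ext c : 1
    show actQ hT g (QuotientAddGroup.mk c) = QuotientAddGroup.mk c
    rw [actQ_mk, QuotientAddGroup.eq, AddSubgroup.mem_addSubgroupOf]
    have h1 := cj_self c.2 hg
    have h2 := (Cob (R := R) ℓ N).neg_mem h1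
    rw [neg_sub] at h2
    have h3 : ((-(⟨cj g c.1, cj_mem_coc hT g c.2⟩ : Coc (R := R) ℓ N U T) + c :
      Coc (R := R) ℓ N U T) : G → R → ZMod ℓ) = c.1 - cj g c.1 := by
      rw [AddSubgroup.coe_add, AddSubgroup.coe_neg]
      abel
    rw [h3]
    exact h2)
  let _ : MulAction (G ⧸ N) (QC R ℓ N U T) :=
    { smul := fun p x => φ p x
      one_smul := fun x => by
        show φ 1 x = x
        rw [map_one]; rfl
      mul_smul := fun p q x => by
        show φ (p * q) x = φ p (φ q x)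
        rw [map_mul]; rfl }
  have hsm : ∀ (p : G ⧸ N) (x : QC R ℓ N U T), p • x = φ p x := fun _ _ => rfl
  have hP : IsPGroup ℓ (G ⧸ N) := IsPGroup.of_card (n := j) hj
  let x : QC R ℓ N U T := QuotientAddGroup.mk ⟨c, hc⟩
  have hx : x ≠ 0 := by
    intro h
    rw [QuotientAddGroup.eq_zero_iff, AddSubgroup.mem_addSubgroupOf] at h
    exact hc2 h
  have hlx : ℓ • x = 0 := by
    show (QuotientAddGroup.mk (ℓ • (⟨c, hc⟩ : Coc (R := R) ℓ N U T)) : QC R ℓ N U T) = 0
    have : ℓ • (⟨c, hc⟩ : Coc (R := R) ℓ N U T) = 0 := by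
      apply Subtype.ext
      rw [AddSubgroup.coe_nsmul]
      funext g β
      show ℓ • c g β = 0
      rw [nsmul_eq_mul, ZMod.natCast_self, zero_mul]
    rw [this]
    rfl
  have hord : addOrderOf x = ℓ := addOrderOf_eq_prime hlx hx
  have hdvd : ℓ ∣ Nat.card (QC R ℓ N U T) := by
    have h := addOrderOf_dvd_natCard x
    rwa [hord] at h
  have h0 : (0 : QC R ℓ N U T) ∈ fixedPoints (G ⧸ N) (QC R ℓ N U T) := fun p => by
    rw [hsm, map_zero]
  obtain ⟨b, hb, hb0⟩ := hP.exists_fixed_point_of_prime_dvd_card_of_fixed_point _ hdvd h0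
  obtain ⟨⟨d, hd⟩, rfl⟩ := QuotientAddGroup.mk_surjective b
  refine ⟨d, hd, ?_, ?_⟩
  · intro h
    apply hb0
    symm
    rw [QuotientAddGroup.eq_zero_iff, AddSubgroup.mem_addSubgroupOf]
    exact h
  · intro g
    have h1 := hb (QuotientGroup.mk g)
    rw [hsm] at h1
    have h2 : φ (QuotientGroup.mk g) (QuotientAddGroup.mk (⟨d, hd⟩ : Coc (R := R) ℓ N U T)) =
      QuotientAddGroup.mk (⟨cj g d, cj_mem_coc hT g hd⟩ : Coc (R := R) ℓ N U T) := rfl
    rw [h2] at h1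
    have h3 := QuotientAddGroup.eq.1 h1.symm
    rw [AddSubgroup.mem_addSubgroupOf] at h3
    have h4 : ((-(⟨d, hd⟩ : Coc (R := R) ℓ N U T) + ⟨cj g d, cj_mem_coc hT g hd⟩ :
      Coc (R := R) ℓ N U T) : G → R → ZMod ℓ) = cj g d - d := by
      rw [AddSubgroup.coe_add, AddSubgroup.coe_neg]
      abel
    rw [h4] at h3
    exact h3

theorem trans_N [IsPretransitive G R] [Nonempty R] (hd : ¬ ℓ ∣ Fintype.card R) {j : ℕ}
    (hj : N.index = ℓ ^ j) (α β : R) : ∃ n ∈ N, n • α = β := by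
  have h1 : (stabilizer G α).index = Nat.card R := index_stabilizer_of_transitive G α
  have h2 : (N ⊔ stabilizer G α).index ∣ ℓ ^ j := by
    rw [← hj]
    exact Subgroup.index_dvd_of_le le_sup_left
  have h3 : (N ⊔ stabilizer G α).index ∣ Fintype.card R := by
    rw [← Nat.card_eq_fintype_card, ← h1]
    exact Subgroup.index_dvd_of_le le_sup_right
  have h4 : (N ⊔ stabilizer G α).index = 1 := by
    apply Nat.Coprime.eq_one_of_dvd _ h2
    have : Nat.Coprime (Fintype.card R) (ℓ ^ j) :=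
      Nat.Coprime.pow_right j ((hℓ.out.coprime_iff_not_dvd.2 hd).symm)
    exact Nat.Coprime.coprime_dvd_left h3 this
  rw [Subgroup.index_eq_one] at h4
  obtain ⟨g, hg⟩ := exists_smul_eq G α β
  have h5 : g ∈ ((N ⊔ stabilizer G α : Subgroup G) : Set G) := by rw [h4]; trivial
  rw [Subgroup.normal_mul] at h5
  obtain ⟨n, hn, h, hh, rfl⟩ := h5
  refine ⟨n, hn, ?_⟩
  rw [← hg]
  show n • α = (n * h) • α
  rw [mul_smul, hh]

end

end Run7.h615.EP
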