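import Pool.Agent.Run7.h615.EP.Fb
import Pool.Agent.Run7.h615.EP.Fl

set_option autoImplicit false

/-!
The roots of `f(x) = t` are conjugate over the algebraic closure of the field of constants.
-/

namespace Run7.h615.EP

open Polynomial

section

variable {k K Ω : Type} [Field k] [Field K] [Algebra k[X] K] [Field Ω] [Algebra K Ω]

theorem trans_geo [IsFractionRing k[X] K] [IsGalois K Ω] {f : k[X]} (hdeg : f.natDegree ≠ 0)
    {α β : Ω} (hα : IsRt K f α) (hβ : IsRt K f β) :
    ∃ σ : Ω ≃ₐ[K] Ω, (∀ x, IsConst k K x → σ x = x) ∧ σ α = β := by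
  let _ : Algebra k Ω := (con k K Ω).toAlgebra
  let kk := algebraicClosure k Ω
  have halg : Algebra.IsAlgebraic k kk := inferInstance
  set t : Ω := pol K Ω (X : k[X]) with ht
  have hpol : ∀ g : k[X], aeval t g = pol K Ω g := by
    intro g
    rw [aeval_def]
    show g.eval₂ ((polH k K Ω).comp C) (polH k K Ω X) = _
    rw [← hom_eval₂, eval₂_C_X]
    rfl
  have htr : Transcendental k t := by
    rw [transcendental_iff]
    intro g hg
    rw [hpol] at hg
    have h1 : algebraMap k[X] K g = 0 := (map_eq_zero (algebraMap K Ω)).1 hg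
    exact (IsFractionRing.injective k[X] K) (by rw [h1, map_zero])
  have htr' : Transcendental kk t := fun h => htr (h.restrictScalars k)
  let φ : kk[X] →+* Ω := eval₂RingHom (algebraMap kk Ω) t
  have hφ : Function.Injective φ := by
    rw [injective_iff_map_eq_zero]
    intro g hg
    exact (transcendental_iff.1 htr') g hg
  let Φ : RatFunc kk →+* Ω := IsFractionRing.lift hφ
  have hΦ : ∀ g : kk[X], Φ (algebraMap kk[X] (RatFunc kk) g) = φ g := fun g =>
    IsFractionRing.lift_algebraMap hφ g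
  let _ : Algebra (RatFunc kk) Ω := Φ.toAlgebra
  let ψ : k[X] →+* RatFunc kk :=
    (algebraMap kk[X] (RatFunc kk)).comp (mapRingHom (algebraMap k kk))
  have hψ : Function.Injective ψ :=
    (IsFractionRing.injective kk[X] (RatFunc kk)).comp
      (Polynomial.map_injective _ (algebraMap k kk).injective)
  let Ψ : K →+* RatFunc kk := IsFractionRing.lift hψ
  have hΨ : ∀ g : k[X], Ψ (algebraMap k[X] K g) = ψ g := fun g =>
    IsFractionRing.lift_algebraMap hψ g
  let _ : Algebra K (RatFunc kk) := Ψ.toAlgebra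
  have hcomp : Φ.comp Ψ = algebraMap K Ω := by
    apply IsLocalization.ringHom_ext (nonZeroDivisors k[X])
    apply RingHom.ext
    intro g
    show Φ (Ψ (algebraMap k[X] K g)) = pol K Ω g
    rw [hΨ]
    show Φ (algebraMap kk[X] (RatFunc kk) (g.map (algebraMap k kk))) = _
    rw [hΦ, ← hpol]
    show (g.map (algebraMap k kk)).eval₂ (algebraMap kk Ω) t = _
    rw [eval₂_map]
    rfl
  have htow : IsScalarTower K (RatFunc kk) Ω := .of_algebraMap_eq fun x =>
    (congrArg (fun h : K →+* Ω => h x) hcomp).symm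
  have hgal : IsGalois (RatFunc kk) Ω := IsGalois.tower_top_of_isGalois K (RatFunc kk) Ω
  have hcon : con kk (RatFunc kk) Ω = algebraMap kk Ω := by
    ext a
    show Φ (algebraMap kk[X] (RatFunc kk) (C a)) = _
    rw [hΦ]
    show (C a).eval₂ (algebraMap kk Ω) t = _
    rw [eval₂_C]
  have hX : pol (RatFunc kk) Ω (X : kk[X]) = t := by
    show Φ (algebraMap kk[X] (RatFunc kk) X) = _
    rw [hΦ]
    show (X : kk[X]).eval₂ (algebraMap kk Ω) t = _
    rw [eval₂_X]
  have hrt : ∀ {x : Ω}, IsRt K f x → IsRt (RatFunc kk) (f.map (algebraMap k kk)) x := by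
    intro x hx
    rw [IsRt, hcon, hX, eval₂_map]
    exact hx
  obtain ⟨σ, hσ⟩ := exists_aut_root (K := RatFunc kk) (f := f.map (algebraMap k kk))
    (by rw [natDegree_map]; exact hdeg) (hrt hα) (hrt hβ)
  refine ⟨σ.restrictScalars K, fun x hx => ?_, hσ⟩
  have hxi : IsIntegral k x := (isConst_iff x).1 hx
  have hxk : x ∈ kk := mem_algebraicClosure_iff.2 hxi.isAlgebraic
  have h1 : algebraMap (RatFunc kk) Ω (algebraMap kk[X] (RatFunc kk) (C ⟨x, hxk⟩)) = x := by
    show con kk (RatFunc kk) Ω ⟨x, hxk⟩ = x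
    rw [hcon]
    rfl
  show σ x = x
  rw [← h1, σ.commutes]

end

end Run7.h615.EP
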