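import Pool.Agent.Run7.h615.EP.Md
import Pool.Agent.Run7.h615.EP.Ge
import Pool.Agent.Run7.h615.EP.Tv

set_option autoImplicit false

/-!
The classes in the geometric Selmer group which are fixed by the Galois group vanish.
-/

namespace Run7.h615.EP

open Polynomial

section

variable {k K Ω : Type} [Field k] [Field K] [Algebra k[X] K] [Field Ω] [Algebra K Ω]
  {M : Type} [AddCommGroup M] [DistribMulAction (Ω ≃ₐ[K] Ω) M]

variable (k) in
/-- the Galois group of `k' L` -/
def geo (L : IntermediateField K Ω) : Subgroup (Ω ≃ₐ[K] Ω) where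
  carrier := {σ | InGeo k L σ}
  one_mem' := ⟨fun _ _ => rfl, fun _ _ => rfl⟩
  mul_mem' := by
    rintro σ τ ⟨h1, h2⟩ ⟨h3, h4⟩
    refine ⟨fun x hx => ?_, fun x hx => ?_⟩
    · show σ (τ x) = x
      rw [h3 x hx, h1 x hx]
    · show σ (τ x) = x
      rw [h4 x hx, h2 x hx]
  inv_mem' := by
    rintro σ ⟨h1, h2⟩
    refine ⟨fun x hx => ?_, fun x hx => ?_⟩
    · have := AlgEquiv.symm_apply_apply σ x
      rw [h1 x hx] at this
      exact this
    · have := AlgEquiv.symm_apply_apply σ x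
      rw [h2 x hx] at this
      exact this

theorem mem_geo {L : IntermediateField K Ω} {σ : Ω ≃ₐ[K] Ω} : σ ∈ geo k L ↔ InGeo k L σ := Iff.rfl

instance geo_normal [IsGalois K Ω] (L : IntermediateField K Ω) [Normal K L] : (geo k L).Normal := by
  constructor
  rintro σ ⟨h1, h2⟩ τ
  refine ⟨fun x hx => ?_, fun x hx => ?_⟩
  · have h3 : τ⁻¹ x ∈ L := by
      have := (IntermediateField.normal_iff_forall_map_le'.1 ‹Normal K L›) τ⁻¹
      exact this ⟨x, hx, rfl⟩
    show τ (σ (τ⁻¹ x)) = x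
    rw [h1 _ h3]
    exact AlgEquiv.apply_symm_apply τ x
  · show τ (σ (τ⁻¹ x)) = x
    rw [h2 _ (hx.map τ⁻¹)]
    exact AlgEquiv.apply_symm_apply τ x

theorem ine_geo {f : k[X]} {L : IntermediateField K Ω} (hu : IsUnram f L)
    {w : ValuationSubring Ω} {π : k[X]} (hw : IsPlace K w π) (hπ : ¬ OneAbove f π)
    {σ : Ω ≃ₐ[K] Ω} (hσ : InIne w σ) : InGeo k L σ :=
  ⟨hu w π hw hπ σ hσ, fun _ hx => hx.fix hw (hx.mem hw) hσ⟩

theorem IsTors.add {lam : M →+ M} {a b : M} (ha : IsTors lam a) (hb : IsTors lam b) :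
    IsTors lam (a + b) := by
  obtain ⟨m, hm⟩ := ha
  obtain ⟨n, hn⟩ := hb
  refine ⟨m + n, ?_⟩
  rw [iterate_map_add]
  have h1 : lam^[m + n] a = 0 := by
    rw [add_comm, Function.iterate_add_apply, hm, iterate_map_zero]
  have h2 : lam^[m + n] b = 0 := by
    rw [Function.iterate_add_apply, hn, iterate_map_zero]
  rw [h1, h2, add_zero]

theorem IsTors.neg {lam : M →+ M} {a : M} (ha : IsTors lam a) : IsTors lam (-a) := by
  obtain ⟨m, hm⟩ := ha
  exact ⟨m, by rw [iterate_map_neg, hm, neg_zero]⟩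

theorem IsTors.sub {lam : M →+ M} {a b : M} (ha : IsTors lam a) (hb : IsTors lam b) :
    IsTors lam (a - b) := by
  rw [sub_eq_add_neg]; exact ha.add hb.neg

theorem iter_smul {lam : M →+ M} (h : ∀ (σ : Ω ≃ₐ[K] Ω) (m : M), lam (σ • m) = σ • lam m)
    (σ : Ω ≃ₐ[K] Ω) (m : M) (n : ℕ) : lam^[n] (σ • m) = σ • lam^[n] m := by
  induction n with
  | zero => rfl
  | succ n ih => rw [Function.iterate_succ_apply', ih, h, Function.iterate_succ_apply']

theorem IsTors.smul {lam : M →+ M} (h : ∀ (σ : Ω ≃ₐ[K] Ω) (m : M), lam (σ • m) = σ • lam m)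
    {a : M} (ha : IsTors lam a) (σ : Ω ≃ₐ[K] Ω) : IsTors lam (σ • a) := by
  obtain ⟨m, hm⟩ := ha
  exact ⟨m, by rw [iter_smul h, hm, smul_zero]⟩

theorem geo_sel [PerfectField k] [IsFractionRing k[X] K] [IsSepClosure K Ω] (f : k[X])
    (hf : derivative f ≠ 0) {ℓ : ℕ} [hℓ : Fact ℓ.Prime] (ζ : k) (hζ : IsPrimitiveRoot ζ ℓ)
    (hd : ¬ ℓ ∣ f.natDegree) {lam : M →+ M} (hM : IsMod (K := K) (Ω := Ω) f ℓ lam)
    (L : IntermediateField K Ω) [FiniteDimensional K L] [IsGalois K L] {j : ℕ}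
    (hL : Module.finrank K L = ℓ ^ j) (hu : IsUnram f L) (n : ℕ) (c : (Ω ≃ₐ[K] Ω) → M)
    (hc : IsInvSel f lam L c) (hn : ∀ σ : Ω ≃ₐ[K] Ω, InGeo k L σ → lam^[n] (c σ) = 0) :
    ∃ m : M, IsTors lam m ∧ ∀ σ : Ω ≃ₐ[K] Ω, InGeo k L σ → c σ = σ • m - m := by
  classical
  have hsc : IsSepClosed Ω := IsSepClosure.sep_closed K
  have hgal : IsGalois K Ω := inferInstance
  obtain ⟨hfin, -⟩ := card_roots (K := K) (Ω := Ω) hf
  have := Fintype.ofFinite {x : Ω // IsRt K f x}
  have hcard := exists_root (K := K) (Ω := Ω) hf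
  have hdeg : f.natDegree ≠ 0 := fun h => hd (by rw [h]; exact dvd_zero ℓ)
  have hdR : ¬ ℓ ∣ Fintype.card {x : Ω // IsRt K f x} := by rw [hcard]; exact hd
  have hne : Nonempty {x : Ω // IsRt K f x} := by
    rw [← Fintype.card_pos_iff, hcard]; exact Nat.pos_of_ne_zero hdeg
  set H : Subgroup (Ω ≃ₐ[K] Ω) := geo k L with hH
  let N : Subgroup (Ω ≃ₐ[K] Ω) := L.fixingSubgroup
  have hNn : N.Normal := inferInstanceAs L.fixingSubgroup.Normal
  have hHN : H ≤ N := fun σ hσ => (IntermediateField.mem_fixingSubgroup_iff _ _).2 hσ.1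
  have htr : ∀ α β : {x : Ω // IsRt K f x}, ∃ h ∈ H, h • α = β := by
    intro α β
    have htr' : ∀ α β : {x : Ω // IsRt K f x}, ∃ h ∈ geo k (⊥ : IntermediateField K Ω),
        h • α = β := by
      intro α β
      obtain ⟨σ, h1, h2⟩ := trans_geo hdeg α.2 β.2
      refine ⟨σ, ⟨fun x hx => ?_, h1⟩, Subtype.ext h2⟩
      obtain ⟨y, rfl⟩ := IntermediateField.mem_bot.1 hx
      exact σ.commutes y
    obtain ⟨h, ⟨hh1, hh2⟩, hh3⟩ := trans_sub hdR (N := N) htr' ((index_eq L).trans hL) α β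
    exact ⟨h, ⟨(IntermediateField.mem_fixingSubgroup_iff _ _).1 hh2, hh1.2⟩, hh3⟩
  obtain ⟨e, he⟩ := hM.ker
  have huniq : ∀ v : {x : Ω // IsRt K f x} → ZMod ℓ, ∑ β, v β = 0 → (∀ a ∈ H, sh a v = v) →
      v = 0 := fun v h1 h2 => uniqH hdR htr v h1 h2
  -- no torsion
  have ht1 : ∀ m : M, (∀ a ∈ H, a • m = m) → lam m = 0 → m = 0 := by
    intro m h1 h2
    apply he.inj m h2
    apply huniq _ (he.sum m h2)
    intro a ha
    rw [← he.sh a m h2, h1 a ha]
  have ht2 : ∀ (i : ℕ) (m : M), (∀ a ∈ H, a • m = m) → lam^[i] m = 0 → m = 0 := by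
    intro i
    induction i with
    | zero => intro m _ h; exact h
    | succ i ih =>
      intro m h1 h2
      rw [Function.iterate_succ_apply] at h2
      have h3 : lam m = 0 := ih (lam m) (fun a ha => by rw [← hM.equiv, h1 a ha]) h2
      exact ht1 m h1 h3
  induction n generalizing c with
  | zero => exact ⟨0, ⟨0, rfl⟩, fun σ hσ => by
      rw [smul_zero, sub_zero]; exact hn σ hσ⟩
  | succ n ih =>
    obtain ⟨S, hSf, hS⟩ := hc.cont
    have hRf : (Set.range fun β : {x : Ω // IsRt K f x} => (β : Ω)).Finite := Set.finite_range _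
    obtain ⟨U, hUn, hUf, hUN, hUS, S', hS'f, hS'⟩ := exists_open
      (S ∪ Set.range fun β : {x : Ω // IsRt K f x} => (β : Ω)) (hSf.union hRf) L
    have hUR : ∀ a ∈ U, ∀ β : {x : Ω // IsRt K f x}, a • β = β := fun a ha β =>
      Subtype.ext (hUS a ha β (Or.inr ⟨β, rfl⟩))
    set c' : (Ω ≃ₐ[K] Ω) → M := fun σ => lam^[n] (c σ) with hc'
    have hc'l : ∀ a ∈ H, lam (c' a) = 0 := by
      intro a ha
      rw [← hn a ha, Function.iterate_succ_apply']
    have hc'm : ∀ a ∈ H, ∀ b ∈ H, c' (a * b) = c' a + a • c' b := by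
      intro a ha b hb
      simp only [hc']
      rw [hc.mul a b ha hb, iterate_map_add, iter_smul hM.equiv]
    obtain ⟨d, hd1, hd2, hd3, hd4, hd5⟩ := extd (H := H) (N := N) (U := U) hHN huniq hUR
      (c := fun σ => e (c' σ)) (by
        intro a ha b hb
        show e (c' (a * b)) = _
        rw [hc'm a ha b hb, he.add _ _ (hc'l a ha) (by rw [hM.equiv, hc'l b hb, smul_zero]),
          he.sh a _ (hc'l b hb)])
      (fun a ha => he.sum _ (hc'l a ha))
      (fun a ha haU => by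
        show e (lam^[n] (c a)) = 0
        rw [hS a ha (fun x hx => hUS a haU x (Or.inl hx)), iterate_map_zero, he.zero])
      (by
        intro τ hτ
        obtain ⟨m, ⟨i, hi⟩, hm⟩ := hc.inv τ ((IntermediateField.mem_fixingSubgroup_iff _ _).1 hτ)
        have hconj : ∀ a ∈ H, τ⁻¹ * a * τ ∈ H := fun a ha => by
          have := (inferInstance : H.Normal).conj_mem _ ha τ⁻¹
          rwa [inv_inv] at this
        have h1 : ∀ a ∈ H, τ • c' (τ⁻¹ * a * τ) - c' a = a • lam^[n] m - lam^[n] m := by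
          intro a ha
          simp only [hc']
          rw [← iter_smul hM.equiv, ← iter_smul hM.equiv, ← iterate_map_sub, ← iterate_map_sub,
            hm a ha]
        have h2 : lam (lam^[n] m) = 0 := by
          apply ht2 i
          · intro a ha
            have h3 := congrArg lam (h1 a ha)
            rw [map_sub, map_sub, hM.equiv, hM.equiv, hc'l _ (hconj a ha), hc'l a ha, smul_zero,
              sub_zero] at h3
            exact (sub_eq_zero.1 h3.symm)
          · rw [← Function.iterate_succ_apply' (⇑lam) n m, ← Function.iterate_add_apply, add_comm,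
              Function.iterate_add_apply, hi, iterate_map_zero]
        refine ⟨e (lam^[n] m), he.sum _ h2, fun a ha => ?_⟩
        show sh τ (e (c' (τ⁻¹ * a * τ))) - e (c' a) = _
        rw [← he.sh τ _ (hc'l _ (hconj a ha)), ← he.sub (by rw [hM.equiv, hc'l _ (hconj a ha),
          smul_zero]) (hc'l a ha), h1 a ha, he.sub (by rw [hM.equiv, h2, smul_zero]) h2,
          he.sh a _ h2])
    have hdC : d ∈ Coc ℓ N U (TT K Ω f) := by
      refine ⟨hd1, hd2, hd3, fun a ha => hd4 a (hUN ha) ha, fun i hi => ?_⟩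
      obtain ⟨w, π, hw, hπ, rfl⟩ := hi
      obtain ⟨p, hp⟩ := hc.loc w π hw hπ
      have hgeo : ∀ a : Ω ≃ₐ[K] Ω, InIne w a → a ∈ H := fun a ha => ine_geo hu hw hπ ha
      have h1 : ∀ a : Ω ≃ₐ[K] Ω, InIne w a → c' a = a • lam^[n] p - lam^[n] p := by
        intro a ha
        simp only [hc']
        rw [← iter_smul hM.equiv, ← iterate_map_sub, hp a (hgeo a ha) ha]
      obtain ⟨q, hq1, hq2⟩ := hM.div w π hw hπ (lam (lam^[n] p)) (by
        intro a ha
        have h3 := congrArg lam (h1 a ha)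
        rw [hc'l a (hgeo a ha), map_sub, hM.equiv] at h3
        exact (sub_eq_zero.1 h3.symm))
      have h2 : lam (lam^[n] p - q) = 0 := by rw [map_sub, hq2, sub_self]
      refine ⟨e (lam^[n] p - q), he.sum _ h2, fun a ha => ?_⟩
      rw [hd5 a (hgeo a ha), ← he.sh a _ h2, ← he.sub (by rw [hM.equiv, h2, smul_zero]) h2, h1 a ha,
        smul_sub, hq1 a ha]
      congr 1
      abel
    obtain ⟨v, hv0, hv⟩ := coreV f hf ζ hζ hd L hL hu hUN hS'f hS' hdC
    obtain ⟨m0, hm00, hm0⟩ := (he.range v).2 (by rw [finsum_eq_sum_of_fintype]; exact hv0)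
    have h3 : ∀ a ∈ H, c' a = a • m0 - m0 := by
      intro a ha
      have h4 : lam (a • m0 - m0) = 0 := by rw [map_sub, hM.equiv, hm00, smul_zero, sub_zero]
      have h5 : e (c' a - (a • m0 - m0)) = 0 := by
        rw [he.sub (hc'l a ha) h4, he.sub (by rw [hM.equiv, hm00, smul_zero]) hm00,
          he.sh a m0 hm00, hm0, ← hv a (hHN ha), hd5 a ha, sub_self]
      exact sub_eq_zero.1 (he.inj _ (by rw [map_sub, hc'l a ha, h4, sub_zero]) h5)
    obtain ⟨m1, hm1⟩ := hM.surj.iterate n m0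
    have hm1t : IsTors lam m1 := ⟨n + 1, by rw [Function.iterate_succ_apply', hm1, hm00]⟩
    obtain ⟨S1, hS1f, hS1⟩ := hM.disc m1
    obtain ⟨m2, hm2t, hm2⟩ := ih (fun σ => c σ - (σ • m1 - m1)) ⟨by
        intro σ τ hσ hτ
        show c (σ * τ) - ((σ * τ) • m1 - m1) = _
        rw [hc.mul σ τ hσ hτ, mul_smul, smul_sub, smul_sub]
        abel, ⟨S ∪ S1, hSf.union hS1f, fun σ hσ h => by
          show c σ - (σ • m1 - m1) = 0
          rw [hS σ hσ (fun x hx => h x (Or.inl hx)), hS1 σ (fun x hx => h x (Or.inr hx)), sub_self,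
            sub_zero]⟩, ⟨n, fun σ hσ => by
          show lam^[n] (c σ - (σ • m1 - m1)) = 0
          rw [iterate_map_sub, iterate_map_sub, iter_smul hM.equiv, hm1, ← h3 σ hσ, sub_self]⟩, by
        intro τ hτ
        obtain ⟨m, hmt, hm⟩ := hc.inv τ hτ
        refine ⟨m - τ • m1 + m1, (hmt.sub (hm1t.smul hM.equiv τ)).add hm1t, fun σ hσ => ?_⟩
        have h4 := hm σ hσ
        have h5 : τ • (τ⁻¹ * σ * τ) • m1 = σ • τ • m1 := by
          rw [← mul_smul, ← mul_smul]
          congr 1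
          group
        show τ • (c (τ⁻¹ * σ * τ) - ((τ⁻¹ * σ * τ) • m1 - m1)) - (c σ - (σ • m1 - m1)) = _
        rw [smul_sub, smul_sub, h5, smul_add, smul_sub]
        have h6 : τ • c (τ⁻¹ * σ * τ) = σ • m - m + c σ := by rw [← h4]; abel
        rw [h6]
        abel, by
        intro w π hw hπ
        obtain ⟨p, hp⟩ := hc.loc w π hw hπ
        refine ⟨p - m1, fun σ hσ hσ2 => ?_⟩
        show c σ - (σ • m1 - m1) = _
        rw [hp σ hσ hσ2, smul_sub]
        abel⟩ (fun σ hσ => by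
          show lam^[n] (c σ - (σ • m1 - m1)) = 0
          rw [iterate_map_sub, iterate_map_sub, iter_smul hM.equiv, hm1, ← h3 σ hσ, sub_self])
    refine ⟨m1 + m2, hm1t.add hm2t, fun σ hσ => ?_⟩
    have h4 : c σ - (σ • m1 - m1) = σ • m2 - m2 := hm2 σ hσ
    rw [smul_add]
    have h5 : c σ = σ • m2 - m2 + (σ • m1 - m1) := by rw [← h4]; abel
    rw [h5]; abel

end

end Run7.h615.EP
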