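import Mathlib

set_option autoImplicit false
set_option linter.unusedSectionVars false

/-!
Group theory: locally trivial classes over a normal subgroup of `ℓ`-power index with values in the
functions of sum zero on a transitive set of cardinality prime to `ℓ`.
-/

namespace Run7.h615.EP

open MulAction

section

variable {G R : Type} [Group G] [MulAction G R] {ℓ : ℕ}

/-- the action on functions -/
def sh (g : G) (u : R → ZMod ℓ) : R → ZMod ℓ := fun β => u (g⁻¹ • β)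

theorem sh_apply (g : G) (u : R → ZMod ℓ) (β : R) : sh g u β = u (g⁻¹ • β) := rfl

theorem sh_one (u : R → ZMod ℓ) : sh (1 : G) u = u := by
  funext β; rw [sh_apply, inv_one, one_smul]

theorem sh_mul (g h : G) (u : R → ZMod ℓ) : sh (g * h) u = sh g (sh h u) := by
  funext β; rw [sh_apply, sh_apply, sh_apply, mul_inv_rev, mul_smul]

theorem sh_add (g : G) (u v : R → ZMod ℓ) : sh g (u + v) = sh g u + sh g v := rfl

theorem sh_sub (g : G) (u v : R → ZMod ℓ) : sh g (u - v) = sh g u - sh g v := rfl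

theorem sh_neg (g : G) (u : R → ZMod ℓ) : sh g (-u) = -sh g u := rfl

theorem sh_zero (g : G) : sh g (0 : R → ZMod ℓ) = 0 := rfl

theorem sh_sum [Fintype R] (g : G) (u : R → ZMod ℓ) : ∑ β, sh g u β = ∑ β, u β :=
  Equiv.sum_comp (MulAction.toPerm g⁻¹) u

variable [Fintype R]

/-- cocycles on `N`, extended by zero, which vanish on `U` and are trivial on the sets in `T` -/
def Coc (ℓ : ℕ) (N U : Subgroup G) (T : Set (Set G)) : AddSubgroup (G → R → ZMod ℓ) where
  carrier := {c | (∀ a, a ∉ N → c a = 0) ∧ (∀ a ∈ N, ∀ b ∈ N, c (a * b) = c a + sh a (c b)) ∧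
    (∀ a, ∑ β, c a β = 0) ∧ (∀ a ∈ U, c a = 0) ∧
    ∀ i ∈ T, ∃ v : R → ZMod ℓ, ∑ β, v β = 0 ∧ ∀ a ∈ i, c a = sh a v - v}
  zero_mem' := ⟨fun _ _ => rfl, fun _ _ _ _ => by simp [sh_zero], fun _ => by simp,
    fun _ _ => rfl, fun _ _ => ⟨0, by simp, fun _ _ => by simp [sh_zero]⟩⟩
  add_mem' := by
    rintro c d ⟨h1, h2, h3, h4, h5⟩ ⟨k1, k2, k3, k4, k5⟩
    refine ⟨fun a ha => ?_, fun a ha b hb => ?_, fun a => ?_, fun a ha => ?_, fun i hi => ?_⟩
    · rw [Pi.add_apply, h1 a ha, k1 a ha, add_zero]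
    · rw [Pi.add_apply, Pi.add_apply, Pi.add_apply, h2 a ha b hb, k2 a ha b hb, sh_add]
      abel
    · simp only [Pi.add_apply, Finset.sum_add_distrib]
      rw [h3, k3, add_zero]
    · rw [Pi.add_apply, h4 a ha, k4 a ha, add_zero]
    · obtain ⟨v, hv, hv'⟩ := h5 i hi
      obtain ⟨w, hw, hw'⟩ := k5 i hi
      refine ⟨v + w, by simp only [Pi.add_apply, Finset.sum_add_distrib]; rw [hv, hw, add_zero],
        fun a ha => ?_⟩
      rw [Pi.add_apply, hv' a ha, hw' a ha, sh_add]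
      abel
  neg_mem' := by
    rintro c ⟨h1, h2, h3, h4, h5⟩
    refine ⟨fun a ha => ?_, fun a ha b hb => ?_, fun a => ?_, fun a ha => ?_, fun i hi => ?_⟩
    · rw [Pi.neg_apply, h1 a ha, neg_zero]
    · rw [Pi.neg_apply, Pi.neg_apply, Pi.neg_apply, h2 a ha b hb, sh_neg]
      abel
    · simp only [Pi.neg_apply, Finset.sum_neg_distrib]
      rw [h3, neg_zero]
    · rw [Pi.neg_apply, h4 a ha, neg_zero]
    · obtain ⟨v, hv, hv'⟩ := h5 i hi
      refine ⟨-v, by simp only [Pi.neg_apply, Finset.sum_neg_distrib]; rw [hv, neg_zero],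
        fun a ha => ?_⟩
      rw [Pi.neg_apply, hv' a ha, sh_neg]
      abel

/-- coboundaries on `N` -/
def Cob (ℓ : ℕ) (N : Subgroup G) : AddSubgroup (G → R → ZMod ℓ) where
  carrier := {c | ∃ v : R → ZMod ℓ, ∑ β, v β = 0 ∧ ∀ a ∈ N, c a = sh a v - v}
  zero_mem' := ⟨0, by simp, fun _ _ => by simp [sh_zero]⟩
  add_mem' := by
    rintro c d ⟨v, hv, hv'⟩ ⟨w, hw, hw'⟩
    refine ⟨v + w, by simp only [Pi.add_apply, Finset.sum_add_distrib]; rw [hv, hw, add_zero],
        fun a ha => ?_⟩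
    rw [Pi.add_apply, hv' a ha, hw' a ha, sh_add]
    abel
  neg_mem' := by
    rintro c ⟨v, hv, hv'⟩
    refine ⟨-v, by simp only [Pi.neg_apply, Finset.sum_neg_distrib]; rw [hv, neg_zero],
        fun a ha => ?_⟩
    rw [Pi.neg_apply, hv' a ha, sh_neg]
    abel

/-- conjugation of cocycles -/
def cj (g : G) (c : G → R → ZMod ℓ) : G → R → ZMod ℓ := fun a => sh g (c (g⁻¹ * a * g))

theorem cj_one (c : G → R → ZMod ℓ) : cj 1 c = c := by
  funext a; simp only [cj, sh_one, inv_one, one_mul, mul_one]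

theorem cj_mul (g h : G) (c : G → R → ZMod ℓ) : cj (g * h) c = cj g (cj h c) := by
  funext a
  simp only [cj, sh_mul, mul_inv_rev]
  congr 3
  group

theorem cj_add (g : G) (c d : G → R → ZMod ℓ) : cj g (c + d) = cj g c + cj g d := rfl

variable {N U : Subgroup G} [hN : N.Normal] [hU : U.Normal] {T : Set (Set G)}

theorem cj_mem_coc (hT : ∀ i ∈ T, ∀ g : G, ∃ i' ∈ T, ∀ a ∈ i, g⁻¹ * a * g ∈ i') (g : G)
    {c : G → R → ZMod ℓ} (hc : c ∈ Coc ℓ N U T) : cj g c ∈ Coc ℓ N U T := by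
  obtain ⟨h1, h2, h3, h4, h5⟩ := hc
  have hconj : ∀ a, g⁻¹ * a * g ∈ N ↔ a ∈ N := fun a => by
    constructor
    · intro h
      have := hN.conj_mem _ h g
      have e : g * (g⁻¹ * a * g) * g⁻¹ = a := by group
      rwa [e] at this
    · intro h
      have := hN.conj_mem _ h g⁻¹
      rwa [inv_inv] at this
  refine ⟨fun a ha => ?_, fun a ha b hb => ?_, fun a => ?_, fun a ha => ?_, fun i hi => ?_⟩
  · simp only [cj]
    rw [h1 _ (fun h => ha ((hconj a).1 h)), sh_zero]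
  · simp only [cj]
    have e : g⁻¹ * (a * b) * g = (g⁻¹ * a * g) * (g⁻¹ * b * g) := by group
    have e2 : g * (g⁻¹ * a * g) = a * g := by group
    rw [e, h2 _ ((hconj a).2 ha) _ ((hconj b).2 hb), sh_add, ← sh_mul, ← sh_mul, e2]
  · simp only [cj]
    rw [sh_sum, h3]
  · simp only [cj]
    have := hU.conj_mem _ ha g⁻¹
    rw [inv_inv] at this
    rw [h4 _ this, sh_zero]
  · obtain ⟨i', hi', hh⟩ := hT i hi g
    obtain ⟨v, hv, hv'⟩ := h5 i' hi'
    refine ⟨sh g v, by rw [sh_sum, hv], fun a ha => ?_⟩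
    simp only [cj]
    rw [hv' _ (hh a ha), sh_sub, ← sh_mul, ← sh_mul]
    congr 2
    group

theorem cj_mem_cob (g : G) {c : G → R → ZMod ℓ} (hc : c ∈ Cob ℓ N) : cj g c ∈ Cob ℓ N := by
  obtain ⟨v, hv, hv'⟩ := hc
  refine ⟨sh g v, by rw [sh_sum, hv], fun a ha => ?_⟩
  simp only [cj]
  have := hN.conj_mem _ ha g⁻¹
  rw [inv_inv] at this
  rw [hv' _ this, sh_sub, ← sh_mul, ← sh_mul]
  congr 2
  group

omit hN hU in
theorem cj_self {c : G → R → ZMod ℓ} (hc : c ∈ Coc ℓ N U T) {g : G} (hg : g ∈ N) :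
    cj g c - c ∈ Cob ℓ N := by
  obtain ⟨h1, h2, h3, h4, h5⟩ := hc
  refine ⟨c g, h3 g, fun a ha => ?_⟩
  have e1 : c (a * g) = c a + sh a (c g) := h2 a ha g hg
  have e2 : c (a * g) = c g + sh g (c (g⁻¹ * a * g)) := by
    rw [← h2 g hg _ (N.mul_mem (N.mul_mem (N.inv_mem hg) ha) hg)]
    congr 1
    group
  simp only [Pi.sub_apply, cj]
  rw [e1] at e2
  rw [eq_sub_of_add_eq' e2.symm]
  abel

omit hN hU in
theorem coc_sub (hUN : U ≤ N) {c : G → R → ZMod ℓ} (hc : c ∈ Coc ℓ N U T) (a b : G)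
    (h : a⁻¹ * b ∈ U) : c a = c b := by
  obtain ⟨h1, h2, h3, h4, h5⟩ := hc
  have e : b = a * (a⁻¹ * b) := by group
  by_cases ha : a ∈ N
  · rw [e, h2 a ha _ (hUN h), h4 _ h, sh_zero, add_zero]
  · have hb : b ∉ N := fun hb => ha (by
      have := N.mul_mem hb (N.inv_mem (hUN h))
      have e2 : b * (a⁻¹ * b)⁻¹ = a := by group
      rwa [e2] at this)
    rw [h1 a ha, h1 b hb]

omit hN hU in
theorem finite_coc [NeZero ℓ] [U.FiniteIndex] (hUN : U ≤ N) : Finite (Coc (R := R) ℓ N U T) := by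
  have : Finite (G ⧸ U) := inferInstance
  refine Finite.of_injective (β := (G ⧸ U) → R → ZMod ℓ) (fun c q => c.1 (Quotient.out q)) ?_
  intro c d h
  apply Subtype.ext
  funext a
  have h1 := congrFun h (QuotientGroup.mk a)
  have h2 : a⁻¹ * Quotient.out (QuotientGroup.mk a : G ⧸ U) ∈ U :=
    QuotientGroup.eq.1 (QuotientGroup.out_eq' _).symm
  rw [coc_sub hUN c.2 a _ h2, coc_sub hUN d.2 a _ h2]
  exact h1

end

end Run7.h615.EP
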