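import Pool.Agent.Run7.h615.EP.Gm

set_option autoImplicit false

/-!
The general theorem.
-/

namespace Run7.h615.EP

open Polynomial

section

variable {k K Ω : Type} [Field k] [Field K] [Algebra k[X] K] [Field Ω] [Algebra K Ω]
  {M : Type} [AddCommGroup M] [DistribMulAction (Ω ≃ₐ[K] Ω) M]

/-- an element of the fixing subgroup as an automorphism over `L` -/
def upL {L : IntermediateField K Ω} (σ : Ω ≃ₐ[K] Ω) (h : ∀ x ∈ L, σ x = x) : Ω ≃ₐ[L] Ω :=
  { σ with commutes' := fun x => h x x.2 }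

theorem upL_res {L : IntermediateField K Ω} (σ : Ω ≃ₐ[K] Ω) (h : ∀ x ∈ L, σ x = x) :
    (upL σ h).restrictScalars K = σ := by ext x; rfl

theorem upL_apply {L : IntermediateField K Ω} (σ : Ω ≃ₐ[K] Ω) (h : ∀ x ∈ L, σ x = x) (x : Ω) :
    (upL σ h) x = σ x := rfl

theorem res_mem {L : IntermediateField K Ω} (σ : Ω ≃ₐ[L] Ω) (x : Ω) (hx : x ∈ L) :
    σ.restrictScalars K x = x := σ.commutes ⟨x, hx⟩

theorem ine_res {L : IntermediateField K Ω} {w : ValuationSubring Ω} {σ : Ω ≃ₐ[L] Ω} :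
    InIne w (σ.restrictScalars K) ↔ InIne w σ := Iff.rfl

theorem vanishes [PerfectField k] [IsFractionRing k[X] K] [IsSepClosure K Ω] (f : k[X])
    (hf : derivative f ≠ 0) {ℓ : ℕ} [hℓ : Fact ℓ.Prime] (ζ : k) (hζ : IsPrimitiveRoot ζ ℓ)
    (hd : ¬ ℓ ∣ f.natDegree) {lam : M →+ M} (hM : IsMod (K := K) (Ω := Ω) f ℓ lam)
    (L : IntermediateField K Ω) [FiniteDimensional K L] [IsGalois K L] {j : ℕ}
    (hL : Module.finrank K L = ℓ ^ j) (hu : IsUnram f L) : Vanishes f lam L := by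
  classical
  have hmem : ∀ σ : Ω ≃ₐ[K] Ω, σ ∈ L.fixingSubgroup ↔ ∀ x ∈ L, σ x = x :=
    fun σ => IntermediateField.mem_fixingSubgroup_iff _ _
  have hineN : ∀ (w : ValuationSubring Ω) (π : k[X]), IsPlace K w π → ¬ OneAbove f π →
      ∀ σ : Ω ≃ₐ[K] Ω, InIne w σ → ∀ x ∈ L, σ x = x := hu
  have hfixN : ∀ m : M, FixedBy L m → ∀ σ : Ω ≃ₐ[K] Ω, (∀ x ∈ L, σ x = x) → σ • m = m := by
    intro m hm σ hσ
    have := hm (upL σ hσ)
    rw [actL, upL_res] at this
    exact this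
  refine ⟨?_, ?_, ?_, fun c hc => by
    obtain ⟨n, hn⟩ := hc.tors
    exact geo_sel f hf ζ hζ hd hM L hL hu n c hc hn⟩
  · intro m hm
    obtain ⟨m1, hm1⟩ := hM.surj m
    obtain ⟨S, hSf, hS⟩ := hM.disc m1
    obtain ⟨m2, h1, h2⟩ := core f hf ζ hζ hd hM L hL hu (fun σ => σ • m1 - m1) (by
      intro σ _ τ _
      show (σ * τ) • m1 - m1 = σ • m1 - m1 + σ • (τ • m1 - m1)
      rw [mul_smul, smul_sub]
      abel) (by
      intro σ hσ
      show lam (σ • m1 - m1) = 0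
      rw [map_sub, hM.equiv, hm1, hfixN m hm σ ((hmem σ).1 hσ), sub_self]) S hSf (by
      intro σ _ h
      show σ • m1 - m1 = 0
      rw [hS σ h, sub_self]) (by
      intro w π hw hπ
      refine ⟨m1, fun σ hσ => ?_, fun σ _ => rfl⟩
      rw [hm1]
      exact hfixN m hm σ (hineN w π hw hπ σ hσ))
    refine ⟨m1 - m2, fun σ => ?_, by rw [map_sub, hm1, h1, sub_zero]⟩
    have h3 := h2 (σ.restrictScalars K) ((hmem _).2 (res_mem σ))
    show (σ.restrictScalars K) • (m1 - m2) = m1 - m2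
    rw [smul_sub]
    have h4 : (σ.restrictScalars K) • m1 = m1 + ((σ.restrictScalars K) • m2 - m2) := by
      rw [← h3]; abel
    rw [h4]; abel
  · intro m hm hm0
    obtain ⟨e, he⟩ := hM.ker
    have hsc : IsSepClosed Ω := IsSepClosure.sep_closed K
    have hgal : IsGalois K Ω := inferInstance
    obtain ⟨hfin, hcard⟩ := card_roots (K := K) (Ω := Ω) hf
    have := Fintype.ofFinite {x : Ω // IsRt K f x}
    rw [Nat.card_eq_fintype_card] at hcard
    have hdeg : f.natDegree ≠ 0 := fun h => hd (by rw [h]; exact dvd_zero ℓ)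
    have hne : Nonempty {x : Ω // IsRt K f x} := by
      rw [← Fintype.card_pos_iff, hcard]; exact Nat.pos_of_ne_zero hdeg
    let _ : MulAction (Ω ≃ₐ[K] Ω) {x : Ω // IsRt K f x} := actR f
    have hpre : MulAction.IsPretransitive (Ω ≃ₐ[K] Ω) {x : Ω // IsRt K f x} := ⟨fun x y => by
      obtain ⟨σ, hσ⟩ := exists_aut_root hdeg x.2 y.2
      exact ⟨σ, Subtype.ext hσ⟩⟩
    have hNn : L.fixingSubgroup.Normal := inferInstance
    apply he.inj m hm0
    apply uniq (N := L.fixingSubgroup) (by rw [hcard]; exact hd) ((index_eq L).trans hL)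
    · rw [← finsum_eq_sum_of_fintype]
      exact (he.range (e m)).1 ⟨m, hm0, rfl⟩
    · intro σ hσ
      funext β
      rw [sh_apply]
      have h1 := he.act σ m hm0 (σ⁻¹ • β) β (AlgEquiv.apply_symm_apply σ (β : Ω))
      rw [hfixN m hm σ ((hmem σ).1 hσ)] at h1
      exact h1.symm
  · rintro c ⟨hcmul, Sc, hScf, hSc⟩ ⟨m0, hm0⟩ hloc
    obtain ⟨m1, hm1⟩ := hM.surj m0
    obtain ⟨S, hSf, hS⟩ := hM.disc m1
    have hm0' : ∀ σ, lam (c σ) = actL σ m0 - m0 := fun σ => hm0 σ trivial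
    let c1 : (Ω ≃ₐ[K] Ω) → M := fun σ => if h : ∀ x ∈ L, σ x = x then
      c (upL σ h) - (σ • m1 - m1) else 0
    have hc1 : ∀ (σ : Ω ≃ₐ[K] Ω) (h : ∀ x ∈ L, σ x = x),
      c1 σ = c (upL σ h) - (σ • m1 - m1) := fun σ h => dif_pos h
    have hup : ∀ (σ τ : Ω ≃ₐ[K] Ω) (hσ : ∀ x ∈ L, σ x = x) (hτ : ∀ x ∈ L, τ x = x)
      (h : ∀ x ∈ L, (σ * τ) x = x), upL (σ * τ) h = upL σ hσ * upL τ hτ := by
      intro σ τ hσ hτ h; ext x; rfl
    obtain ⟨m2, h1, h2⟩ := core f hf ζ hζ hd hM L hL hu c1 (by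
      intro σ hσ τ hτ
      have hσ' := (hmem σ).1 hσ
      have hτ' := (hmem τ).1 hτ
      have h := (hmem _).1 (L.fixingSubgroup.mul_mem hσ hτ)
      rw [hc1 _ h, hc1 _ hσ', hc1 _ hτ', hup σ τ hσ' hτ' h, hcmul, actL, upL_res, mul_smul,
        smul_sub, smul_sub]
      abel) (by
      intro σ hσ
      have hσ' := (hmem σ).1 hσ
      rw [hc1 _ hσ', map_sub, map_sub, hM.equiv, hm1, hm0', actL, upL_res]
      abel) (Sc ∪ S) (hScf.union hSf) (by
      intro σ hσ h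
      have hσ' := (hmem σ).1 hσ
      rw [hc1 _ hσ', hS σ (fun x hx => h x (Or.inr hx)),
        hSc (upL σ hσ') (fun x hx => h x (Or.inl hx)), sub_self, sub_zero]) (by
      intro w π hw hπ
      obtain ⟨p0, hp0⟩ := hloc w π hw hπ
      have hin : ∀ (σ : Ω ≃ₐ[K] Ω) (hσ : InIne w σ),
          c (upL σ (hineN w π hw hπ σ hσ)) = σ • p0 - p0 := by
        intro σ hσ
        have := hp0 (upL σ (hineN w π hw hπ σ hσ)) hσ
        rw [actL, upL_res] at this
        exact this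
      refine ⟨p0 - m1, fun σ hσ => ?_, fun σ hσ => ?_⟩
      · have h3 := congrArg lam (hin σ hσ)
        rw [hm0', actL, upL_res, map_sub, hM.equiv] at h3
        rw [map_sub, hm1, smul_sub]
        have h4 : σ • lam p0 = lam p0 + (σ • m0 - m0) := by rw [h3]; abel
        rw [h4]; abel
      · rw [hc1 _ (hineN w π hw hπ σ hσ), hin σ hσ, smul_sub]
        abel)
    refine ⟨m1 + m2, fun σ _ => ?_⟩
    have hσ := (hmem (σ.restrictScalars K)).2 (res_mem σ)
    have h3 := h2 _ hσ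
    have h4 : upL (σ.restrictScalars K) (res_mem σ) = σ := by ext x; rfl
    rw [hc1 _ (res_mem σ), h4] at h3
    show c σ = (σ.restrictScalars K) • (m1 + m2) - (m1 + m2)
    rw [smul_add]
    have h5 : c σ = ((σ.restrictScalars K) • m1 - m1) + ((σ.restrictScalars K) • m2 - m2) := by
      rw [← h3]; abel
    rw [h5]; abel

end

end Run7.h615.EP
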