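import Pool.Agent.Run7.h615.EP.E4
import Pool.Agent.Run7.h615.EP.Mv

set_option autoImplicit false

/-!
The points with coordinates in `L`.
-/

namespace Run7.h615.EP

open Polynomial WeierstrassCurve

section

variable {k K Ω : Type} [Field k] [Field K] [Algebra k[X] K] [Field Ω] [Algebra K Ω]
  [DecidableEq Ω]

theorem half_unique [PerfectField k] [IsFractionRing k[X] K] [IsSepClosure K Ω] {a b c : k}
    (L : IntermediateField K Ω) [DecidableEq L]
    (hV : Vanishes (cub a b c) (mulTwo K Ω a b c) L)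
    (P : (Affine.baseChange (crv K a b c) L).Point) :
    ∃! Q : (Affine.baseChange (crv K a b c) L).Point, Q + Q = P := by
  have hgal : IsGalois K Ω := IsSepClosure.isGalois
  have hgalL : IsGalois L Ω := IsGalois.tower_top_of_isGalois K L Ω
  let i : (Affine.baseChange (crv K a b c) L).Point →+ Pts K Ω a b c :=
    Affine.Point.map (W' := crv K a b c) L.val
  have hi : Function.Injective i := Affine.Point.map_injective (W' := crv K a b c) L.val
  have hfix : ∀ Q, FixedBy L (i Q) := by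
    rintro (_ | ⟨x, y, hn⟩) σ
    · exact smul_zero _
    · exact some_ext _ _ (σ.commutes x) (σ.commutes y)
  have hmem : ∀ x : Ω, (∀ σ : Ω ≃ₐ[L] Ω, σ x = x) → ∃ x' : L, (x' : Ω) = x := by
    intro x hx
    have : x ∈ (⊥ : IntermediateField L Ω) := (InfiniteGalois.mem_bot_iff_fixed x).2 hx
    obtain ⟨x', hx'⟩ := IntermediateField.mem_bot.1 this
    exact ⟨x', hx'⟩
  have hsurj : ∀ Q : Pts K Ω a b c, FixedBy L Q → ∃ Q', i Q' = Q := by
    rintro (_ | ⟨x, y, hn⟩) hQ
    · exact ⟨0, map_zero i⟩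
    · have hx : ∀ σ : Ω ≃ₐ[L] Ω, σ x = x := fun σ => (Affine.Point.some.inj (hQ σ)).1
      have hy : ∀ σ : Ω ≃ₐ[L] Ω, σ y = y := fun σ => (Affine.Point.some.inj (hQ σ)).2
      obtain ⟨x', rfl⟩ := hmem x hx
      obtain ⟨y', rfl⟩ := hmem y hy
      have hn' : (Affine.baseChange (crv K a b c) L).Nonsingular x' y' :=
        ((crv K a b c).baseChange_nonsingular (f := L.val) L.val.injective x' y').1 hn
      exact ⟨.some x' y' hn', rfl⟩
  have hdbl : ∀ Q, i (Q + Q) = mulTwo K Ω a b c (i Q) := by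
    intro Q
    rw [mulTwo_apply, map_add]
  obtain ⟨m, hm, hm2⟩ := hV.div (i P) (hfix P)
  obtain ⟨Q, rfl⟩ := hsurj m hm
  refine ⟨Q, hi ?_, ?_⟩
  · rw [hdbl, hm2]
  · intro Q' hQ'
    have h1 : i (Q' - Q) = 0 := by
      apply hV.tors _ (hfix _)
      rw [← hdbl]
      have e : Q' - Q + (Q' - Q) = (Q' + Q') - (Q + Q) := by abel
      have e2 : Q + Q = P := hi (by rw [hdbl, hm2])
      rw [e, hQ', e2, sub_self, map_zero]
    have h2 : Q' - Q = 0 := hi (by rw [h1, map_zero])
    exact sub_eq_zero.1 h2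

end

end Run7.h615.EP
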